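import Pool.Agent.CHO.Defs
import Pool.Agent.CSP.AlNorm

/-!
# CHO/AlM: from the matrix `M` to `Alg`   (difficulty 1)

`M = (v, e₀, m)` : `v = M e₀`, `M e₁ = e₀`, `m = M e₂`; `M C = (v, e₁, m')` : `M C e₀ = v` (`C e₀ = e₀`), `M C e₁ = e₁`, `m' = M C e₂`.
* entries: `M i 0 = v i`, `M 0 1 = 1`, `M 1 1 = M 2 1 = 0`, `M i 2 = m i` (`Matrix.mulVec`, `dotProduct`, `Fin.sum_univ_three`).
* `uni`: `det M = -(v₂ m₃ - m₂ v₃) = -1` (`Matrix.det_fin_three`).  `uni'`: `det (M C) = det M * det C = -1`, `det (v, e₁, m') = v₁ m'₃ - m'₁ v₃`.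
* `e1*`: `M (C e₁) = e₁`, `C e₁ = (C01, C11, C21)`.  `e2*`: definition of `m'`.
-/

open scoped Manifold ContDiff Topology

namespace Pool.Agent.CHO

open Pool.Agent.CSP (NF)

theorem alg_of_M {C M : Matrix (Fin 3) (Fin 3) ℤ} (hC : NF C) (hM : M.det = -1)
    (h1 : M.mulVec ![0, 1, 0] = ![1, 0, 0]) (h2 : M.mulVec (C.mulVec ![0, 1, 0]) = ![0, 1, 0]) {v m m' : Z3}
    (hv : M.mulVec ![1, 0, 0] = ![v.1, v.2.1, v.2.2]) (hm : M.mulVec ![0, 0, 1] = ![m.1, m.2.1, m.2.2])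
    (hm' : M.mulVec (C.mulVec ![0, 0, 1]) = ![m'.1, m'.2.1, m'.2.2]) : Alg C v m m' := by
  obtain ⟨v1, v2, v3⟩ := v
  obtain ⟨m1, m2, m3⟩ := m
  obtain ⟨n1, n2, n3⟩ := m'
  have c00 := hC.c00
  have c10 := hC.c10
  have c20 := hC.c20
  have cd := hC.adbc
  have a0 := congrFun hv 0
  have a1 := congrFun hv 1
  have a2 := congrFun hv 2
  have b0 := congrFun h1 0
  have b1 := congrFun h1 1
  have b2 := congrFun h1 2
  have d0 := congrFun hm 0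
  have d1 := congrFun hm 1
  have d2 := congrFun hm 2
  have f0 := congrFun h2 0
  have f1 := congrFun h2 1
  have f2 := congrFun h2 2
  have g0 := congrFun hm' 0
  have g1 := congrFun hm' 1
  have g2 := congrFun hm' 2
  simp [Matrix.mulVec, dotProduct, Fin.sum_univ_three] at a0 a1 a2 b0 b1 b2 d0 d1 d2 f0 f1 f2 g0 g1 g2
  rw [Matrix.det_fin_three] at hM
  rw [a0, a1, a2, b0, b1, b2, d0, d1, d2] at hM
  rw [a0, b0, d0] at f0 g0
  rw [a1, b1, d1] at f1 g1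
  rw [a2, b2, d2] at f2 g2
  have hu : v2 * m3 - m2 * v3 = 1 := by linarith
  have k1 : C 0 1 * v1 + C 1 1 + C 2 1 * m1 = 0 := by linarith
  have k2 : C 0 1 * v2 + C 2 1 * m2 = 1 := by linarith
  have k3 : C 0 1 * v3 + C 2 1 * m3 = 0 := by linarith
  have k4 : C 0 2 * v1 + C 1 2 + C 2 2 * m1 = n1 := by linarith
  have k5 : C 0 2 * v2 + C 2 2 * m2 = n2 := by linarith
  have k6 : C 0 2 * v3 + C 2 2 * m3 = n3 := by linarith
  have e1 : m3 = C 0 1 := by linear_combination (-m3) * k2 + m2 * k3 + C 0 1 * hu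
  have e2 : v3 = -C 2 1 := by linear_combination (-v3) * k2 + v2 * k3 - C 2 1 * hu
  refine ⟨c00, c10, c20, cd, hu, ?_, k1, k2, k3, k4, k5, k6⟩
  show v1 * n3 - n1 * v3 = -1
  rw [← k4, ← k6, e1, e2]
  linear_combination C 2 2 * k1 - cd

end Pool.Agent.CHO
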