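import Pool.Agent.CHO.ThL

/-!
# CHO/TbM: the chart of the binding   (difficulty 2)

`Tb D (θ, x₀, ζ) = E1t P (D.Wb (θ, ζ), x₀)`; `D.Wb (θ, ζ)` is in `zone (2 d₀) x₁ 0` for `‖ζ‖ < 5` (`b_zone`), so `Dm` (`zone_dm`, `x₁ < 1`).
* `Tb_per`: `b_per` and induction on the integer, `E1t_add_int`.
* `Tb_ld`: `(θ, x₀, ζ) ↦ ((θ, ζ), x₀)` is a linear isomorphism, `Wb × id` (`b_loc`, `RSG.ld_prodMap`), `E1t_ld`.
* `Tb_inj`: `E1t_inj`, `b_inj`.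
* `Tb_glue`: let `q = ε s ex (θ + k (t - 1/2))`, `|q| = ε s < 5 ε ≤ d₀`; `x = pt x₀ (im q) (re q)`; `Rr_disc` (`i = j = 0`, `a = -(k (t - 1/2))`):
  `Gt t x = pt x₀ (im (ex a * q)) (re (ex a * q))`, `ex a * q = ε s ex θ` (`ex_add`).  `b_glue`: `Wb (θ, s ex (t - 1/2)) = W (ε s im (ex θ), ε s re (ex θ), t)`.  For `t ≤ 1/2`: `Thu_lo`;
  for `t > 1/2`: `Thu_hi` and `E2t_zone` (`b_zone`, `‖s ex (..)‖ = s < 5`).
-/

open scoped Manifold ContDiff Topology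
open Complex (I normSq)

namespace Pool.Agent.CHO

open Pool.Agent.CSG (vec pt act stp)
open Pool.Agent.RSG (ex)
open Pool.Agent.PTH (SP ISP gact)
open Pool.Agent.CHW (F3 q2 rr mir cyl zone WD Gd OnB OnK)

variable {P : Pm} {ε : ℝ} (D : WD P.d₀ P.x₁ ε)

theorem TbM_adj (θ x : ℝ) (ζ : ℂ) : Tb D (θ, x, ζ) = E1t P (D.Wb (θ, ζ), x) := rfl

theorem TbM_perθ (θ : ℝ) (ζ : ℂ) (a : ℤ) : D.Wb (θ + a, ζ) = D.Wb (θ, ζ) := by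
  induction a using Int.induction_on with
  | zero => simp
  | succ k ih =>
    have h := D.b_per (θ + ((k : ℤ) : ℝ)) ζ
    rw [← ih, ← h]
    congr 2
    push_cast
    ring
  | pred k ih =>
    have h := D.b_per (θ + ((-(k : ℤ) - 1 : ℤ) : ℝ)) ζ
    rw [← ih, ← h]
    congr 2
    push_cast
    ring

theorem TbM_prodV {E F E' F' : Type*} [NormedAddCommGroup E] [NormedSpace ℝ E] [NormedAddCommGroup F] [NormedSpace ℝ F]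
    [NormedAddCommGroup E'] [NormedSpace ℝ E'] [NormedAddCommGroup F'] [NormedSpace ℝ F']
    {f : E → F} {g : E' → F'} {x : E} {y : E'}
    (hf : IsLocalDiffeomorphAt 𝓘(ℝ, E) 𝓘(ℝ, F) ∞ f x)
    (hg : IsLocalDiffeomorphAt 𝓘(ℝ, E') 𝓘(ℝ, F') ∞ g y) :
    IsLocalDiffeomorphAt 𝓘(ℝ, E × E') 𝓘(ℝ, F × F') ∞ (Prod.map f g) (x, y) := by
  rw [modelWithCornersSelf_prod, modelWithCornersSelf_prod, ← chartedSpaceSelf_prod,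
    ← chartedSpaceSelf_prod]
  exact Pool.Agent.RSG.ld_prodMap hf hg

theorem TbM_lin (q : ℝ × ℝ × ℂ) : IsLocalDiffeomorphAt 𝓘(ℝ, ℝ × ℝ × ℂ) 𝓘(ℝ, (ℝ × ℂ) × ℝ) ∞
    (fun q : ℝ × ℝ × ℂ => ((q.1, q.2.2), q.2.1)) q := by
  refine Pool.Agent.RSG.ld_two (g := fun r : (ℝ × ℂ) × ℝ => (r.1.1, r.2, r.1.2)) ?_ ?_ ?_ ?_
  · refine Filter.Eventually.of_forall fun y => ?_
    have h : ContDiff ℝ ∞ (fun q : ℝ × ℝ × ℂ => ((q.1, q.2.2), q.2.1)) := by fun_prop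
    exact h.contDiffAt.contMDiffAt
  · refine Filter.Eventually.of_forall fun y => ?_
    have h : ContDiff ℝ ∞ (fun r : (ℝ × ℂ) × ℝ => (r.1.1, r.2, r.1.2)) := by fun_prop
    exact h.contDiffAt.contMDiffAt
  · exact Filter.Eventually.of_forall fun y => rfl
  · exact Filter.Eventually.of_forall fun y => rfl

theorem Wb_dm (θ : ℝ) {ζ : ℂ} (h : ‖ζ‖ < 5) : Dm (D.Wb (θ, ζ)) := by
  have h1 := D.b_zone θ ζ h
  have h2 := D.x₁_lt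
  exact zone_dm (by linarith) h1

theorem Tb_per (θ x : ℝ) (ζ : ℂ) (a b : ℤ) : Tb D (θ + a, x + b, ζ) = Tb D (θ, x, ζ) := by
  rw [TbM_adj, TbM_adj, TbM_perθ]
  exact E1t_add_int P _ x b

theorem Tb_ld (hP : P.Ok) (θ x : ℝ) {ζ : ℂ} (h : ‖ζ‖ < 5) :
    IsLocalDiffeomorphAt 𝓘(ℝ, ℝ × ℝ × ℂ) ISP ∞ (Tb D) (θ, x, ζ) := by
  have h1 := TbM_lin (θ, x, ζ)
  have h2 : IsLocalDiffeomorphAt 𝓘(ℝ, (ℝ × ℂ) × ℝ) 𝓘(ℝ, F3 × ℝ) ∞ (Prod.map D.Wb (id : ℝ → ℝ)) ((θ, ζ), x) :=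
    TbM_prodV (D.b_loc θ ζ h) (Pool.Agent.CSG.ld_id (I := 𝓘(ℝ, ℝ)) (n := ∞) x)
  have h3 := E1t_ld hP (Wb_dm D θ h) x
  have h4 : IsLocalDiffeomorphAt 𝓘(ℝ, ℝ × ℝ × ℂ) 𝓘(ℝ, F3 × ℝ) ∞
      (Prod.map D.Wb (id : ℝ → ℝ) ∘ (fun q : ℝ × ℝ × ℂ => ((q.1, q.2.2), q.2.1))) (θ, x, ζ) :=
    IsLocalDiffeomorphAt.comp (hf := h1) (hg := h2) ..
  exact IsLocalDiffeomorphAt.comp (hf := h4) (hg := h3) ..

theorem Tb_inj (hP : P.Ok) {θ x : ℝ} {ζ : ℂ} {θ' x' : ℝ} {ζ' : ℂ} (h : ‖ζ‖ < 5) (h' : ‖ζ'‖ < 5)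
    (he : Tb D (θ, x, ζ) = Tb D (θ', x', ζ')) : (∃ a : ℤ, θ' = θ + a) ∧ (∃ b : ℤ, x' = x + b) ∧ ζ' = ζ := by
  rw [TbM_adj, TbM_adj] at he
  obtain ⟨⟨n, hn⟩, j, hj⟩ := E1t_inj hP (Wb_dm D θ h) (Wb_dm D θ' h') he
  obtain ⟨h1, h2, m, hm⟩ := D.b_inj θ' ζ' θ ζ n h' h hn
  refine ⟨⟨-m, ?_⟩, ⟨j, hj⟩, h2⟩
  rw [hm]
  push_cast
  ring

theorem Tb_glue (hP : P.Ok) {θ x t s : ℝ} (h0 : -(1 / 8) < t) (h1 : t < 9 / 8) (hs : 0 < s) (hs' : s < 5) :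
    Tb D (θ, x, s * ex (t - 1 / 2)) =
      Th D (pt x (ε * s * ex (θ + P.k * (t - 1 / 2))).im (ε * s * ex (θ + P.k * (t - 1 / 2))).re, t) := by
  have hd : 0 < P.d₀ := hP.d₀_pos
  have hd' : P.d₀ < 1 / 8 := hP.d₀_lt
  have hε := D.ε_pos
  have hε' := D.ε_le
  obtain ⟨b, hb⟩ : ∃ b : ℝ, b = P.k * (t - 1 / 2) := ⟨_, rfl⟩
  obtain ⟨q, hq⟩ : ∃ q : ℂ, q = ε * s * ex (θ + P.k * (t - 1 / 2)) := ⟨_, rfl⟩
  have hnq : ‖q‖ = ε * s := by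
    rw [hq, norm_mul, norm_mul, Pool.Agent.RSG.ex_norm, Complex.norm_real, Complex.norm_real, mul_one, Real.norm_eq_abs,
      Real.norm_eq_abs, abs_of_pos hε, abs_of_pos hs]
  have hsq : q.re ^ 2 + q.im ^ 2 = (ε * s) ^ 2 := by
    rw [← hnq, ← Complex.normSq_eq_norm_sq, Complex.normSq_apply]
    ring
  have hes : ε * s ≤ 2 * P.d₀ := by
    have h3 : ε * s ≤ ε * 5 := mul_le_mul_of_nonneg_left hs'.le hε.le
    linarith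
  have hx1 : (pt x q.im q.re) 1 = q.im := rfl
  have hx2 : (pt x q.im q.re) 2 = q.re := rfl
  have hx0 : (pt x q.im q.re) 0 = x := rfl
  have hle : ((pt x q.im q.re) 1 - ((0 : ℤ) : ℝ)) ^ 2 + ((pt x q.im q.re) 2 - ((0 : ℤ) : ℝ)) ^ 2 ≤ (2 * P.d₀) ^ 2 := by
    rw [hx1, hx2]
    push_cast
    rw [sub_zero, sub_zero, add_comm, hsq]
    exact pow_le_pow_left₀ (by positivity) hes 2
  have hG : Gt P t (pt x q.im q.re) = pt x (ε * s * ex θ).im (ε * s * ex θ).re := by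
    have h4 := Rr_disc hd hd' (-(P.k * (t - 1 / 2))) hle
    have h5 : (⟨(pt x q.im q.re) 2 - ((0 : ℤ) : ℝ), (pt x q.im q.re) 1 - ((0 : ℤ) : ℝ)⟩ : ℂ) = q := by
      rw [hx1, hx2]
      apply Complex.ext <;> simp
    have h6 : ex (-(P.k * (t - 1 / 2))) * q = ε * s * ex θ := by
      rw [hq, Pool.Agent.RSG.ex_add, Pool.Agent.RSG.ex_neg]
      have h7 := Pool.Agent.RSG.ex_mul_conj ((P.k : ℝ) * (t - 1 / 2))
      calc (starRingEnd ℂ) (ex ((P.k : ℝ) * (t - 1 / 2))) * (ε * s * (ex θ * ex ((P.k : ℝ) * (t - 1 / 2))))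
          = ε * s * ex θ * (ex ((P.k : ℝ) * (t - 1 / 2)) * (starRingEnd ℂ) (ex ((P.k : ℝ) * (t - 1 / 2)))) := by ring
        _ = ε * s * ex θ := by rw [h7, mul_one]
    rw [h5, h6, hx0] at h4
    show Rr P.d₀ (-(P.k * (t - 1 / 2))) (pt x q.im q.re) = _
    rw [h4]
    push_cast
    rw [zero_add, zero_add]
  have him : (ε * s * ex θ : ℂ).im = ε * s * (ex θ).im := by
    rw [← Complex.ofReal_mul, Complex.im_ofReal_mul]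
  have hre : (ε * s * ex θ : ℂ).re = ε * s * (ex θ).re := by
    rw [← Complex.ofReal_mul, Complex.re_ofReal_mul]
  have hW := D.b_glue θ s t hs hs'
  have hns : ‖(s : ℂ) * ex (t - 1 / 2)‖ < 5 := by
    rw [norm_mul, Pool.Agent.RSG.ex_norm, Complex.norm_real, mul_one, Real.norm_eq_abs, abs_of_pos hs]
    exact hs'
  rw [← hq]
  show E1t P (D.Wb (θ, s * ex (t - 1 / 2)), x) = Thu D (Gt P t (pt x q.im q.re), t)
  rw [hG, him, hre]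
  rcases le_or_gt t (1 / 2) with ht | ht
  · rw [Thu_lo D _ ht, hW]
    rfl
  · rw [Thu_hi D _ ht, ← E2t_zone hP (D.b_zone θ _ hns), hW]
    rfl

end Pool.Agent.CHO
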