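import Pool.Agent.CHO.CylM
import Pool.Agent.GLB.Psi
import Pool.Agent.RSG.ExM

/-!
# CHO/TrM: the transition between `E1` and `E2`   (difficulty 2-3)

* `E1_cE`: `x = cE y X`: `r = exp Y`, `w = exp Y √(1 - X²) ex u`, `r + h = exp Y (1 + X)`, and
  `(√(1 - X²), 1 + X) = √(1 + X) (√(1 - X), √(1 + X))` (`Real.sqrt_mul`), common factor `exp Y √(1 + X) > 0` (`GLB.pS3_smul`); the angles:
  `ex_add`.  `E2_cE`: `(1 + X, √(1 - X²))`, the same factor.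
* `PX_int`: `ex_add_int`, `GLB.circle_exp_add_int`.
* `PX_inj`: `GLB.pS3_inj`: `√(1 - X') ex α' = ρ √(1 - X) ex α`, `√(1 + X') ex β' = ρ √(1 + X) ex β`, `ρ > 0`; norms:
  `1 - X' = ρ² (1 - X)`, `1 + X' = ρ² (1 + X)`, so `ρ = 1`, `X = X'`; `ex_eq_iff`, `GLB.circle_exp_inj`.
* `Mv_C`: `Mv (C y') = Mw y'` by `Alg` (`act C y' = pt (..)`, `Fin.sum_univ_three`), `Mv (x + vec n) = Mv x + integers`.
* `E12_iff`: `E1_cE`, `E2_cE`, `PX_inj`, `PX_int`: `E1 (cE x X) = E2 (cE x' X')` iff `X = -X'` and `Mv x = Mw x' + (i, j, l) = Mv (C x') + (i, j, l)`;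
  `Mv` is linear and, as `v₂ m₃ - m₂ v₃ = 1`, `Mv (y) = (i, j, l)` integers iff `y = vec n` with
  `n 2 = v₂ l - v₃ j`, `n 0 = m₃ j - m₂ l`, `n 1 = i - n 0 v₁ - n 2 m₁`.
* `E12_cX`: `E1 (x, t) = E2 (x', t')`: by `GLB.pS3_inj`, `(r' + h') ex .. = ρ w ex ..`, `w' ex .. = ρ (r + h) ex ..`, so `w, w' ≠ 0`, and
  `(r' + h') / |w'| = |w| / (r + h)`; squares: `(r' + h') / (r' - h') = (r - h) / (r + h)`, so `h' / r' = - h / r`.
-/

open scoped Manifold ContDiff Topology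
open Complex (I normSq)

namespace Pool.Agent.CHO

open Pool.Agent.CSG (vec pt act stp)
open Pool.Agent.RSG (pS3 ex)
open Pool.Agent.PTH (SP ISP)
open Pool.Agent.CHW (F3 q2 rr mir cyl zone)

theorem TrM_nsq {X : ℝ} (h : |X| < 1) (α β : ℝ) :
    0 < ‖((Real.sqrt (1 - X) : ℝ) : ℂ) * ex α‖ ^ 2 + ‖((Real.sqrt (1 + X) : ℝ) : ℂ) * ex β‖ ^ 2 := by
  obtain ⟨h1, h2⟩ := abs_lt.1 h
  rw [norm_mul, norm_mul, RSG.ex_norm, RSG.ex_norm, mul_one, mul_one, Complex.norm_real,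
    Complex.norm_real, Real.norm_of_nonneg (Real.sqrt_nonneg _),
    Real.norm_of_nonneg (Real.sqrt_nonneg _), Real.sq_sqrt (by linarith), Real.sq_sqrt (by linarith)]
  linarith

theorem TrM_cyl (x : E3) {X : ℝ} (h : |X| < 1) :
    (cyl (x 1, x 2, X)).1 = ((Real.exp (x 2) * Real.sqrt (1 + X) : ℝ) : ℂ) *
      (((Real.sqrt (1 - X) : ℝ) : ℂ) * ex (x 1)) ∧
    rr (cyl (x 1, x 2, X)) + (cyl (x 1, x 2, X)).2 =
      (Real.exp (x 2) * Real.sqrt (1 + X)) * Real.sqrt (1 + X) ∧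
    Real.log (rr (cyl (x 1, x 2, X))) = x 2 := by
  obtain ⟨h1, h2⟩ := abs_lt.1 h
  have hr := rr_cyl (u := x 1) (Y := x 2) h.le
  refine ⟨?_, ?_, ?_⟩
  · show Real.exp (x 2) • (((Real.sqrt (1 - X ^ 2) : ℝ) : ℂ) * ex (x 1)) = _
    rw [show 1 - X ^ 2 = (1 + X) * (1 - X) by ring, Real.sqrt_mul (by linarith), Complex.real_smul]
    push_cast
    ring
  · rw [hr]
    show Real.exp (x 2) + Real.exp (x 2) * X = _
    rw [mul_assoc, Real.mul_self_sqrt (by linarith)]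
    ring
  · rw [hr, Real.log_exp]

theorem E1_cE (v m : Z3) (x : E3) {X : ℝ} (h : |X| < 1) : E1 v m (cE x X) = PX X (Mv v m x) := by
  obtain ⟨h1, h2⟩ := abs_lt.1 h
  obtain ⟨c1, c2, c3⟩ := TrM_cyl x h
  have hs : 0 < Real.exp (x 2) * Real.sqrt (1 + X) :=
    mul_pos (Real.exp_pos _) (Real.sqrt_pos.2 (by linarith))
  have hp := TrM_nsq h (Mv v m x).1 (Mv v m x).2.1
  unfold E1 cE PX
  simp only
  rw [c1, c2, c3, ← GLB.pS3_smul hs hp]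
  refine Prod.ext ?_ ?_
  · show pS3 _ _ = pS3 _ _
    congr 1
    · rw [mul_assoc, mul_assoc, ← RSG.ex_add]
      congr 3
      show x 1 + (x 2 * m.1 + x 0 * v.1) = x 0 * v.1 + x 1 + x 2 * m.1
      ring
    · rw [Complex.ofReal_mul, mul_assoc]
      congr 3
      show x 2 * m.2.1 + x 0 * v.2.1 = x 0 * v.2.1 + x 2 * m.2.1
      ring
  · show Circle.exp _ = Circle.exp _
    congr 2
    show x 2 * m.2.2 + x 0 * v.2.2 = x 0 * v.2.2 + x 2 * m.2.2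
    ring

theorem E2_cE (v m : Z3) (x : E3) {X : ℝ} (h : |X| < 1) : E2 v m (cE x X) = PX (-X) (Mw v m x) := by
  obtain ⟨h1, h2⟩ := abs_lt.1 h
  obtain ⟨c1, c2, c3⟩ := TrM_cyl x h
  have hs : 0 < Real.exp (x 2) * Real.sqrt (1 + X) :=
    mul_pos (Real.exp_pos _) (Real.sqrt_pos.2 (by linarith))
  have hp := TrM_nsq (X := -X) (by rwa [abs_neg]) (Mw v m x).1 (Mw v m x).2.1
  unfold E2 cE PX
  simp only
  rw [c1, c2, c3, ← GLB.pS3_smul hs hp]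
  have e1 : 1 - -X = 1 + X := by ring
  have e2 : 1 + -X = 1 - X := by ring
  rw [e1, e2]
  refine Prod.ext ?_ ?_
  · show pS3 _ _ = pS3 _ _
    congr 1
    · rw [Complex.ofReal_mul, mul_assoc]
      congr 3
      show x 2 * m.1 + x 0 * v.1 = x 0 * v.1 + x 2 * m.1
      ring
    · rw [mul_assoc, mul_assoc, ← RSG.ex_add]
      congr 3
      show x 1 + (x 2 * m.2.1 + x 0 * v.2.1) = x 0 * v.2.1 + x 1 + x 2 * m.2.1
      ring
  · show Circle.exp _ = Circle.exp _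
    congr 2
    show x 2 * m.2.2 + x 0 * v.2.2 = x 0 * v.2.2 + x 2 * m.2.2
    ring

theorem PX_int (X : ℝ) (a : ℝ × ℝ × ℝ) (i j l : ℤ) : PX X (a.1 + i, a.2.1 + j, a.2.2 + l) = PX X a := by
  unfold PX
  simp only
  rw [RSG.ex_add_int, RSG.ex_add_int, GLB.circle_exp_add_int]

theorem PX_inj {X X' : ℝ} (h : |X| < 1) (h' : |X'| < 1) {a a' : ℝ × ℝ × ℝ} (he : PX X a = PX X' a') :
    X = X' ∧ ∃ i j l : ℤ, a' = (a.1 + i, a.2.1 + j, a.2.2 + l) := by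
  obtain ⟨h1, h2⟩ := abs_lt.1 h
  obtain ⟨h1', h2'⟩ := abs_lt.1 h'
  have he1 := congrArg Prod.fst he
  have he2 := congrArg Prod.snd he
  unfold PX at he1 he2
  simp only at he1 he2
  obtain ⟨ρ, hρ, e1, e2⟩ := GLB.pS3_inj (TrM_nsq h _ _) (TrM_nsq h' _ _) he1
  have s1 : 0 < Real.sqrt (1 - X) := Real.sqrt_pos.2 (by linarith)
  have s2 : 0 < Real.sqrt (1 + X) := Real.sqrt_pos.2 (by linarith)
  have s1' : 0 < Real.sqrt (1 - X') := Real.sqrt_pos.2 (by linarith)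
  have s2' : 0 < Real.sqrt (1 + X') := Real.sqrt_pos.2 (by linarith)
  rw [← mul_assoc, ← Complex.ofReal_mul] at e1 e2
  obtain ⟨f1, i, f2⟩ := RSG.ex_polar (mul_pos hρ s1) s1' e1.symm
  obtain ⟨g1, j, g2⟩ := RSG.ex_polar (mul_pos hρ s2) s2' e2.symm
  obtain ⟨l, hl⟩ := GLB.circle_exp_inj he2
  refine ⟨?_, i, j, l, Prod.ext f2 (Prod.ext g2 hl)⟩
  have f3 : (ρ * Real.sqrt (1 - X)) ^ 2 = Real.sqrt (1 - X') ^ 2 := by rw [f1]
  have g3 : (ρ * Real.sqrt (1 + X)) ^ 2 = Real.sqrt (1 + X') ^ 2 := by rw [g1]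
  rw [mul_pow, Real.sq_sqrt (by linarith), Real.sq_sqrt (by linarith)] at f3 g3
  have h5 : ρ ^ 2 = 1 := by linarith
  rw [h5] at f3
  linarith

theorem TrM_act (C : Matrix (Fin 3) (Fin 3) ℤ) (x : E3) (i : Fin 3) :
    act C x i = (C i 0 : ℝ) * x 0 + (C i 1 : ℝ) * x 1 + (C i 2 : ℝ) * x 2 := by
  show ∑ j, (C i j : ℝ) * x j = _
  rw [Fin.sum_univ_three]

theorem Mv_C {C : Matrix (Fin 3) (Fin 3) ℤ} {v m m' : Z3} (hA : Alg C v m m') (x : E3) :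
    Mv v m (act C x) = Mw v m' x := by
  have a1 : (C 0 0 : ℝ) = 1 := by exact_mod_cast hA.c00
  have a2 : (C 1 0 : ℝ) = 0 := by exact_mod_cast hA.c10
  have a3 : (C 2 0 : ℝ) = 0 := by exact_mod_cast hA.c20
  have b1 : (C 0 1 : ℝ) * v.1 + C 1 1 + C 2 1 * m.1 = 0 := by exact_mod_cast hA.e1x
  have b2 : (C 0 1 : ℝ) * v.2.1 + C 2 1 * m.2.1 = 1 := by exact_mod_cast hA.e1y
  have b3 : (C 0 1 : ℝ) * v.2.2 + C 2 1 * m.2.2 = 0 := by exact_mod_cast hA.e1z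
  have d1 : (C 0 2 : ℝ) * v.1 + C 1 2 + C 2 2 * m.1 = m'.1 := by exact_mod_cast hA.e2x
  have d2 : (C 0 2 : ℝ) * v.2.1 + C 2 2 * m.2.1 = m'.2.1 := by exact_mod_cast hA.e2y
  have d3 : (C 0 2 : ℝ) * v.2.2 + C 2 2 * m.2.2 = m'.2.2 := by exact_mod_cast hA.e2z
  unfold Mv Mw
  rw [TrM_act, TrM_act, TrM_act]
  refine Prod.ext ?_ (Prod.ext ?_ ?_)
  · show ((C 0 0 : ℝ) * x 0 + C 0 1 * x 1 + C 0 2 * x 2) * v.1 +
      ((C 1 0 : ℝ) * x 0 + C 1 1 * x 1 + C 1 2 * x 2) +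
      ((C 2 0 : ℝ) * x 0 + C 2 1 * x 1 + C 2 2 * x 2) * m.1 = x 0 * v.1 + x 2 * m'.1
    linear_combination (x 0 * v.1) * a1 + x 0 * a2 + (x 0 * m.1) * a3 + x 1 * b1 + x 2 * d1
  · show ((C 0 0 : ℝ) * x 0 + C 0 1 * x 1 + C 0 2 * x 2) * v.2.1 +
      ((C 2 0 : ℝ) * x 0 + C 2 1 * x 1 + C 2 2 * x 2) * m.2.1 = x 0 * v.2.1 + x 1 + x 2 * m'.2.1
    linear_combination (x 0 * v.2.1) * a1 + (x 0 * m.2.1) * a3 + x 1 * b2 + x 2 * d2
  · show ((C 0 0 : ℝ) * x 0 + C 0 1 * x 1 + C 0 2 * x 2) * v.2.2 +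
      ((C 2 0 : ℝ) * x 0 + C 2 1 * x 1 + C 2 2 * x 2) * m.2.2 = x 0 * v.2.2 + x 2 * m'.2.2
    linear_combination (x 0 * v.2.2) * a1 + (x 0 * m.2.2) * a3 + x 1 * b3 + x 2 * d3

theorem TrM_add (v m : Z3) (y : E3) (n : Fin 3 → ℤ) :
    Mv v m (y + vec n) = ((Mv v m y).1 + ((n 0 * v.1 + n 1 + n 2 * m.1 : ℤ) : ℝ),
      (Mv v m y).2.1 + ((n 0 * v.2.1 + n 2 * m.2.1 : ℤ) : ℝ),
      (Mv v m y).2.2 + ((n 0 * v.2.2 + n 2 * m.2.2 : ℤ) : ℝ)) := by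
  have e : ∀ i, (y + vec n) i = y i + n i := fun i => rfl
  unfold Mv
  rw [e, e, e]
  push_cast
  refine Prod.ext ?_ (Prod.ext ?_ ?_)
  · simp only
    ring
  · simp only
    ring
  · simp only
    ring

theorem E12_iff {C : Matrix (Fin 3) (Fin 3) ℤ} {v m m' : Z3} (hA : Alg C v m m') {x x' : E3} {X X' : ℝ}
    (h : |X| < 1) (h' : |X'| < 1) :
    E1 v m (cE x X) = E2 v m' (cE x' X') ↔ X' = -X ∧ ∃ n : Fin 3 → ℤ, x = act C x' + vec n := by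
  rw [E1_cE v m x h, E2_cE v m' x' h', ← Mv_C hA]
  constructor
  · intro he
    obtain ⟨h1, i, j, l, h2⟩ := PX_inj h (by rwa [abs_neg]) he
    refine ⟨by rw [h1, neg_neg], ?_⟩
    generalize act C x' = y at h2
    have u : (v.2.1 : ℝ) * m.2.2 - m.2.1 * v.2.2 = 1 := by exact_mod_cast hA.uni
    have k1 : y 0 * v.1 + y 1 + y 2 * m.1 = x 0 * v.1 + x 1 + x 2 * m.1 + i := congrArg Prod.fst h2
    have k2 : y 0 * v.2.1 + y 2 * m.2.1 = x 0 * v.2.1 + x 2 * m.2.1 + j :=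
      congrArg (fun q => q.2.1) h2
    have k3 : y 0 * v.2.2 + y 2 * m.2.2 = x 0 * v.2.2 + x 2 * m.2.2 + l :=
      congrArg (fun q => q.2.2) h2
    have z0 : x 0 = y 0 + ((-(m.2.2 * j - m.2.1 * l) : ℤ) : ℝ) := by
      push_cast
      linear_combination (-x 0 + y 0) * u - m.2.2 * k2 + m.2.1 * k3
    have z2 : x 2 = y 2 + ((-(v.2.1 * l - v.2.2 * j) : ℤ) : ℝ) := by
      push_cast
      linear_combination (-x 2 + y 2) * u - v.2.1 * k3 + v.2.2 * k2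
    have z1 : x 1 = y 1 + ((-i + (m.2.2 * j - m.2.1 * l) * v.1 + (v.2.1 * l - v.2.2 * j) * m.1 : ℤ) : ℝ) := by
      push_cast
      push_cast at z0 z2
      linear_combination -k1 - v.1 * z0 - m.1 * z2
    refine ⟨![-(m.2.2 * j - m.2.1 * l), -i + (m.2.2 * j - m.2.1 * l) * v.1 + (v.2.1 * l - v.2.2 * j) * m.1,
      -(v.2.1 * l - v.2.2 * j)], ?_⟩
    ext k
    fin_cases k
    · exact z0
    · exact z1
    · exact z2
  · rintro ⟨h1, n, h2⟩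
    rw [h1, neg_neg, h2, TrM_add, PX_int]

theorem TrM_rr (x : F3) : rr x ^ 2 = ‖x.1‖ ^ 2 + x.2 ^ 2 := by
  have h0 : 0 ≤ q2 x := add_nonneg (Complex.normSq_nonneg _) (sq_nonneg _)
  unfold rr
  rw [Real.sq_sqrt h0]
  unfold q2
  rw [Complex.normSq_eq_norm_sq]

theorem E12_cX {v m m' : Z3} {x x' : F3} (hx : Dm x) (hx' : Dm x') {t t' : ℝ}
    (he : E1 v m (x, t) = E2 v m' (x', t')) : |cX x| < 1 ∧ cX x' = -cX x := by
  have he1 := congrArg Prod.fst he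
  unfold E1 E2 at he1
  simp only at he1
  have hD : 0 < rr x + x.2 := hx
  have hD' : 0 < rr x' + x'.2 := hx'
  have p1 : ∀ α β : ℝ, 0 < ‖x.1 * ex α‖ ^ 2 + ‖((rr x + x.2 : ℝ) : ℂ) * ex β‖ ^ 2 := by
    intro α β
    rw [norm_mul, norm_mul, RSG.ex_norm, RSG.ex_norm, mul_one, mul_one, Complex.norm_real,
      Real.norm_of_nonneg hD.le]
    positivity
  have p2 : ∀ α β : ℝ, 0 < ‖((rr x' + x'.2 : ℝ) : ℂ) * ex α‖ ^ 2 + ‖x'.1 * ex β‖ ^ 2 := by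
    intro α β
    rw [norm_mul, norm_mul, RSG.ex_norm, RSG.ex_norm, mul_one, mul_one, Complex.norm_real,
      Real.norm_of_nonneg hD'.le]
    positivity
  obtain ⟨ρ, hρ, e1, e2⟩ := GLB.pS3_inj (p1 _ _) (p2 _ _) he1
  have n1 := congrArg norm e1
  have n2 := congrArg norm e2
  simp only [norm_mul, RSG.ex_norm, mul_one, Complex.norm_real, Real.norm_of_nonneg hD.le,
    Real.norm_of_nonneg hD'.le, Real.norm_of_nonneg hρ.le] at n1 n2
  have r1 := TrM_rr x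
  have r2 := TrM_rr x'
  have hr : 0 < rr x := rr_pos.2 (dm_ne hx)
  have hr' : 0 < rr x' := rr_pos.2 (dm_ne hx')
  have hw : 0 < ‖x.1‖ := by
    by_contra hcon
    have h1 : ‖x.1‖ = 0 := le_antisymm (not_lt.1 hcon) (norm_nonneg _)
    rw [h1, mul_zero] at n1
    linarith
  unfold cX
  constructor
  · rw [abs_div, abs_of_pos hr, div_lt_one hr]
    refine abs_lt_of_sq_lt_sq ?_ hr.le
    rw [r1]
    have : 0 < ‖x.1‖ ^ 2 := by positivity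
    linarith
  · -- `(r' + h') (r + h) = (r - h) (r' - h')`
    generalize rr x = r at *
    generalize rr x' = r' at *
    generalize x.2 = h at *
    generalize x'.2 = h' at *
    generalize ‖x.1‖ = w at *
    generalize ‖x'.1‖ = w' at *
    have k1 : (r' + h') ^ 2 * (r + h) = (r - h) * (r' - h') * (r' + h') := by
      have k2 : (r' - h') * (r' + h') = ρ ^ 2 * (r + h) ^ 2 := by
        have : w' ^ 2 = ρ ^ 2 * (r + h) ^ 2 := by rw [n2]; ring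
        linear_combination r2 + this
      have k3 : (r' + h') ^ 2 = ρ ^ 2 * ((r - h) * (r + h)) := by
        rw [n1]
        linear_combination (-ρ ^ 2) * r1
      rw [k3, mul_assoc (r - h), k2]
      ring
    have k4 : (r' + h') * ((r' + h') * (r + h) - (r - h) * (r' - h')) = 0 := by
      linear_combination k1
    have k5 : (r' + h') * (r + h) - (r - h) * (r' - h') = 0 :=
      (mul_eq_zero.1 k4).resolve_left hD'.ne'
    rw [← neg_div, div_eq_div_iff hr'.ne' hr.ne']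
    linear_combination k5 / 2

end Pool.Agent.CHO
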