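import Pool.Agent.CHO.E2M
import Pool.Agent.CHO.TrM

/-!
# CHO/CvM: `E1` and `E2` cover `S3 × S1`   (difficulty 2)

Let `p = (y, c)`, `a = z1 y`, `b = z2 y`, `‖a‖² + ‖b‖² = 1` (`GLB.z_sq`), `c = exp (2πiγ)`.
* `E1_surj`: `b ≠ 0`: let `σ = a / ‖b‖`, `b = ‖b‖ ex β` (`RSG.ex_arg`); then `p = Psi (σ, β, γ)` (`GLB.pS3_smul`, `pS3_z`), and
  `(σ, β, γ) = Tm v m (q)` for `q = ((σ ex (-(Y m₁ + τ v₁)), Y), τ)` with `Y = e (v₂ γ - v₃ β)`, `τ = e (m₃ β - m₂ γ)`; so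
  `p = E1 (Si q.1, τ)` (`E1_eq`, `Sx_Si`, `Si_dm`).  Moreover `cX (Si (σ, Y)) = (1 - ‖σ‖²) / (1 + ‖σ‖²) = ‖b‖² - ‖a‖²`.
* if `‖a‖ ≤ ‖b‖` this gives `cX ≥ 0`.  If `‖b‖ ≤ ‖a‖` use `E2_eq` and `Ssw` (`Ssw p` has `‖z2‖ = ‖a‖ ≥ ‖z1‖`, `Ssw_Ssw`).
-/

open scoped Manifold ContDiff Topology
open Complex (I normSq)

namespace Pool.Agent.CHO

open Pool.Agent.RSG (pS3 ex)
open Pool.Agent.PTH (SP ISP z1 z2)
open Pool.Agent.CHW (F3 q2 rr mir cyl zone)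

open Pool.Agent.GLB (Psi Ssw swv)

theorem CvM_circle (c : Circle) : Circle.exp (2 * Real.pi * (Complex.arg (c : ℂ) / (2 * Real.pi))) = c := by
  have e : 2 * Real.pi * (Complex.arg (c : ℂ) / (2 * Real.pi)) = Complex.arg (c : ℂ) := by
    field_simp
  rw [e]
  exact Circle.exp_arg c

theorem E1_surj {v m : Z3} (h : v.2.1 * m.2.2 - m.2.1 * v.2.2 = 1 ∨ v.2.1 * m.2.2 - m.2.1 * v.2.2 = -1) (p : SP)
    (hp : ‖z1 p.1‖ ≤ ‖z2 p.1‖) : ∃ (x : F3) (t : ℝ), x ≠ 0 ∧ 0 ≤ x.2 ∧ p = E1 v m (x, t) := by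
  obtain ⟨y, c⟩ := p
  have hp : ‖z1 y‖ ≤ ‖z2 y‖ := hp
  have hsq := Pool.Agent.GLB.z_sq y
  have hb : 0 < ‖z2 y‖ := by
    rcases (norm_nonneg (z2 y)).eq_or_lt with h0 | h0
    · rw [← h0] at hp hsq
      have h1 : ‖z1 y‖ = 0 := le_antisymm hp (norm_nonneg _)
      rw [h1] at hsq
      norm_num at hsq
    · exact h0
  obtain ⟨β, hβ⟩ : ∃ β : ℝ, ((‖z2 y‖ : ℝ) : ℂ) * ex β = z2 y := ⟨_, Pool.Agent.RSG.ex_arg⟩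
  obtain ⟨γ, hγ⟩ : ∃ γ : ℝ, Circle.exp (2 * Real.pi * γ) = c := ⟨_, CvM_circle c⟩
  obtain ⟨e, he, he2⟩ : ∃ e : ℝ, (v.2.1 : ℝ) * m.2.2 - m.2.1 * v.2.2 = e ∧ e * e = 1 := by
    rcases h with h | h
    · refine ⟨1, ?_, by norm_num⟩
      exact_mod_cast h
    · refine ⟨-1, ?_, by norm_num⟩
      exact_mod_cast h
  obtain ⟨Y, hY⟩ : ∃ Y : ℝ, Y = e * (v.2.1 * γ - v.2.2 * β) := ⟨_, rfl⟩
  obtain ⟨τ, hτ⟩ : ∃ τ : ℝ, τ = e * (m.2.2 * β - m.2.1 * γ) := ⟨_, rfl⟩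
  have k1 : Y * m.2.1 + τ * v.2.1 = β := by
    rw [hY, hτ]
    calc e * (v.2.1 * γ - v.2.2 * β) * m.2.1 + e * (m.2.2 * β - m.2.1 * γ) * v.2.1
        = e * ((v.2.1 : ℝ) * m.2.2 - m.2.1 * v.2.2) * β := by ring
      _ = β := by rw [he, he2, one_mul]
  have k2 : Y * m.2.2 + τ * v.2.2 = γ := by
    rw [hY, hτ]
    calc e * (v.2.1 * γ - v.2.2 * β) * m.2.2 + e * (m.2.2 * β - m.2.1 * γ) * v.2.2
        = e * ((v.2.1 : ℝ) * m.2.2 - m.2.1 * v.2.2) * γ := by ring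
      _ = γ := by rw [he, he2, one_mul]
  obtain ⟨σ, hσ⟩ : ∃ σ : ℂ, σ = z1 y / ((‖z2 y‖ : ℝ) : ℂ) * ex (-(Y * m.1 + τ * v.1)) := ⟨_, rfl⟩
  have hbc : ((‖z2 y‖ : ℝ) : ℂ) ≠ 0 := by exact_mod_cast hb.ne'
  have hσn : ‖σ‖ ≤ 1 := by
    rw [hσ, norm_mul, norm_div, Pool.Agent.RSG.ex_norm, mul_one, Complex.norm_real,
      Real.norm_of_nonneg hb.le, div_le_one hb]
    exact hp
  refine ⟨Si (σ, Y), τ, dm_ne (Si_dm _), ?_, ?_⟩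
  · show 0 ≤ Real.exp Y * ((1 - normSq σ) / (1 + normSq σ))
    have h1 : normSq σ ≤ 1 := by
      rw [Complex.normSq_eq_norm_sq]
      have := norm_nonneg σ
      nlinarith
    have h2 := Complex.normSq_nonneg σ
    have h3 := Real.exp_pos Y
    have h4 : 0 ≤ 1 - normSq σ := by linarith
    positivity
  · rw [E1_eq v m (Si_dm _), Sx_Si]
    have e1 : Tm v m ((σ, Y), τ) = (z1 y / ((‖z2 y‖ : ℝ) : ℂ), β, γ) := by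
      unfold Tm
      refine Prod.ext ?_ (Prod.ext k1 k2)
      show σ * ex (Y * m.1 + τ * v.1) = z1 y / ((‖z2 y‖ : ℝ) : ℂ)
      rw [hσ, mul_assoc, ← Pool.Agent.RSG.ex_add, neg_add_cancel, Pool.Agent.RSG.ex_zero, mul_one]
    rw [e1]
    unfold Pool.Agent.GLB.Psi
    refine Prod.ext ?_ hγ.symm
    show y = pS3 (z1 y / ((‖z2 y‖ : ℝ) : ℂ)) (ex β)
    have e2 : 0 < ‖z1 y / ((‖z2 y‖ : ℝ) : ℂ)‖ ^ 2 + ‖ex β‖ ^ 2 := by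
      rw [Pool.Agent.RSG.ex_norm]
      positivity
    rw [← Pool.Agent.GLB.pS3_smul hb e2, hβ, mul_div_cancel₀ _ hbc]
    exact (Pool.Agent.GLB.pS3_z y).symm

theorem E12_cover {v m m' : Z3} (h : v.2.1 * m.2.2 - m.2.1 * v.2.2 = 1 ∨ v.2.1 * m.2.2 - m.2.1 * v.2.2 = -1)
    (h' : v.1 * m'.2.2 - m'.1 * v.2.2 = 1 ∨ v.1 * m'.2.2 - m'.1 * v.2.2 = -1) (p : SP) :
    ∃ (x : F3) (t : ℝ), x ≠ 0 ∧ 0 ≤ x.2 ∧ (p = E1 v m (x, t) ∨ p = E2 v m' (x, t)) := by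
  rcases le_total ‖z1 p.1‖ ‖z2 p.1‖ with hp | hp
  · obtain ⟨x, t, h1, h2, h3⟩ := E1_surj h p hp
    exact ⟨x, t, h1, h2, Or.inl h3⟩
  · have hz : ‖z2 p.1‖ ^ 2 + ‖z1 p.1‖ ^ 2 = 1 := by
      rw [add_comm]
      exact Pool.Agent.GLB.z_sq p.1
    have hs := Pool.Agent.GLB.Swp_z hz
    obtain ⟨x, t, h1, h2, h3⟩ := E1_surj (v := swv v) (m := swv m') h' (Ssw p) (by
      show ‖z1 (pS3 (z2 p.1) (z1 p.1))‖ ≤ ‖z2 (pS3 (z2 p.1) (z1 p.1))‖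
      rw [hs.1, hs.2]
      exact hp)
    refine ⟨x, t, h1, h2, Or.inr ?_⟩
    rw [E2_eq v m' (dm_of_nonneg h1 h2), ← h3, Pool.Agent.GLB.Ssw_Ssw]

end Pool.Agent.CHO
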