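import Pool.Agent.CHO.E2tM
import Pool.Agent.CHO.CvM

/-!
# CHO/E12t: the charts `E1t` and `E2t` together   (difficulty 2-3)

* `E12t_cX`: `E12_cX` for `x` and `(Ga p').1` (`Ga_dm`, `Ga_cX`).
* `E12t_ht`: `cX x' = -cX x`, `cX_sign` (`dm_ne`).
* `act_kap`: near the axis: let `i = round (x 1)`, `j = round (x 2)` and `m = ![0, i, j]`, `x = y + vec m`, `|y 1| < δ`, `|y 2| < δ` (`dl x = (y 1)² + (y 2)²`,
  `dl_round`); `κ 1 x = κ 1 y + vec m` (`KapOK.lat`), `act C` is additive and `act C (vec m) = vec (C m)` (`CSG` has it, e.g. the field `lat` of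
  `Mono`, or direct: `Matrix.mulVec`, `dotProduct`), `KapOK.axis`: `act C (κ 1 y) = y`.  So `act C (κ 1 x) = y + vec (C m) = x + vec (C m - m)`.
* `E2t_col`: `|X| < x₁ < 1`: `E2t (cE x (-X)) = E2 (cE (Gam (-X) x) (-X))` (`Ga_cE`), `Gam (-X) x = κ 1 (Rr k x)` (`Gam_near`, `-X < x₁`); `E12_iff` (with
  `n = 0`) gives `E1 (cE (act C y) X) = E2 (cE y (-X))`.
* `E2t_zone`: `x = cyl (u, Y, X)`, `mir x = cyl (u, Y, -X)`, `(mir x, t) = cE (pt t u Y) (-X)`; `dl (pt t u Y) ≤ u² + (Y - n)² < (2d₀)²` (`dl_le`), so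
  `Rr k = id` (`Rr_int`), `E2t_col`, `act_kap` (`(2 d₀)² < δ²`): the point is `E1t (cE (pt t u Y + vec m) X)`, and `cE_add_vec`, `E1t_smul`,
  `E1t_add_int`, `dm_cyl` give `E1t (cE (pt t u Y) X) = E1t (x, t)`.
* `E12t_cover`: `E12_cover`; if `p = E2 (x, t)`, then `(x, t) = Ga p'` with `cX p'.1 = cX x ≥ 0` (`Ga_surj`, `dm_of_nonneg`, `cX_sign`).
-/

open scoped Manifold ContDiff Topology
open Complex (I normSq)

namespace Pool.Agent.CHO

open Pool.Agent.CSG (vec pt act stp)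
open Pool.Agent.RSG (pS3 ex)
open Pool.Agent.PTH (SP ISP gact)
open Pool.Agent.CHW (F3 q2 rr mir cyl zone)

variable {P : Pm}

theorem E12t_cX {x x' : F3} (hx : Dm x) (hx' : Dm x') {t t' : ℝ} (he : E1t P (x, t) = E2t P (x', t')) :
    |cX x| < 1 ∧ cX x' = -cX x := by
  have h1 : Dm (Ga P (x', t')).1 := Ga_dm (p := (x', t')) hx'
  have h2 : E1 P.v P.m (x, t) = E2 P.v P.m' ((Ga P (x', t')).1, (Ga P (x', t')).2) := he
  have h3 := E12_cX hx h1 h2
  have h4 : cX (Ga P (x', t')).1 = cX x' := Ga_cX (p := (x', t'))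
  rw [h4] at h3
  exact h3

theorem E12t_ht {x x' : F3} (hx : Dm x) (hx' : Dm x') (h : 0 ≤ x.2) (h' : 0 ≤ x'.2) {t t' : ℝ}
    (he : E1t P (x, t) = E2t P (x', t')) : x.2 = 0 ∧ x'.2 = 0 := by
  obtain ⟨_, h1⟩ := E12t_cX hx hx' he
  obtain ⟨a1, a2, a3⟩ := cX_sign (dm_ne hx)
  obtain ⟨b1, b2, b3⟩ := cX_sign (dm_ne hx')
  have ha : 0 ≤ cX x := by
    by_contra hc
    push Not at hc
    exact absurd (a2.1 hc) (not_lt.2 h)
  have hb : 0 ≤ cX x' := by
    by_contra hc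
    push Not at hc
    exact absurd (b2.1 hc) (not_lt.2 h')
  constructor
  · exact a3.1 (by linarith)
  · exact b3.1 (by linarith)

theorem E12t_act_add (A : Matrix (Fin 3) (Fin 3) ℤ) (x y : E3) : act A (x + y) = act A x + act A y := by
  ext i
  simp only [act, Fin.sum_univ_three, PiLp.add_apply]
  ring

theorem E12t_vec_add (a b : Fin 3 → ℤ) : vec (a + b) = vec a + vec b := by
  ext i
  simp [vec]

theorem act_kap (hP : P.Ok) {x : E3} (h : dl x < P.δ ^ 2) :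
    ∃ m : Fin 3 → ℤ, act P.C (P.κ 1 x) = x + vec m := by
  have hδ := hP.kap.pos
  set i := round (x 1)
  set j := round (x 2)
  have hy1 : (x + vec ![0, -i, -j]) 1 = x 1 - i := by
    simp [vec]
    ring
  have hy2 : (x + vec ![0, -i, -j]) 2 = x 2 - j := by
    simp [vec]
    ring
  rw [dl_round] at h
  have h1 : |(x + vec ![0, -i, -j]) 1| < P.δ := by
    rw [hy1]
    apply abs_lt_of_sq_lt_sq _ hδ.le
    nlinarith [sq_nonneg (x 2 - round (x 2))]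
  have h2 : |(x + vec ![0, -i, -j]) 2| < P.δ := by
    rw [hy2]
    apply abs_lt_of_sq_lt_sq _ hδ.le
    nlinarith [sq_nonneg (x 1 - round (x 1))]
  have h3 := hP.kap.axis _ h1 h2
  have h4 : P.κ 1 (x + vec ![0, -i, -j]) = P.κ 1 x + vec ![0, -i, -j] := hP.kap.lat _ _ _
  rw [h4, E12t_act_add, CSG.act_vec] at h3
  refine ⟨![0, -i, -j] - P.C.mulVec ![0, -i, -j], ?_⟩
  have h5 : vec (![0, -i, -j] - P.C.mulVec ![0, -i, -j]) + vec (P.C.mulVec ![0, -i, -j]) = vec ![0, -i, -j] := by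
    rw [← E12t_vec_add, sub_add_cancel]
  have h6 : act P.C (P.κ 1 x) + vec (P.C.mulVec ![0, -i, -j]) =
      (x + vec (![0, -i, -j] - P.C.mulVec ![0, -i, -j])) + vec (P.C.mulVec ![0, -i, -j]) := by
    rw [h3, add_assoc, h5]
  exact add_right_cancel h6

theorem E2t_col (hP : P.Ok) (x : E3) {X : ℝ} (h : |X| < P.x₁) :
    E2t P (cE x (-X)) = E1t P (cE (act P.C (P.κ 1 (Rr P.d₀ P.k x))) X) := by
  have hx := hP.x₁_lt
  have h1 : |X| < 1 := by linarith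
  have h2 : |-X| < 1 := by rwa [abs_neg]
  have h3 : -X ≤ P.x₁ := by
    have := neg_abs_le X
    linarith
  unfold E2t E1t
  rw [Ga_cE hP x h2, Gam_near hP h3]
  exact ((E12_iff hP.alg h1 h2).2 ⟨rfl, 0, by
    ext i
    simp [vec]⟩).symm

theorem E2t_zone (hP : P.Ok) {x : F3} {n : ℤ} (h : x ∈ zone (2 * P.d₀) P.x₁ n) (t : ℝ) :
    E2t P (mir x, t) = E1t P (x, t) := by
  obtain ⟨u, Y, X, huY, hX, rfl⟩ := h
  have hx := hP.x₁_lt
  have hd := hP.d₀_pos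
  have hdδ := hP.hd
  have h1 : |X| < 1 := by linarith
  rw [mir_cyl]
  have e1 : (cyl (u, Y, -X), t) = cE (pt t u Y) (-X) := by
    simp [cE]
  have e2 : (cyl (u, Y, X), t) = cE (pt t u Y) X := by
    simp [cE]
  have hdl : dl (pt t u Y) < (2 * P.d₀) ^ 2 := by
    have h2 := dl_le (pt t u Y) 0 n
    simp at h2
    linarith
  have hdl' : dl (pt t u Y) < P.δ ^ 2 := by
    have : (2 * P.d₀) ^ 2 < P.δ ^ 2 := by
      apply pow_lt_pow_left₀ _ (by positivity) two_ne_zero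
      linarith
    linarith
  rw [e1, E2t_col hP _ hX, Rr_int hd _ hdl.le]
  obtain ⟨m, hm⟩ := act_kap hP hdl'
  rw [hm, cE_add_vec, e2]
  have hdm : Dm (cE (pt t u Y) X).1 := by
    rw [← e2]
    exact dm_cyl h1
  have h5 := E1t_smul P hdm ((cE (pt t u Y) X).2 + m 0) (m 2)
  rw [h5, E1t_add_int]

theorem E12t_cover (hP : P.Ok) (p : SP) :
    ∃ (x : F3) (t : ℝ), x ≠ 0 ∧ 0 ≤ x.2 ∧ (p = E1t P (x, t) ∨ p = E2t P (x, t)) := by
  obtain ⟨x, t, hx, hx2, hp⟩ := E12_cover (Or.inl hP.alg.uni) (Or.inr hP.alg.uni') p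
  rcases hp with hp | hp
  · exact ⟨x, t, hx, hx2, Or.inl hp⟩
  · obtain ⟨p', hdm, hc, hG⟩ := Ga_surj hP (p := (x, t)) (dm_of_nonneg hx hx2)
    refine ⟨p'.1, p'.2, dm_ne hdm, ?_, Or.inr ?_⟩
    · by_contra hneg
      push Not at hneg
      have h1 := (cX_sign (dm_ne hdm)).2.1.2 hneg
      rw [hc] at h1
      have h2 := (cX_sign hx).2.1.1 h1
      linarith
    · rw [hp]
      show _ = E2 P.v P.m' (Ga P p')
      rw [hG]

end Pool.Agent.CHO
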