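import Pool.Agent.CHO.GmM
import Pool.Agent.CHO.E12t

/-!
# CHO/K0M: the monodromy `κ₀ = act C ∘ κ 1`   (difficulty 2)

* `k0_vec`: `KapOK.lat`, `act C (vec m) = vec (C m)`, `act` is additive.
* `k0_near`: `act_kap`.
* `k0_dl`: if `dl x < δ²`: `k0_near`, `dl_vec`.
* `k0_dl'`: if `dl (κ₀ x) < δ²`, `y = κ₀ x`: let `i, j` be the rounds of `y 1, y 2`, `y = z + vec ![0, i, j]`, `|z 1|, |z 2| < δ`; `κ₀ z = z` (`KapOK.axis`) and
  `κ₀ (z + vec (C⁻¹ ![0, i, j])) = z + vec ![0, i, j] = y = κ₀ x` (`C` has determinant `1`: `Alg.det`, `c00`, `c10`, `c20`; inverse of the matrix: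
  take `n` with `C n = ![0, i, j]`: `n 1 = C22 i - C12 j`, `n 2 = -C21 i + C11 j`, `n 0 = -(C01 n 1 + C02 n 2)`), so
  `x = z + vec n` (injectivity) and `dl x = dl z = dl y` (`dl_vec`).
* `k0_Rr`: if `dl x < δ²`: `κ₀ x = x + vec m` for the `m` of `act_kap`: more precisely `κ₀ (z + vec n) = z + vec (C n)` for `|z 1|, |z 2| < δ`; and
  `Rr a (z + vec n) = Rr a z + vec n`, where `Rr a z` has the same `dl`, `|(Rr a z) 1|, |(Rr a z) 2| < δ` (`dl z = (z 1)² + (z 2)²` for the nearest lattice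
  point `n`; choose `n` with rounds, then `(Rr a z) 1)² + ((Rr a z) 2)² = dl z < δ²`: `Rr_near`, `i = j = 0`), so both sides are `Rr a z + vec (C n)`.
  If `dl x ≥ δ² ≥ (3d₀)²`: `Rr a x = x`, and `dl (κ₀ x) ≥ δ²` (`k0_dl'`), so `Rr a (κ₀ x) = κ₀ x`.
* `k0_offax`: `offax_iff` (`dl = 0` is preserved in both directions: `k0_dl`, `k0_dl'`).
-/

open scoped Manifold ContDiff Topology
open Complex (I normSq)

namespace Pool.Agent.CHO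

open Pool.Agent.CSG (vec pt act stp)
open Pool.Agent.TS (OffAx)
open Pool.Agent.RSG (ex)

variable {P : Pm} {κ₀ : Equiv.Perm E3}

theorem k0_vec (hP : P.Ok) (h₀ : ∀ x, κ₀ x = act P.C (P.κ 1 x)) (x : E3) (m : Fin 3 → ℤ) :
    κ₀ (x + vec m) = κ₀ x + vec (P.C.mulVec m) := by
  rw [h₀, h₀, hP.kap.lat, E12t_act_add, CSG.act_vec]

/-- near the axes -/
theorem K0M_near (hP : P.Ok) (h₀ : ∀ x, κ₀ x = act P.C (P.κ 1 x)) {z : E3} (h : (z 1) ^ 2 + (z 2) ^ 2 < P.δ ^ 2)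
    (m : Fin 3 → ℤ) : κ₀ (z + vec m) = z + vec (P.C.mulVec m) := by
  have hδ := hP.kap.pos
  have h1 : |z 1| < P.δ := abs_lt_of_sq_lt_sq (by nlinarith [sq_nonneg (z 2)]) hδ.le
  have h2 : |z 2| < P.δ := abs_lt_of_sq_lt_sq (by nlinarith [sq_nonneg (z 1)]) hδ.le
  rw [k0_vec hP h₀, h₀, hP.kap.axis z h1 h2]

theorem K0M_dec {δ : ℝ} {x : E3} (h : dl x < δ ^ 2) :
    ∃ z : E3, x = z + vec ![0, round (x 1), round (x 2)] ∧ (z 1) ^ 2 + (z 2) ^ 2 < δ ^ 2 := by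
  refine ⟨x - vec ![0, round (x 1), round (x 2)], (sub_add_cancel _ _).symm, ?_⟩
  have e1 : (x - vec ![0, round (x 1), round (x 2)]) 1 = x 1 - round (x 1) := by simp [vec]
  have e2 : (x - vec ![0, round (x 1), round (x 2)]) 2 = x 2 - round (x 2) := by simp [vec]
  rw [e1, e2, ← dl_round]
  exact h

theorem k0_dl (hP : P.Ok) (h₀ : ∀ x, κ₀ x = act P.C (P.κ 1 x)) {x : E3} (h : dl x < P.δ ^ 2) :
    dl (κ₀ x) = dl x := by
  obtain ⟨z, hz, h1⟩ := K0M_dec h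
  rw [hz, K0M_near hP h₀ h1, dl_vec, dl_vec]

theorem K0M_inv (hP : P.Ok) (i j : ℤ) : ∃ n : Fin 3 → ℤ, P.C.mulVec n = ![0, i, j] := by
  have hA := hP.alg
  have hd := hA.det
  refine ⟨![-(P.C 0 1 * (P.C 2 2 * i - P.C 1 2 * j) + P.C 0 2 * (-(P.C 2 1) * i + P.C 1 1 * j)),
    P.C 2 2 * i - P.C 1 2 * j, -(P.C 2 1) * i + P.C 1 1 * j], ?_⟩
  ext k
  fin_cases k
  · simp [Matrix.mulVec, dotProduct, Fin.sum_univ_three, hA.c00]
  · simp [Matrix.mulVec, dotProduct, Fin.sum_univ_three, hA.c10]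
    linear_combination i * hd
  · simp [Matrix.mulVec, dotProduct, Fin.sum_univ_three, hA.c20]
    linear_combination j * hd

theorem k0_dl' (hP : P.Ok) (h₀ : ∀ x, κ₀ x = act P.C (P.κ 1 x)) {x : E3} (h : dl (κ₀ x) < P.δ ^ 2) :
    dl (κ₀ x) = dl x := by
  obtain ⟨z, hz, h1⟩ := K0M_dec h
  obtain ⟨n, hn⟩ := K0M_inv hP (round ((κ₀ x) 1)) (round ((κ₀ x) 2))
  have h2 : κ₀ (z + vec n) = κ₀ x := by
    rw [K0M_near hP h₀ h1, hn]
    exact hz.symm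
  have h3 : z + vec n = x := κ₀.injective h2
  rw [← h3, K0M_near hP h₀ h1, dl_vec, dl_vec]

theorem K0M_rot {a : ℝ} {z : E3} {δ : ℝ} (hδ : 0 < δ) (hδ' : δ ≤ 1 / 8) (d₀ : ℝ) (h : (z 1) ^ 2 + (z 2) ^ 2 < δ ^ 2) :
    ((Rr d₀ a z) 1) ^ 2 + ((Rr d₀ a z) 2) ^ 2 < δ ^ 2 := by
  have h1 : (z 1 - (0 : ℤ)) ^ 2 + (z 2 - (0 : ℤ)) ^ 2 < 1 / 4 := by
    rw [Int.cast_zero, sub_zero, sub_zero]
    nlinarith
  have h2 := Rr_near (d₀ := d₀) a h1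
  have h3 := RrM_ns (a * chi d₀ (dl z)) ⟨z 2 - (0 : ℤ), z 1 - (0 : ℤ)⟩
  rw [Int.cast_zero, sub_zero, sub_zero] at h3
  rw [Int.cast_zero, sub_zero, sub_zero] at h2
  set w := ex (a * chi d₀ (dl z)) * (⟨z 2, z 1⟩ : ℂ) with hw
  rw [h2, CSG.pt_one', CSG.pt_two', zero_add, zero_add]
  have h4 : normSq w = w.re * w.re + w.im * w.im := Complex.normSq_apply w
  have h5 : normSq (⟨z 2, z 1⟩ : ℂ) = z 2 * z 2 + z 1 * z 1 := Complex.normSq_mk _ _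
  nlinarith

theorem k0_Rr (hP : P.Ok) (h₀ : ∀ x, κ₀ x = act P.C (P.κ 1 x)) (a : ℝ) (x : E3) :
    Rr P.d₀ a (κ₀ x) = κ₀ (Rr P.d₀ a x) := by
  have hδ := hP.kap.pos
  have hδ' := hP.kap.le
  have hd := hP.d₀_pos
  have hd' := hP.hd
  rcases lt_or_ge (dl x) (P.δ ^ 2) with h | h
  · obtain ⟨z, hz, h1⟩ := K0M_dec h
    have h2 := K0M_rot (a := a) hδ hδ' P.d₀ h1
    rw [hz, K0M_near hP h₀ h1, Rr_vec, Rr_vec, K0M_near hP h₀ h2]
  · have h1 : (3 * P.d₀) ^ 2 ≤ P.δ ^ 2 := by nlinarith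
    have h2 : P.δ ^ 2 ≤ dl (κ₀ x) := by
      by_contra h3
      have h4 := not_le.1 h3
      have h5 := k0_dl' hP h₀ h4
      linarith
    rw [Rr_off hd a (h1.trans h), Rr_off hd a (h1.trans h2)]

theorem k0_offax (hP : P.Ok) (h₀ : ∀ x, κ₀ x = act P.C (P.κ 1 x)) (x : E3) : OffAx (κ₀ x) ↔ OffAx x := by
  have hδ : 0 < P.δ ^ 2 := pow_pos hP.kap.pos 2
  rw [offax_iff, offax_iff, not_iff_not]
  constructor
  · intro h
    rw [← k0_dl' hP h₀ (by rw [h]; exact hδ), h]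
  · intro h
    rw [k0_dl hP h₀ (by rw [h]; exact hδ), h]

end Pool.Agent.CHO
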