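import Pool.Agent.CHO.ThL
import Pool.Agent.CHO.K0M

/-!
# CHO/ThP: periodicity and monodromy of `Th`   (difficulty 2-3)

* `Thu_per`: `W_int` (with `c = 0`), `E1t_smul` (`W_dm`), `E1t_add_int`; for `t > 1/2`: `mir_smul`, `E2t_smul`, `E2t_add_int` (`W_dm'`).
  `(x + vec m) i = x i + m i`.
* `Th_per`: `Gt_vec`, `Gt_offax`, `Gt_onCT`, `gd_of`.
* `Thu_mon`, `|t| < 1/8`: `t + 1 > 1/2`, `W (x 1, x 2, t + 1) = W (x 1, x 2, t)` (`W_int` with `c = 1`, `exp 0 • = id`).  By `W_colz`: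
  (i) `dl x < d₀²`, `W ∈ zone`: `E2t_zone`: the left side is `E1t (W .., x 0) = Thu (x, t)`; `Rr k x = x` (`Rr_int`), `κ₀ x = x + vec m` (`act_kap`, `d₀ < δ`), `Thu_per`.
  (ii) `d₀² ≤ dl x`, `W = cyl (x 1, x 2, th t)`: the left side is `E2t (cE x (- th t))` (`mir_cyl`) `= E1t (cE y (th t))`, `y = κ₀ (Rr k x)` (`E2t_col`, `th_lt`);
  `dl y ≥ d₀²` (if `dl y < d₀² < δ²` then `dl y = dl (Rr k x) = dl x` by `k0_dl'`, `Rr_dl`), so `W (y 1, y 2, t) = cyl (y 1, y 2, th t)` (`W_colz` for `y`, whose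
  first alternative is excluded; `Gd` for `y`: `gd_of`, `k0_offax`, `Rr_offax`, `OnCT` needs `t = 1/2`), `Thu_lo`.
* `Th_mon`: `Th (x, t + 1) = Thu (Gt (t+1) x, t + 1) = Thu (κ₀ (Rr k (Gt (t + 1) x)), t)`, `Rr k ∘ Gt (t + 1) = Gt t` (`Rr_add`), `k0_Rr`.
-/

open scoped Manifold ContDiff Topology
open Complex (I normSq)

namespace Pool.Agent.CHO

open Pool.Agent.CSG (vec pt act stp)
open Pool.Agent.TS (OffAx)
open Pool.Agent.RSG (ex)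
open Pool.Agent.PTH (SP ISP gact)
open Pool.Agent.CSP (OnCT)
open Pool.Agent.CHW (F3 q2 rr mir cyl zone WD Gd OnB OnK)

variable {P : Pm} {ε : ℝ} (D : WD P.d₀ P.x₁ ε) {κ₀ : Equiv.Perm E3}

theorem Thu_per (hP : P.Ok) {x : E3} {t : ℝ} (h0 : -(1 / 8) < t) (h1 : t < 9 / 8) (h : Gd (x 1, x 2, t)) (m : Fin 3 → ℤ) :
    Thu D (x + vec m, t) = Thu D (x, t) := by
  have e0 : (x + vec m) 0 = x 0 + m 0 := rfl
  have e1 : (x + vec m) 1 = x 1 + m 1 := rfl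
  have e2 : (x + vec m) 2 = x 2 + m 2 := rfl
  have hW := W_int D h (m 1) (m 2) 0
  rw [Int.cast_zero, add_zero] at hW
  rcases le_or_gt t (1 / 2) with ht | ht
  · rw [Thu_lo D _ ht, Thu_lo D _ ht, e0, e1, e2, hW, E1t_add_int, E1t_smul P (W_dm D h h0.le ht)]
  · have hd := W_dm' D h ht.le h1.le
    rw [Thu_hi D _ ht, Thu_hi D _ ht, e0, e1, e2, hW, mir_smul,
      E2t_add_int hP ((dm_smul (Real.exp_pos _) _).2 hd), E2t_smul hP hd]

theorem Th_per (hP : P.Ok) {x : E3} {t : ℝ} (h0 : -(1 / 8) < t) (h1 : t < 9 / 8) (h : OffAx x) (h' : ¬ OnCT x t)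
    (m : Fin 3 → ℤ) : Th D (x + vec m, t) = Th D (x, t) := by
  show Thu D (Gt P t (x + vec m), t) = Thu D (Gt P t x, t)
  rw [Gt_vec]
  exact Thu_per D hP h0 h1
    (gd_of h0 h1 ((Gt_offax hP t x).2 h) (fun h2 => h' ((Gt_onCT hP t x).1 h2))) m

theorem ThP_gd {x : E3} {t : ℝ} (h0 : -(1 / 8) < t) (h1 : t < 1 / 8) (h : OffAx x) : Gd (x 1, x 2, t) := by
  refine gd_of h0 (by linarith) h ?_
  intro h2
  have := h2.1
  linarith

theorem Thu_mon (hP : P.Ok) (h₀ : ∀ x, κ₀ x = act P.C (P.κ 1 x)) {x : E3} {t : ℝ} (h0 : -(1 / 8) < t) (h1 : t < 1 / 8)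
    (h : OffAx x) : Thu D (x, t + 1) = Thu D (κ₀ (Rr P.d₀ P.k x), t) := by
  have hd := hP.d₀_pos
  have hd' := hP.d₀_lt
  have hδ := hP.hd
  have hG : Gd (x 1, x 2, t) := ThP_gd h0 h1 h
  have habs : |t| ≤ 1 / 8 := abs_le.2 ⟨h0.le, h1.le⟩
  have hW : D.W (x 1, x 2, t + 1) = D.W (x 1, x 2, t) := by
    have h2 := W_int D hG 0 0 1
    simpa using h2
  rw [Thu_hi D _ (by linarith), hW]
  rcases W_colz D hG habs with ⟨hz, n, hn⟩ | ⟨hz, hn⟩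
  · rw [dl_eta] at hz
    rw [E2t_zone hP hn, ← Thu_lo D x (by linarith), Rr_int hd P.k (by nlinarith)]
    obtain ⟨m, hm⟩ := act_kap hP (x := x) (by nlinarith)
    rw [h₀, hm, Thu_per D hP h0 (by linarith) hG]
  · rw [dl_eta] at hz
    have e1 : (mir (D.W (x 1, x 2, t)), x 0) = cE x (-D.th t) := by
      rw [hn, mir_cyl]; rfl
    rw [e1, E2t_col hP x (D.th_lt t habs), ← h₀]
    set y := κ₀ (Rr P.d₀ P.k x) with hy
    have hoff : OffAx y := (k0_offax hP h₀ _).2 ((Rr_offax hd hd' _ x).2 h)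
    have hdy : P.d₀ ^ 2 ≤ dl y := by
      by_contra hc
      push Not at hc
      have h3 : dl y = dl (Rr P.d₀ P.k x) := k0_dl' hP h₀ (by rw [← hy]; nlinarith)
      rw [Rr_dl hd hd'] at h3
      linarith
    have hGy : Gd (y 1, y 2, t) := ThP_gd h0 h1 hoff
    rcases W_colz D hGy habs with ⟨hz2, -⟩ | ⟨-, hn2⟩
    · rw [dl_eta] at hz2
      linarith
    · rw [Thu_lo D y (by linarith), hn2]
      rfl

theorem Th_mon (hP : P.Ok) (h₀ : ∀ x, κ₀ x = act P.C (P.κ 1 x)) {x : E3} {t : ℝ} (h0 : -(1 / 8) < t) (h1 : t < 1 / 8)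
    (h : OffAx x) : Th D (κ₀ x, t) = Th D (x, t + 1) := by
  show Thu D (Gt P t (κ₀ x), t) = Thu D (Gt P (t + 1) x, t + 1)
  rw [Thu_mon D hP h₀ h0 h1 ((Gt_offax hP (t + 1) x).2 h)]
  congr 2
  unfold Gt
  rw [k0_Rr hP h₀, Rr_add hP.d₀_pos hP.d₀_lt]
  congr 2
  ring

end Pool.Agent.CHO
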