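import Pool.Agent.CHO.KkD
import Pool.Agent.CHO.ThP
import Pool.Agent.CHO.TbM

/-!
# CHO/CovM: everything is covered   (difficulty 3)

`E12t_cover`: `p = E1t (x, τ)` or `p = E2t (x, τ)`, `x ≠ 0`, `0 ≤ x.2`.  It is enough to find a point of the form `Thu (x', t)` with `OffAx x'`, `¬ OnCT x' t`, `0 ≤ t < 1`: then
`Thu (x', t) = Th (Rr d₀ (k (t - 1/2)) x', t)` (`Gt_inv`; `Rr_offax`, and for `t = 1/2` `Rr = id`).
`Gd (u, y, t)` gives `OffAx (pt τ u y)` and `¬ OnCT (pt τ u y) t`.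
(1) `p = E1t (x, τ)`; field `cover` for `x`:
 (a) `x = exp n • Wb (θ, 0)`: `p = Tb (θ, τ, 0)` (`E1t_smul`, `Wb_dm`).
 (b) `x = exp n • Wk (l, 0)`: `(Wk (l, 0)).2 ≥ 0`, so not `0 < fract l < 1/2` (`Wk_neg`), `p = kK (l, 0, τ)` (`kK_one`, `E1t_smul`, `dm_of_nonneg`, `Wk_ne`).
 (c) `x = W (u, y, t)`: `W (u, y, t) = W (u, y, fract t)` (`W_int`), so `0 ≤ t < 1`; `t ≤ 1/2` (`neg`), `p = Thu (pt τ u y, t)` (`Thu_lo`).
(2) `p = E2t (x, τ)`; field `cover` for `mir x` (height `≤ 0`):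
 (a) `mir x = exp n • Wb (θ, 0)`: `x = exp n • mir (Wb ..)`, `p = E2t (mir (Wb (θ, 0)), τ)` (`E2t_smul`, `zone_mir`, `zone_dm`) `= E1t (Wb (θ, 0), τ)` (`E2t_zone`) `= Tb (θ, τ, 0)`.
 (b) `mir x = exp n • Wk (l, 0)`: `(Wk (l, 0)).2 ≤ 0`, so `fract l ≤ 1/2` (`Wk_pos`), `p = kK (l, 0, τ)` (`kK_two`, `E2t_smul`).
 (c) `mir x = W (u, y, t)`, `0 ≤ t < 1`, not `0 < t < 1/2` (`pos`).  `t > 1/2`: `Thu_hi`.  `t = 1/2`: `Thu_half'`.  `t = 0`: `x = mir (W (u, y, 1))` (`W_int`), `p = E2t (mir (W (u, y, 1)), τ) = Thu (pt τ u y, 0 + 1)`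
   (`Thu_hi`) `= Thu (κ₀ (Rr k (pt τ u y)), 0)` (`Thu_mon`), and `k0_offax`, `Rr_offax`.
-/

open scoped Manifold ContDiff Topology
open Complex (I normSq)

namespace Pool.Agent.CHO

open Pool.Agent.CSG (vec pt act stp)
open Pool.Agent.TS (OffAx)
open Pool.Agent.RSG (ex)
open Pool.Agent.PTH (SP ISP gact)
open Pool.Agent.CSP (OnCT)
open Pool.Agent.CHW (F3 q2 rr mir cyl zone WD Gd OnB OnK)

variable {P : Pm} {ε : ℝ} (D : WD P.d₀ P.x₁ ε) {κ₀ : Equiv.Perm E3}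

theorem CovM_n0 : ‖(0 : ℂ)‖ < 5 := by
  rw [norm_zero]
  norm_num

theorem CovM_n1 : ‖(0 : ℂ)‖ < 1 := by
  rw [norm_zero]
  norm_num

theorem CovM_xle (hP : P.Ok) : P.x₁ ≤ 1 := by
  have := hP.x₁_lt
  linarith

/-- a good point gives a point of the open book -/
theorem CovM_gd {u y t : ℝ} (τ : ℝ) (hg : Gd (u, y, t)) : OffAx (pt τ u y) ∧ ¬ OnCT (pt τ u y) t := by
  obtain ⟨h1, h2⟩ := hg
  constructor
  · rintro ⟨⟨a, ha⟩, b, hb⟩
    exact h1 ⟨a, b, ha, hb⟩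
  · rintro ⟨ht, b, hb⟩
    refine h2 ⟨b, 0, hb, ?_⟩
    show t = ((0 : ℤ) : ℝ) + 1 / 2
    rw [ht]
    simp

/-- reduction of `t` modulo `1` -/
theorem CovM_red {x : F3} {q : ℝ × ℝ × ℝ} (hg : Gd q) (hx : x = D.W q) :
    ∃ u y t : ℝ, 0 ≤ t ∧ t < 1 ∧ Gd (u, y, t) ∧ x = D.W (u, y, t) := by
  obtain ⟨u, y, t⟩ := q
  have e : Int.fract t = t + ((-⌊t⌋ : ℤ) : ℝ) := by
    push_cast
    rw [← sub_eq_add_neg]
    rfl
  refine ⟨u + ((0 : ℤ) : ℝ), y + ((0 : ℤ) : ℝ), t + ((-⌊t⌋ : ℤ) : ℝ), ?_, ?_, (gd_int 0 0 (-⌊t⌋)).2 hg, ?_⟩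
  · rw [← e]
    exact Int.fract_nonneg t
  · rw [← e]
    exact Int.fract_lt_one t
  · rw [W_int D hg 0 0 (-⌊t⌋), hx]
    simp

theorem CovM_exp {x : F3} {y : F3} {n : ℤ} (h : x = Real.exp n • y) : (0 ≤ x.2 → 0 ≤ y.2) ∧ (x.2 ≤ 0 → y.2 ≤ 0) := by
  have h1 : x.2 = Real.exp n * y.2 := by
    rw [h]
    rfl
  have h2 := Real.exp_pos (n : ℝ)
  constructor
  · intro h3
    rw [h1] at h3
    exact nonneg_of_mul_nonneg_right h3 h2
  · intro h3
    rw [h1] at h3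
    by_contra h4
    push Not at h4
    have := mul_pos h2 h4
    linarith

theorem CovM_mir {x y : F3} {n : ℤ} (h : mir x = Real.exp n • y) : x = Real.exp n • mir y := by
  have h1 := congrArg mir h
  rw [mir_smul, mir_mir] at h1
  exact h1

theorem Thu_cover (hP : P.Ok) (h₀ : ∀ x, κ₀ x = act P.C (P.κ 1 x)) (p : SP) : (∃ θ x₀, p = Tb D (θ, x₀, 0)) ∨
    (∃ l τ, p = kK D (l, 0, τ)) ∨ ∃ (x : E3) (t : ℝ), OffAx x ∧ ¬ OnCT x t ∧ 0 ≤ t ∧ t < 1 ∧ p = Thu D (x, t) := by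
  obtain ⟨x, τ, hx, hx2, hp | hp⟩ := E12t_cover hP p
  · rcases D.cover x hx with ⟨θ, n, h⟩ | ⟨l, n, h⟩ | ⟨q, hq, h⟩
    · left
      refine ⟨θ, τ, ?_⟩
      rw [hp, h, E1t_smul P (Wb_dm D θ CovM_n0)]
      rfl
    · right
      left
      refine ⟨l, τ, ?_⟩
      have hk := (CovM_exp h).1 hx2
      have hl : 1 / 2 ≤ Int.fract l ∨ Int.fract l = 0 := by
        by_contra hc
        push Not at hc
        have h0 : 0 < Int.fract l := lt_of_le_of_ne (Int.fract_nonneg l) (Ne.symm hc.2)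
        have := Wk_neg D CovM_n1 h0 hc.1
        linarith
      rw [hp, h, E1t_smul P (dm_of_nonneg (Wk_ne D l CovM_n1) hk), kK_one D hP hl CovM_n1]
    · right
      right
      obtain ⟨u, y, t, ht0, ht1, hg, hxW⟩ := CovM_red D hq h
      obtain ⟨ho, hc⟩ := CovM_gd τ hg
      have ht : t ≤ 1 / 2 := by
        by_contra hh
        push Not at hh
        have := D.neg u y t hg hh ht1
        rw [← hxW] at this
        linarith
      refine ⟨pt τ u y, t, ho, hc, ht0, ht1, ?_⟩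
      rw [Thu_lo D _ ht, hp, hxW]
      rfl
  · have hmx := mir_ne hx
    have hm2 : (mir x).2 ≤ 0 := by
      show -x.2 ≤ 0
      linarith
    rcases D.cover (mir x) hmx with ⟨θ, n, h⟩ | ⟨l, n, h⟩ | ⟨q, hq, h⟩
    · left
      refine ⟨θ, τ, ?_⟩
      have hz := D.b_zone θ 0 CovM_n0
      rw [hp, CovM_mir h, E2t_smul hP (zone_dm (CovM_xle hP) (zone_mir hz)), E2t_zone hP hz τ]
      rfl
    · right
      left
      refine ⟨l, τ, ?_⟩
      have hk := (CovM_exp h).2 hm2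
      have hl : Int.fract l ≤ 1 / 2 := by
        by_contra hc
        push Not at hc
        have := Wk_pos D CovM_n1 hc
        linarith
      have hd : Dm (mir (D.Wk (l, 0))) := by
        refine dm_of_nonneg (mir_ne (Wk_ne D l CovM_n1)) ?_
        show 0 ≤ -(D.Wk (l, 0)).2
        linarith
      rw [hp, CovM_mir h, E2t_smul hP hd, kK_two D hP hl CovM_n1]
    · right
      right
      obtain ⟨u, y, t, ht0, ht1, hg, hxW⟩ := CovM_red D hq h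
      obtain ⟨ho, hc⟩ := CovM_gd τ hg
      have hxm : x = mir (D.W (u, y, t)) := by rw [← hxW, mir_mir]
      rcases lt_trichotomy t (1 / 2) with ht | ht | ht
      · -- then `t = 0`
        have ht00 : t = 0 := by
          by_contra hne
          have htp : 0 < t := lt_of_le_of_ne ht0 (Ne.symm hne)
          have := D.pos u y t hg htp ht
          rw [← hxW] at this
          linarith
        have hW1 : D.W (u, y, 1) = D.W (u, y, t) := by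
          have h1 := W_int D hg 0 0 1
          rw [ht00] at h1 ⊢
          simpa using h1
        refine ⟨κ₀ (Rr P.d₀ P.k (pt τ u y)), 0, (k0_offax hP h₀ _).2 ((Rr_offax hP.d₀_pos hP.d₀_lt _ _).2 ho), ?_,
          le_rfl, one_pos, ?_⟩
        · rintro ⟨h2, -⟩
          norm_num at h2
        · rw [← Thu_mon D hP h₀ (by norm_num) (by norm_num) ho, zero_add, Thu_hi D _ (by norm_num), hp, hxm, ← hW1]
          rfl
      · refine ⟨pt τ u y, t, ho, hc, ht0, ht1, ?_⟩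
        rw [ht] at hg hxm ⊢
        rw [Thu_half' D hP (x := pt τ u y) hg, hp, hxm]
        rfl
      · refine ⟨pt τ u y, t, ho, hc, ht0, ht1, ?_⟩
        rw [Thu_hi D _ ht, hp, hxm]
        rfl

theorem Th_cover (hP : P.Ok) (h₀ : ∀ x, κ₀ x = act P.C (P.κ 1 x)) (p : SP) : (∃ θ x₀, p = Tb D (θ, x₀, 0)) ∨
    (∃ l τ, p = kK D (l, 0, τ)) ∨ ∃ (x : E3) (t : ℝ), OffAx x ∧ ¬ OnCT x t ∧ 0 ≤ t ∧ t < 1 ∧ p = Th D (x, t) := by
  rcases Thu_cover D hP h₀ p with h | h | ⟨x', t, h1, h2, h3, h4, h5⟩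
  · exact Or.inl h
  · exact Or.inr (Or.inl h)
  · have hG := (Gt_inv hP t x').1
    refine Or.inr (Or.inr ⟨Rr P.d₀ (P.k * (t - 1 / 2)) x', t, ?_, ?_, h3, h4, ?_⟩)
    · rw [← Gt_offax hP t, hG]
      exact h1
    · rw [← Gt_onCT hP t, hG]
      exact h2
    · rw [h5]
      show Thu D (x', t) = Thu D (Gt P t (Rr P.d₀ (P.k * (t - 1 / 2)) x'), t)
      rw [hG]

end Pool.Agent.CHO
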