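import Pool.Agent.CHO.CylM
import Pool.Agent.CSG.LDa
import Pool.Agent.CSG.LDb
import Pool.Agent.CSG.HHb
import Pool.Agent.RSG.LDc
import Pool.Agent.RSG.ExM

/-!
# CHO/CylL: cylindrical coordinates, inverse and local diffeomorphisms   (difficulty 3)

* `cE_toE`: for `x ≠ 0`: `√(1 - cX²) = |w| / rr x`, `|w| ex (arg w / 2π) = w` (`RSG.ex_arg`; also for `w = 0`),
  `exp (log (rr x)) = rr x`.
* `toE_cE`: `|X| < 1`: `arg (√(1 - X²) exp Y ex u) / 2π = u + j` (`RSG.ex_eq_iff` applied to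
  `ex (arg z / 2π) = z / |z| = ex u`; `√(1 - X²) > 0`), `rr_cyl`, `pt_eta`, `CSG.pt_add_vec`-like.
* `cyl_ld`: local inverse at `(u₀, Y₀, X₀)`: `x ↦ (u₀ + arg' (w ex (-u₀)) / 2π, log (rr x), cX x)`, `arg' z = (Complex.log z).im`, smooth where
  `w ex (-u₀) ∈ slitPlane`, and `RSG.ld_two`; compare `GLB/Psi.lean` (`Psi_ld`, `Psi_R`).  (Or `CSG.ld_of_fderiv`.)
* `cE_ld`: `(x, X) ↦ ((x 1, x 2, X), x 0)` is a linear isomorphism `E3 × ℝ → (ℝ × ℝ × ℝ) × ℝ`; then `cyl × id`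
  (`RSG.ld_prodMap` or directly), composition.
* `zone_isOpen`: the zone is the image of the open set `{q | q.1² + (q.2.1 - n)² < d² ∧ |q.2.2| < x₁}` under `cyl`, which is a local
  diffeomorphism there, hence open there (`CSG.ld_image_nhds`).
-/

open scoped Manifold ContDiff Topology
open Complex (I normSq)

namespace Pool.Agent.CHO

open Pool.Agent.CSG (vec pt act stp)
open Pool.Agent.RSG (pS3 ex)
open Pool.Agent.PTH (SP ISP)
open Pool.Agent.CHW (F3 q2 rr mir cyl zone)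

theorem CylL_sq (x : F3) : rr x ^ 2 = normSq x.1 + x.2 ^ 2 := Real.sq_sqrt (CylM_q2_nn x)

theorem CylL_root {x : F3} (h : x ≠ 0) : rr x * Real.sqrt (1 - cX x ^ 2) = ‖x.1‖ := by
  have hr := rr_pos.2 h
  have hsq := CylL_sq x
  rw [← Real.sqrt_sq hr.le, ← Real.sqrt_mul (sq_nonneg _), ← Real.sqrt_sq (norm_nonneg x.1)]
  congr 1
  unfold cX
  rw [← Complex.normSq_eq_norm_sq]
  have h1 : rr x ^ 2 * (1 - (x.2 / rr x) ^ 2) = rr x ^ 2 - x.2 ^ 2 := by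
    field_simp
  rw [h1]
  linarith

theorem CylL_cyl (q : ℝ × ℝ × ℝ) :
    (cyl q).1 = ((Real.exp q.2.1 * Real.sqrt (1 - q.2.2 ^ 2) : ℝ) : ℂ) * ex q.1 := by
  show Real.exp q.2.1 • (((Real.sqrt (1 - q.2.2 ^ 2) : ℝ) : ℂ) * ex q.1) = _
  rw [Complex.real_smul]
  push_cast
  ring

theorem CylL_pos {Y X : ℝ} (h : |X| < 1) : 0 < Real.exp Y * Real.sqrt (1 - X ^ 2) := by
  have h1 : 0 < 1 - X ^ 2 := by
    have := (sq_lt_one_iff_abs_lt_one X).2 h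
    linarith
  have h2 := Real.sqrt_pos.2 h1
  have h3 := Real.exp_pos Y
  positivity

theorem cE_toE {p : F3 × ℝ} (h : p.1 ≠ 0) : cE (toE p) (cX p.1) = p := by
  have hr := rr_pos.2 h
  unfold cE toE
  rw [Pool.Agent.CSG.pt_zero', Pool.Agent.CSG.pt_one', Pool.Agent.CSG.pt_two']
  refine Prod.ext (Prod.ext ?_ ?_) rfl
  · show (cyl (Complex.arg p.1.1 / (2 * Real.pi), Real.log (rr p.1), cX p.1)).1 = p.1.1
    rw [CylL_cyl]
    simp only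
    rw [Real.exp_log hr, CylL_root h]
    exact Pool.Agent.RSG.ex_arg
  · show Real.exp (Real.log (rr p.1)) * cX p.1 = p.1.2
    rw [Real.exp_log hr]
    exact mul_div_cancel₀ _ hr.ne'

theorem CylL_vec (x : E3) (j : ℤ) : x + vec ![0, j, 0] = pt (x 0) (x 1 + j) (x 2) := by
  conv_lhs => rw [← Pool.Agent.CSG.pt_eta x]
  rw [Pool.Agent.CSG.pt_add_vec]
  simp

theorem toE_cE (x : E3) {X : ℝ} (h : |X| < 1) : ∃ j : ℤ, toE (cE x X) = x + vec ![0, j, 0] := by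
  have hp := CylL_pos (Y := x 2) h
  have h1 : ex (x 1) = ex (Complex.arg (cE x X).1.1 / (2 * Real.pi)) := by
    have h2 : ((‖(cE x X).1.1‖ : ℝ) : ℂ) * ex (Complex.arg (cE x X).1.1 / (2 * Real.pi)) =
        ((Real.exp (x 2) * Real.sqrt (1 - X ^ 2) : ℝ) : ℂ) * ex (x 1) := by
      rw [Pool.Agent.RSG.ex_arg]
      exact CylL_cyl (x 1, x 2, X)
    have h3 : ‖(cE x X).1.1‖ = Real.exp (x 2) * Real.sqrt (1 - X ^ 2) := by
      show ‖(cyl (x 1, x 2, X)).1‖ = _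
      rw [CylL_cyl, norm_mul, Pool.Agent.RSG.ex_norm, mul_one, Complex.norm_real,
        Real.norm_of_nonneg hp.le]
    rw [h3] at h2
    exact (mul_left_cancel₀ (Complex.ofReal_ne_zero.2 hp.ne') h2).symm
  obtain ⟨m, hm⟩ := Pool.Agent.RSG.ex_eq_iff.1 h1
  refine ⟨m, ?_⟩
  rw [CylL_vec, ← hm]
  show pt (x 0) _ (Real.log (rr (cyl (x 1, x 2, X)))) = _
  rw [rr_cyl h.le, Real.log_exp]

theorem toE_smul {p : F3 × ℝ} (h : p.1 ≠ 0) (n : ℤ) : toE (Real.exp n • p.1, p.2) = toE p + vec ![0, 0, n] := by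
  have hr := rr_pos.2 h
  unfold toE
  simp only
  rw [Pool.Agent.CSG.pt_add_vec, rr_smul (Real.exp_pos _).le,
    Real.log_mul (Real.exp_pos _).ne' hr.ne', Real.log_exp]
  have h1 : Complex.arg (Real.exp n • p.1).1 = Complex.arg p.1.1 := by
    show Complex.arg (Real.exp n • p.1.1) = _
    rw [Complex.real_smul, Complex.arg_real_mul _ (Real.exp_pos _)]
  rw [h1]
  simp [add_comm]

theorem cE_add_vec (x : E3) (X : ℝ) (m : Fin 3 → ℤ) :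
    cE (x + vec m) X = (Real.exp (m 2 : ℝ) • (cE x X).1, (cE x X).2 + m 0) := by
  unfold cE
  have h0 : (x + vec m) 0 = x 0 + m 0 := rfl
  have h1 : (x + vec m) 1 = x 1 + m 1 := rfl
  have h2 : (x + vec m) 2 = x 2 + m 2 := rfl
  rw [h0, h1, h2, cyl_add_int, cyl_add_Y]

theorem cE_inj {x x' : E3} {X X' : ℝ} (h : |X| < 1) (h' : |X'| < 1) (he : cE x X = cE x' X') :
    X = X' ∧ ∃ j : ℤ, x' = x + vec ![0, j, 0] := by
  obtain ⟨j, hj⟩ := toE_cE x h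
  obtain ⟨j', hj'⟩ := toE_cE x' h'
  refine ⟨?_, j - j', ?_⟩
  · have h1 : cyl (x 1, x 2, X) = cyl (x' 1, x' 2, X') := congrArg Prod.fst he
    have h2 := congrArg cX h1
    rwa [cX_cyl h.le, cX_cyl h'.le] at h2
  · rw [← he, hj, CylL_vec, CylL_vec] at hj'
    rw [CylL_vec]
    have e0 := congrArg (fun z : E3 => z 0) hj'
    have e1 := congrArg (fun z : E3 => z 1) hj'
    have e2 := congrArg (fun z : E3 => z 2) hj'
    simp only [Pool.Agent.CSG.pt_zero', Pool.Agent.CSG.pt_one', Pool.Agent.CSG.pt_two'] at e0 e1 e2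
    rw [← Pool.Agent.CSG.pt_eta x', e0, e2]
    congr 1
    push_cast
    linarith

theorem CylL_q2_smooth : ContDiff ℝ ∞ (q2 : F3 → ℝ) := by
  have hre : ContDiff ℝ ∞ fun x : F3 => x.1.re := Complex.reCLM.contDiff.comp contDiff_fst
  have him : ContDiff ℝ ∞ fun x : F3 => x.1.im := Complex.imCLM.contDiff.comp contDiff_fst
  exact ((hre.mul hre).add (him.mul him)).add (contDiff_snd.pow 2)

theorem rr_smooth {x : F3} (h : x ≠ 0) : ContDiffAt ℝ ∞ rr x := by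
  refine CylL_q2_smooth.contDiffAt.sqrt ?_
  intro h1
  exact h (CylM_q2 h1)

theorem cX_smooth {x : F3} (h : x ≠ 0) : ContDiffAt ℝ ∞ cX x :=
  contDiffAt_snd.div (rr_smooth h) (rr_pos.2 h).ne'

/-- the local inverse of the cylindrical coordinates -/
noncomputable def CylL_G (u : ℝ) (z : F3) : ℝ × ℝ × ℝ :=
  (u + (Complex.log (z.1 * ex (-u))).im / (2 * Real.pi), Real.log (rr z), cX z)

theorem CylL_mul (u : ℝ) (q : ℝ × ℝ × ℝ) :
    (cyl q).1 * ex (-u) = ((Real.exp q.2.1 * Real.sqrt (1 - q.2.2 ^ 2) : ℝ) : ℂ) * ex (q.1 - u) := by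
  rw [CylL_cyl, mul_assoc, ← Pool.Agent.RSG.ex_add]
  rfl

theorem CylL_G_cyl {u : ℝ} {q : ℝ × ℝ × ℝ} (h : |q.2.2| < 1) (h1 : -(1 / 2) < q.1 - u)
    (h2 : q.1 - u < 1 / 2) : CylL_G u (cyl q) = q := by
  have hpi := Real.pi_pos
  unfold CylL_G
  rw [CylL_mul, Pool.Agent.RSG.ex_log (CylL_pos h) h1 h2, rr_cyl h.le, cX_cyl h.le, Real.log_exp]
  refine Prod.ext ?_ rfl
  show u + 2 * Real.pi * (q.1 - u) / (2 * Real.pi) = q.1
  field_simp
  ring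

theorem CylL_G_smooth {u : ℝ} {z : F3} (h0 : z ≠ 0) (hs : z.1 * ex (-u) ∈ Complex.slitPlane) :
    ContDiffAt ℝ ∞ (CylL_G u) z := by
  have h1 : ContDiffAt ℝ ∞ (fun z : F3 => z.1 * ex (-u)) z := contDiffAt_fst.mul contDiffAt_const
  have h2 : ContDiffAt ℝ ∞ Complex.log (z.1 * ex (-u)) :=
    (Complex.contDiffAt_log (n := ∞) hs).restrict_scalars ℝ
  have h3 : ContDiffAt ℝ ∞ (fun z : F3 => (Complex.log (z.1 * ex (-u))).im) z :=
    Complex.imCLM.contDiff.contDiffAt.comp z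
      (ContDiffAt.comp (g := Complex.log) (f := fun z : F3 => z.1 * ex (-u)) z h2 h1)
  exact (contDiffAt_const.add (h3.div_const _)).prodMk
    (((rr_smooth h0).log (rr_pos.2 h0).ne').prodMk (cX_smooth h0))

theorem CylL_slit (u Y : ℝ) {X : ℝ} (h : |X| < 1) :
    (cyl (u, Y, X)).1 * ex (-u) ∈ Complex.slitPlane := by
  rw [CylL_mul]
  simp only
  rw [sub_self, Pool.Agent.RSG.ex_zero, mul_one]
  exact Complex.ofReal_mem_slitPlane.2 (CylL_pos h)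

theorem CylL_smooth {q : ℝ × ℝ × ℝ} (h : |q.2.2| < 1) : ContDiffAt ℝ ∞ cyl q := by
  have h0 : 1 - q.2.2 ^ 2 ≠ 0 := by
    have := (sq_lt_one_iff_abs_lt_one q.2.2).2 h
    linarith
  have h1 : ContDiffAt ℝ ∞ (fun q : ℝ × ℝ × ℝ => Real.sqrt (1 - q.2.2 ^ 2)) q :=
    (contDiffAt_const.sub (contDiffAt_snd.snd.pow 2)).sqrt h0
  have h2 : ContDiffAt ℝ ∞ (fun q : ℝ × ℝ × ℝ => ((Real.sqrt (1 - q.2.2 ^ 2) : ℝ) : ℂ) * ex q.1) q :=
    (Complex.ofRealCLM.contDiff.contDiffAt.comp q h1).mul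
      (Pool.Agent.RSG.ex_smooth.contDiffAt.comp q contDiffAt_fst)
  exact (Real.contDiff_exp.contDiffAt.comp q contDiffAt_snd.fst).smul (h2.prodMk contDiffAt_snd.snd)

theorem cyl_ld (u Y : ℝ) {X : ℝ} (h : |X| < 1) :
    IsLocalDiffeomorphAt 𝓘(ℝ, ℝ × ℝ × ℝ) 𝓘(ℝ, F3) ∞ cyl (u, Y, X) := by
  have c1 : ContinuousAt (fun q : ℝ × ℝ × ℝ => |q.2.2|) (u, Y, X) := by fun_prop
  have c2 : ContinuousAt (fun q : ℝ × ℝ × ℝ => q.1 - u) (u, Y, X) := by fun_prop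
  have e1 : ∀ᶠ q : ℝ × ℝ × ℝ in 𝓝 (u, Y, X), |q.2.2| < 1 := c1.eventually_lt_const h
  have e2 : ∀ᶠ q : ℝ × ℝ × ℝ in 𝓝 (u, Y, X), q.1 - u < 1 / 2 :=
    c2.eventually_lt_const (by show u - u < 1 / 2; rw [sub_self]; norm_num)
  have e3 : ∀ᶠ q : ℝ × ℝ × ℝ in 𝓝 (u, Y, X), -(1 / 2) < q.1 - u :=
    c2.eventually_const_lt (by show -(1 / 2) < u - u; rw [sub_self]; norm_num)
  refine Pool.Agent.RSG.ld_left (g := CylL_G u) ?_ ?_ ?_ ?_
  · filter_upwards [e1] with q hq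
    exact CylL_smooth hq
  · simp [Module.finrank_prod, Complex.finrank_real_complex]
  · exact (CylL_G_smooth (cyl_ne h.le) (CylL_slit u Y h)).differentiableAt (by simp)
  · filter_upwards [e1, e2, e3] with q hq1 hq2 hq3
    exact CylL_G_cyl hq1 hq3 hq2

theorem cE_ld (x : E3) {X : ℝ} (h : |X| < 1) :
    IsLocalDiffeomorphAt 𝓘(ℝ, E3 × ℝ) 𝓘(ℝ, F3 × ℝ) ∞ (fun q : E3 × ℝ => cE q.1 q.2) (x, X) := by
  have k0 : ContDiff ℝ ∞ (fun q : E3 × ℝ => q.1 0) :=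
    (EuclideanSpace.proj (𝕜 := ℝ) (0 : Fin 3)).contDiff.comp contDiff_fst
  have k1 : ContDiff ℝ ∞ (fun q : E3 × ℝ => q.1 1) :=
    (EuclideanSpace.proj (𝕜 := ℝ) (1 : Fin 3)).contDiff.comp contDiff_fst
  have k2 : ContDiff ℝ ∞ (fun q : E3 × ℝ => q.1 2) :=
    (EuclideanSpace.proj (𝕜 := ℝ) (2 : Fin 3)).contDiff.comp contDiff_fst
  have ks : ContDiff ℝ ∞ (fun q : E3 × ℝ => ((q.1 1, q.1 2, q.2) : ℝ × ℝ × ℝ)) :=
    k1.prodMk (k2.prodMk contDiff_snd)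
  have c1 : ContinuousAt (fun q : E3 × ℝ => |q.2|) (x, X) := by fun_prop
  have c2 : ContinuousAt (fun q : E3 × ℝ => q.1 1 - x 1) (x, X) :=
    (k1.continuous.sub continuous_const).continuousAt
  have e1 : ∀ᶠ q : E3 × ℝ in 𝓝 (x, X), |q.2| < 1 := c1.eventually_lt_const h
  have e2 : ∀ᶠ q : E3 × ℝ in 𝓝 (x, X), q.1 1 - x 1 < 1 / 2 :=
    c2.eventually_lt_const (by show x 1 - x 1 < 1 / 2; rw [sub_self]; norm_num)
  have e3 : ∀ᶠ q : E3 × ℝ in 𝓝 (x, X), -(1 / 2) < q.1 1 - x 1 :=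
    c2.eventually_const_lt (by show -(1 / 2) < x 1 - x 1; rw [sub_self]; norm_num)
  refine Pool.Agent.RSG.ld_left
    (g := fun p : F3 × ℝ => (pt p.2 (CylL_G (x 1) p.1).1 (CylL_G (x 1) p.1).2.1,
      (CylL_G (x 1) p.1).2.2)) ?_ ?_ ?_ ?_
  · filter_upwards [e1] with q hq
    have a1 : ContDiffAt ℝ ∞ cyl (q.1 1, q.1 2, q.2) := CylL_smooth hq
    exact (a1.comp q ks.contDiffAt).prodMk k0.contDiffAt
  · simp [Module.finrank_prod, Complex.finrank_real_complex]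
  · have b1 : ContDiffAt ℝ ∞ (fun p : F3 × ℝ => CylL_G (x 1) p.1) (cE x X) := by
      have b0 : ContDiffAt ℝ ∞ (CylL_G (x 1)) (cE x X).1 :=
        CylL_G_smooth (cyl_ne h.le) (CylL_slit (x 1) (x 2) h)
      exact b0.comp (cE x X) contDiffAt_fst
    have b2 : ContDiffAt ℝ ∞ (fun p : F3 × ℝ =>
        pt p.2 (CylL_G (x 1) p.1).1 (CylL_G (x 1) p.1).2.1) (cE x X) := by
      rw [contDiffAt_euclidean]
      intro i
      fin_cases i
      · exact contDiffAt_snd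
      · exact b1.fst
      · exact b1.snd.fst
    exact (b2.prodMk b1.snd.snd).differentiableAt (by simp)
  · filter_upwards [e1, e2, e3] with q hq1 hq2 hq3
    have b3 := CylL_G_cyl (u := x 1) (q := (q.1 1, q.1 2, q.2)) hq1 hq3 hq2
    show (pt (q.1 0) (CylL_G (x 1) (cyl (q.1 1, q.1 2, q.2))).1
      (CylL_G (x 1) (cyl (q.1 1, q.1 2, q.2))).2.1,
      (CylL_G (x 1) (cyl (q.1 1, q.1 2, q.2))).2.2) = q
    rw [b3]
    exact Prod.ext (Pool.Agent.CSG.pt_eta q.1) rfl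

theorem zone_isOpen {d x₁ : ℝ} (h1 : x₁ ≤ 1) (n : ℤ) : IsOpen (zone d x₁ n) := by
  rw [isOpen_iff_mem_nhds]
  rintro _ ⟨u, Y, X, h2, h3, rfl⟩
  have hU : IsOpen {q : ℝ × ℝ × ℝ | q.1 ^ 2 + (q.2.1 - n) ^ 2 < d ^ 2 ∧ |q.2.2| < x₁} := by
    refine IsOpen.and ?_ ?_
    · exact isOpen_lt (by fun_prop) continuous_const
    · exact isOpen_lt (by fun_prop) continuous_const
  have h4 := Pool.Agent.CSG.ld_image_nhds (cyl_ld u Y (h3.trans_le h1)) (hU.mem_nhds ⟨h2, h3⟩)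
  refine Filter.mem_of_superset h4 ?_
  rintro _ ⟨q, ⟨h5, h6⟩, rfl⟩
  exact ⟨q.1, q.2.1, q.2.2, h5, h6, rfl⟩

end Pool.Agent.CHO
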