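import Pool.Agent.CHO.Defs

/-!
# CHO/CylM: `rr`, `cX`, cylindrical coordinates, algebra   (difficulty 1-2)

`rr x = √(normSq w + h²)`, `cX x = h / rr x`, `Dm x : 0 < rr x + h`,
`cyl (u, Y, X) = exp Y • (√(1 - X²) ex u, X)`.
* `rr_pos`: `q2 x = 0` iff `x = 0`.  `rr_smul`: `q2 (r • x) = r² q2 x`, `√`.
* `abs_cX_le`: `h² ≤ q2 x`.  `dm_iff`: `x ≠ 0` : `rr x > 0`, `rr x + h = rr x (1 + cX x)`; `x = 0`: `rr 0 + 0 = 0`.
* `rr_cyl`: `q2 (cyl ..) = exp (2Y) ((1 - X²) |ex u|² + X²) = exp (2Y)` (`Real.sq_sqrt`, `X² ≤ 1`, `ex_norm`).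
* `cyl_add_int`: `ex_add_int`.  `cyl_add_Y`: `Real.exp_add`, `smul_smul`.
* `cX_zero_of`: `cX x = 0` gives `x.2 = 0` for `x ≠ 0`.
* `zone_*`: `x = cyl (u, Y, X)`, `|X| < x₁ ≤ 1`.
-/

open scoped Manifold ContDiff Topology
open Complex (I normSq)

namespace Pool.Agent.CHO

open Pool.Agent.CSG (vec pt act stp)
open Pool.Agent.RSG (pS3 ex)
open Pool.Agent.PTH (SP ISP)
open Pool.Agent.CHW (F3 q2 rr mir cyl zone)

theorem rr_nonneg (x : F3) : 0 ≤ rr x := Real.sqrt_nonneg _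

theorem CylM_q2_nn (x : F3) : 0 ≤ q2 x := add_nonneg (Complex.normSq_nonneg _) (sq_nonneg _)

theorem CylM_q2 {x : F3} (h : q2 x = 0) : x = 0 := by
  have h1 := Complex.normSq_nonneg x.1
  have h2 := sq_nonneg x.2
  have h3 : normSq x.1 + x.2 ^ 2 = 0 := h
  have h4 : normSq x.1 = 0 := by linarith
  have h5 : x.2 ^ 2 = 0 := by linarith
  exact Prod.ext (Complex.normSq_eq_zero.1 h4) (pow_eq_zero_iff two_ne_zero |>.1 h5)

theorem rr_pos {x : F3} : 0 < rr x ↔ x ≠ 0 := by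
  unfold rr
  rw [Real.sqrt_pos]
  constructor
  · rintro h rfl
    unfold q2 at h
    simp at h
  · intro h
    exact lt_of_le_of_ne (CylM_q2_nn x) fun h1 => h (CylM_q2 h1.symm)

theorem CylM_zero : rr (0 : F3) = 0 := by
  unfold rr q2
  simp

theorem rr_smul {r : ℝ} (hr : 0 ≤ r) (x : F3) : rr (r • x) = r * rr x := by
  have h1 : q2 (r • x) = r ^ 2 * q2 x := by
    show normSq (r • x.1) + (r * x.2) ^ 2 = r ^ 2 * (normSq x.1 + x.2 ^ 2)
    rw [Complex.real_smul, Complex.normSq_mul, Complex.normSq_ofReal]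
    ring
  unfold rr
  rw [h1, Real.sqrt_mul (sq_nonneg r), Real.sqrt_sq hr]

theorem rr_mir (x : F3) : rr (mir x) = rr x := by
  show Real.sqrt (normSq x.1 + (-x.2) ^ 2) = Real.sqrt (normSq x.1 + x.2 ^ 2)
  rw [neg_sq]

theorem mir_mir (x : F3) : mir (mir x) = x := by
  unfold mir
  simp

theorem mir_smul (r : ℝ) (x : F3) : mir (r • x) = r • mir x := by
  refine Prod.ext rfl ?_
  show -(r * x.2) = r * (-x.2)
  ring

theorem mir_ne {x : F3} (h : x ≠ 0) : mir x ≠ 0 := by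
  rw [← rr_pos, rr_mir, rr_pos]
  exact h

theorem cX_mir (x : F3) : cX (mir x) = -cX x := by
  unfold cX
  rw [rr_mir]
  exact neg_div _ _

theorem cX_smul {r : ℝ} (hr : 0 < r) (x : F3) : cX (r • x) = cX x := by
  unfold cX
  rw [rr_smul hr.le]
  exact mul_div_mul_left _ _ hr.ne'

theorem CylM_abs (x : F3) : |x.2| ≤ rr x := by
  refine Real.abs_le_sqrt ?_
  have h1 := Complex.normSq_nonneg x.1
  show x.2 ^ 2 ≤ normSq x.1 + x.2 ^ 2
  linarith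

theorem abs_cX_le (x : F3) : |cX x| ≤ 1 := by
  unfold cX
  rw [abs_div, abs_of_nonneg (rr_nonneg x)]
  exact div_le_one_of_le₀ (CylM_abs x) (rr_nonneg x)

theorem cX_sign {x : F3} (h : x ≠ 0) : (0 < cX x ↔ 0 < x.2) ∧ (cX x < 0 ↔ x.2 < 0) ∧ (cX x = 0 ↔ x.2 = 0) := by
  have hr := rr_pos.2 h
  unfold cX
  refine ⟨div_pos_iff_of_pos_right hr, ?_, ?_⟩
  · constructor
    · intro h1
      by_contra h2
      exact absurd (div_nonneg (not_lt.1 h2) hr.le) (not_le.2 h1)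
    · intro h1
      exact div_neg_of_neg_of_pos h1 hr
  · rw [div_eq_zero_iff]
    exact or_iff_left hr.ne'

theorem dm_iff (x : F3) : Dm x ↔ x ≠ 0 ∧ -1 < cX x := by
  unfold Dm cX
  by_cases h : x = 0
  · subst h
    rw [CylM_zero]
    simp
  · have hr := rr_pos.2 h
    rw [lt_div_iff₀ hr]
    constructor
    · intro h1
      exact ⟨h, by linarith⟩
    · rintro ⟨-, h1⟩
      linarith

theorem dm_ne {x : F3} (h : Dm x) : x ≠ 0 := ((dm_iff x).1 h).1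

theorem dm_of_nonneg {x : F3} (h : x ≠ 0) (h2 : 0 ≤ x.2) : Dm x := by
  have hr := rr_pos.2 h
  show 0 < rr x + x.2
  linarith

theorem dm_smul {r : ℝ} (hr : 0 < r) (x : F3) : Dm (r • x) ↔ Dm x := by
  unfold Dm
  rw [rr_smul hr.le]
  show 0 < r * rr x + r * x.2 ↔ _
  rw [← mul_add]
  exact mul_pos_iff_of_pos_left hr

theorem CylM_cont : Continuous rr := by
  unfold rr q2
  exact Real.continuous_sqrt.comp
    ((Complex.continuous_normSq.comp continuous_fst).add (continuous_snd.pow 2))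

theorem dm_isOpen : IsOpen {x : F3 | Dm x} := by
  unfold Dm
  exact isOpen_lt continuous_const (CylM_cont.add continuous_snd)

theorem rr_cyl {u Y X : ℝ} (h : |X| ≤ 1) : rr (cyl (u, Y, X)) = Real.exp Y := by
  have h1 : 0 ≤ 1 - X ^ 2 := by
    have := (sq_le_one_iff_abs_le_one X).2 h
    linarith
  unfold cyl
  rw [rr_smul (Real.exp_pos _).le]
  have h2 : rr ((((Real.sqrt (1 - X ^ 2) : ℝ) : ℂ) * ex u, X) : F3) = 1 := by
    show Real.sqrt (normSq (((Real.sqrt (1 - X ^ 2) : ℝ) : ℂ) * ex u) + X ^ 2) = 1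
    rw [Complex.normSq_mul, Complex.normSq_ofReal, Complex.normSq_eq_norm_sq (ex u),
      Pool.Agent.RSG.ex_norm, one_pow, mul_one, Real.mul_self_sqrt h1, sub_add_cancel, Real.sqrt_one]
  simp only
  rw [h2, mul_one]

theorem cX_cyl {u Y X : ℝ} (h : |X| ≤ 1) : cX (cyl (u, Y, X)) = X := by
  unfold cX
  rw [rr_cyl h]
  exact mul_div_cancel_left₀ X (Real.exp_pos Y).ne'

theorem mir_cyl (u Y X : ℝ) : mir (cyl (u, Y, X)) = cyl (u, Y, -X) := by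
  unfold cyl
  rw [mir_smul]
  simp only [neg_sq]
  rfl

theorem cyl_add_int (u Y X : ℝ) (j : ℤ) : cyl (u + j, Y, X) = cyl (u, Y, X) := by
  unfold cyl
  simp only [Pool.Agent.RSG.ex_add_int]

theorem cyl_add_Y (u Y X b : ℝ) : cyl (u, Y + b, X) = Real.exp b • cyl (u, Y, X) := by
  unfold cyl
  simp only
  rw [smul_smul, ← Real.exp_add, add_comm b Y]

theorem cyl_ne {u Y X : ℝ} (h : |X| ≤ 1) : cyl (u, Y, X) ≠ 0 := by
  rw [← rr_pos, rr_cyl h]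
  exact Real.exp_pos Y

theorem dm_cyl {u Y X : ℝ} (h : |X| < 1) : Dm (cyl (u, Y, X)) := by
  rw [dm_iff, cX_cyl h.le]
  exact ⟨cyl_ne h.le, (abs_lt.1 h).1⟩

theorem zone_ne {d x₁ : ℝ} {n : ℤ} {x : F3} (h1 : x₁ ≤ 1) (h : x ∈ zone d x₁ n) : x ≠ 0 := by
  obtain ⟨u, Y, X, -, h2, rfl⟩ := h
  exact cyl_ne (h2.le.trans h1)

theorem zone_cX {d x₁ : ℝ} {n : ℤ} {x : F3} (h1 : x₁ ≤ 1) (h : x ∈ zone d x₁ n) : |cX x| < x₁ := by
  obtain ⟨u, Y, X, -, h2, rfl⟩ := h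
  rw [cX_cyl (h2.le.trans h1)]
  exact h2

theorem zone_dm {d x₁ : ℝ} {n : ℤ} {x : F3} (h1 : x₁ ≤ 1) (h : x ∈ zone d x₁ n) : Dm x := by
  obtain ⟨u, Y, X, -, h2, rfl⟩ := h
  exact dm_cyl (h2.trans_le h1)

theorem zone_mir {d x₁ : ℝ} {n : ℤ} {x : F3} (h : x ∈ zone d x₁ n) : mir x ∈ zone d x₁ n := by
  obtain ⟨u, Y, X, h3, h2, rfl⟩ := h
  exact ⟨u, Y, -X, h3, by rwa [abs_neg], mir_cyl u Y X⟩

end Pool.Agent.CHO
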