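import Pool.Agent.CHW.WD
import Pool.Agent.CSP.Defs
import Pool.Agent.CSP.AlDefs
import Pool.Agent.GLB.Psi

/-!
# CHO/Defs: the open book structure of `S3 × S1` from the chart `W` of the double of the solid torus
(MP_cb9bff_gt (II), CSP, step III)

`F3 = C × R`, `x = (w, h)`, `r = rr x`.  Points of `R³` are `x = pt τ u Y`.
* `E1 v m`, `E2 v m'` : the charts `F3 × R → S3 × S1`, defined for `0 < r + h` (`Dm x`).
* `Rr d₀ a` : rotation (by the angle `a`) of the discs of radius `2 d₀` around the lattice axes, identity outside the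
  discs of radius `3 d₀`.
* `Gam X = κ (sg X) ∘ Rr (k sg X)`, `sg X = 1` for `X ≤ x₁`, `0` for `X ≥ 2 x₁`.
* `Ga` : the self-map of `{r + h > 0} × R` given by `Gam` in cylindrical coordinates, `E2t = E2 ∘ Ga`.
* `Th`, `Tb`, `kK` : the charts of the open book.
-/

open scoped Manifold ContDiff Topology
open Complex (I normSq)

namespace Pool.Agent.CHO

open Pool.Agent.CSG (vec pt act stp)
open Pool.Agent.TS (OffAx)
open Pool.Agent.RSG (pS3 ex)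
open Pool.Agent.PTH (SP ISP gact)
open Pool.Agent.CHW (F3 q2 rr mir cyl zone WD Gd OnB OnK)
open Pool.Agent.CSP (KapOK OB OnCT)

/-- `R³` -/
abbrev E3 := Pool.Agent.CSG.E3
abbrev Z3 := ℤ × ℤ × ℤ

/-! ## the charts -/

/-- the first chart -/
noncomputable def E1 (v m : Z3) (p : F3 × ℝ) : SP :=
  (pS3 (p.1.1 * ex (Real.log (rr p.1) * m.1 + p.2 * v.1))
      (((rr p.1 + p.1.2 : ℝ) : ℂ) * ex (Real.log (rr p.1) * m.2.1 + p.2 * v.2.1)),
    Circle.exp (2 * Real.pi * (Real.log (rr p.1) * m.2.2 + p.2 * v.2.2)))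

/-- the second chart -/
noncomputable def E2 (v m : Z3) (p : F3 × ℝ) : SP :=
  (pS3 (((rr p.1 + p.1.2 : ℝ) : ℂ) * ex (Real.log (rr p.1) * m.1 + p.2 * v.1))
      (p.1.1 * ex (Real.log (rr p.1) * m.2.1 + p.2 * v.2.1)),
    Circle.exp (2 * Real.pi * (Real.log (rr p.1) * m.2.2 + p.2 * v.2.2)))

/-- the domain: `x` is not on the negative axis -/
def Dm (x : F3) : Prop := 0 < rr x + x.2

/-- `h / r` -/
noncomputable def cX (x : F3) : ℝ := x.2 / rr x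

/-- cylindrical coordinates, `x = pt τ u Y` -/
noncomputable def cE (x : E3) (X : ℝ) : F3 × ℝ := (cyl (x 1, x 2, X), x 0)

noncomputable def toE (p : F3 × ℝ) : E3 :=
  pt p.2 (Complex.arg p.1.1 / (2 * Real.pi)) (Real.log (rr p.1))

/-- the point with angles `a` and height `X` -/
noncomputable def PX (X : ℝ) (a : ℝ × ℝ × ℝ) : SP :=
  (pS3 ((Real.sqrt (1 - X) : ℝ) * ex a.1) ((Real.sqrt (1 + X) : ℝ) * ex a.2.1),
    Circle.exp (2 * Real.pi * a.2.2))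

/-- the angles `M x`, `M = (v, e₀, m)` -/
noncomputable def Mv (v m : Z3) (x : E3) : ℝ × ℝ × ℝ :=
  (x 0 * v.1 + x 1 + x 2 * m.1, x 0 * v.2.1 + x 2 * m.2.1, x 0 * v.2.2 + x 2 * m.2.2)

/-- the angles `M C x`, `M C = (v, e₁, m')` -/
noncomputable def Mw (v m : Z3) (x : E3) : ℝ × ℝ × ℝ :=
  (x 0 * v.1 + x 2 * m.1, x 0 * v.2.1 + x 1 + x 2 * m.2.1, x 0 * v.2.2 + x 2 * m.2.2)

/-- `M = (v, e₀, m)` is unimodular and `M C = (v, e₁, m')` -/
structure Alg (C : Matrix (Fin 3) (Fin 3) ℤ) (v m m' : Z3) : Prop where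
  c00 : C 0 0 = 1
  c10 : C 1 0 = 0
  c20 : C 2 0 = 0
  det : C 1 1 * C 2 2 - C 1 2 * C 2 1 = 1
  uni : v.2.1 * m.2.2 - m.2.1 * v.2.2 = 1
  uni' : v.1 * m'.2.2 - m'.1 * v.2.2 = -1
  e1x : C 0 1 * v.1 + C 1 1 + C 2 1 * m.1 = 0
  e1y : C 0 1 * v.2.1 + C 2 1 * m.2.1 = 1
  e1z : C 0 1 * v.2.2 + C 2 1 * m.2.2 = 0
  e2x : C 0 2 * v.1 + C 1 2 + C 2 2 * m.1 = m'.1
  e2y : C 0 2 * v.2.1 + C 2 2 * m.2.1 = m'.2.1
  e2z : C 0 2 * v.2.2 + C 2 2 * m.2.2 = m'.2.2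

/-! ## the twist of the second chart -/

/-- `(x 2 - n) + i (x 1 - m)`, `(m, n)` the nearest lattice point -/
noncomputable def dz (x : E3) : ℂ := ⟨x 2 - round (x 2), x 1 - round (x 1)⟩

/-- square of the distance to the axes -/
noncomputable def dl (x : E3) : ℝ := normSq (dz x)

/-- `1` for `s ≤ (2 d₀)²`, `0` for `s ≥ (3 d₀)²` -/
noncomputable def chi (d₀ s : ℝ) : ℝ := 1 - stp ((2 * d₀) ^ 2) ((3 * d₀) ^ 2) s

/-- rotation of the discs around the axes -/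
noncomputable def Rr (d₀ a : ℝ) (x : E3) : E3 :=
  pt (x 0) (round (x 1) + (ex (a * chi d₀ (dl x)) * dz x).im)
    (round (x 2) + (ex (a * chi d₀ (dl x)) * dz x).re)

/-- `1` for `X ≤ x₁`, `0` for `X ≥ 2 x₁` -/
noncomputable def sg (x₁ X : ℝ) : ℝ := 1 - stp x₁ (2 * x₁) X

/-- parameters -/
structure Pm where
  C : Matrix (Fin 3) (Fin 3) ℤ
  κ : ℝ → Equiv.Perm E3
  δ : ℝ
  d₀ : ℝ
  x₁ : ℝ
  k : ℤ
  v : Z3
  m : Z3
  m' : Z3

structure Pm.Ok (P : Pm) : Prop where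
  alg : Alg P.C P.v P.m P.m'
  kap : KapOK P.C P.κ P.δ
  d₀_pos : 0 < P.d₀
  hd : 4 * P.d₀ < P.δ
  x₁_pos : 0 < P.x₁
  x₁_lt : P.x₁ < 1 / 16

variable (P : Pm)

/-- the twist at height `X` -/
noncomputable def Gam (X : ℝ) (x : E3) : E3 := P.κ (sg P.x₁ X) (Rr P.d₀ (P.k * sg P.x₁ X) x)

noncomputable def Gami (X : ℝ) (x : E3) : E3 := Rr P.d₀ (-(P.k * sg P.x₁ X)) ((P.κ (sg P.x₁ X)).symm x)

/-- the twist on `{r + h > 0} × R` -/
noncomputable def Ga (p : F3 × ℝ) : F3 × ℝ := cE (Gam P (cX p.1) (toE p)) (cX p.1)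

/-- the twisted second chart -/
noncomputable def E2t (p : F3 × ℝ) : SP := E2 P.v P.m' (Ga P p)

/-- the first chart -/
noncomputable def E1t (p : F3 × ℝ) : SP := E1 P.v P.m p

/-! ## the open book -/

section
variable {P} {ε : ℝ} (D : WD P.d₀ P.x₁ ε)

/-- without the rotation of the discs -/
noncomputable def Thu (q : E3 × ℝ) : SP := by
  classical exact
    if q.2 ≤ 1 / 2 then E1t P (D.W (q.1 1, q.1 2, q.2), q.1 0)
    else E2t P (mir (D.W (q.1 1, q.1 2, q.2)), q.1 0)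

/-- the rotation of the discs -/
noncomputable def Gt (P : Pm) (t : ℝ) (x : E3) : E3 := Rr P.d₀ (-(P.k * (t - 1 / 2))) x

noncomputable def Th (q : E3 × ℝ) : SP := Thu D (Gt P q.2 q.1, q.2)

noncomputable def Tb (q : ℝ × ℝ × ℂ) : SP := E1t P (D.Wb (q.1, q.2.2), q.2.1)

open Classical in
/-- chart of the torus `K`; for `‖v‖ < 1` it is `E2t (mir (Wk (l, v)), t)` or `E1t (Wk (l, v), t)` (`kK_one`, `kK_two`) -/
noncomputable def kK (q : ℝ × ℂ × ℝ) : SP :=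
  gact P.v q.2.2
    (if 0 < Int.fract q.1 ∧ Int.fract q.1 < 1 / 2 then E2t P (mir (D.Wk (q.1, q.2.1)), 0)
      else E1t P (D.Wk (q.1, q.2.1), 0))

end

end Pool.Agent.CHO
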