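import Pool.Agent.CHO.RrM
import Pool.Agent.CSG.LDa
import Pool.Agent.CSG.LDb

/-!
# CHO/RrS: the rotation of the discs is smooth   (difficulty 2)

`(x, a) ↦ Rr d₀ a x` at `(x₀, a₀)`:
* if `dl x₀ < 1/5`: let `i = round (x₀ 1)`, `j = round (x₀ 2)`; near `x₀`, `(x 1 - i)² + (x 2 - j)² < 1/4` (continuity), so `Rr` is given by
  `Rr_near` with `dl x = (x 1 - i)² + (x 2 - j)²` (`dl_near`): a smooth expression (`stp_smooth`, `RSG.ex_smooth`, `Complex.mul`, ..).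
* if `dl x₀ ≥ 1/5`, then near `x₀` `dl x ≥ (3 d₀)²` (`(3/8)² < 1/5 `; `dl` is continuous? avoid this: for `x` near `x₀` and ALL integers
  `a, b`: `(x 1 - a)² + (x 2 - b)²` is the square of a distance, so `√(dl x) ≥ √(dl x₀) - |x - x₀|`), so `Rr a x = x` (`Rr_off`).
  (`dl_continuous` is such a statement: prove it first: `√dl` is 1-Lipschitz since it is the minimum of distances: `dl_le`, `dl_round`.)
* `Rr_perm`: inverse `Rr (-a)` (`Rr_add`, `Rr_zero`).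
-/

open scoped Manifold ContDiff Topology
open Complex (I normSq)

namespace Pool.Agent.CHO

open Pool.Agent.CSG (vec pt act stp)
open Pool.Agent.RSG (ex)

variable {d₀ : ℝ}

theorem dl_continuous : Continuous dl := by
  have h : dl = fun x : E3 => ‖((x 1 : ℝ) : UnitAddCircle)‖ ^ 2 + ‖((x 2 : ℝ) : UnitAddCircle)‖ ^ 2 := by
    funext x
    rw [dl_round, UnitAddCircle.norm_eq, UnitAddCircle.norm_eq, sq_abs, sq_abs]
  rw [h]
  have h1 : Continuous fun x : E3 => ((x 1 : ℝ) : UnitAddCircle) :=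
    (AddCircle.continuous_mk' 1).comp (EuclideanSpace.proj 1 : E3 →L[ℝ] ℝ).continuous
  have h2 : Continuous fun x : E3 => ((x 2 : ℝ) : UnitAddCircle) :=
    (AddCircle.continuous_mk' 1).comp (EuclideanSpace.proj 2 : E3 →L[ℝ] ℝ).continuous
  exact (h1.norm.pow 2).add (h2.norm.pow 2)

theorem RrS_coord (i : Fin 3) : ContDiff ℝ ∞ fun q : E3 × ℝ => q.1 i :=
  (EuclideanSpace.proj i : E3 →L[ℝ] ℝ).contDiff.comp contDiff_fst

theorem RrS_G (d₀ : ℝ) (i j : ℤ) : ContDiff ℝ ∞ fun q : E3 × ℝ =>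
    pt (q.1 0) (i + (ex (q.2 * chi d₀ ((q.1 1 - i) ^ 2 + (q.1 2 - j) ^ 2)) * ⟨q.1 2 - j, q.1 1 - i⟩).im)
      (j + (ex (q.2 * chi d₀ ((q.1 1 - i) ^ 2 + (q.1 2 - j) ^ 2)) * ⟨q.1 2 - j, q.1 1 - i⟩).re) := by
  have h1 : ContDiff ℝ ∞ fun q : E3 × ℝ => q.1 1 - (i : ℝ) := (RrS_coord 1).sub contDiff_const
  have h2 : ContDiff ℝ ∞ fun q : E3 × ℝ => q.1 2 - (j : ℝ) := (RrS_coord 2).sub contDiff_const
  have h3 : ContDiff ℝ ∞ fun q : E3 × ℝ => (⟨q.1 2 - j, q.1 1 - i⟩ : ℂ) :=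
    Complex.equivRealProdCLM.symm.contDiff.comp (h2.prodMk h1)
  have h4 : ContDiff ℝ ∞ fun q : E3 × ℝ => chi d₀ ((q.1 1 - i) ^ 2 + (q.1 2 - j) ^ 2) :=
    contDiff_const.sub ((Pool.Agent.CSG.stp_smooth _ _).comp ((h1.pow 2).add (h2.pow 2)))
  have h5 : ContDiff ℝ ∞ fun q : E3 × ℝ =>
      ex (q.2 * chi d₀ ((q.1 1 - i) ^ 2 + (q.1 2 - j) ^ 2)) * ⟨q.1 2 - j, q.1 1 - i⟩ :=
    (Pool.Agent.RSG.ex_smooth.comp (contDiff_snd.mul h4)).mul h3
  rw [contDiff_euclidean]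
  intro k
  fin_cases k
  · simpa using RrS_coord 0
  · have := contDiff_const (c := (i : ℝ)) |>.add (Complex.imCLM.contDiff.comp h5)
    simpa using this
  · have := contDiff_const (c := (j : ℝ)) |>.add (Complex.reCLM.contDiff.comp h5)
    simpa using this

theorem Rr_smooth (hd : 0 < d₀) (hd' : d₀ < 1 / 8) : ContDiff ℝ ∞ fun q : E3 × ℝ => Rr d₀ q.2 q.1 := by
  rw [contDiff_iff_contDiffAt]
  rintro ⟨x₀, a₀⟩
  rcases lt_or_ge (dl x₀) (1 / 5) with h | h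
  · set i := round (x₀ 1) with hi
    set j := round (x₀ 2) with hj
    have hc : Continuous fun q : E3 × ℝ => (q.1 1 - (i : ℝ)) ^ 2 + (q.1 2 - (j : ℝ)) ^ 2 :=
      ((((RrS_coord 1).sub contDiff_const).pow 2).add (((RrS_coord 2).sub contDiff_const).pow 2)).continuous
    have h0 : (x₀ 1 - (i : ℝ)) ^ 2 + (x₀ 2 - (j : ℝ)) ^ 2 < 1 / 4 := by
      have := dl_round x₀
      rw [← hi, ← hj] at this
      linarith
    have he : ∀ᶠ q : E3 × ℝ in 𝓝 (x₀, a₀), (q.1 1 - (i : ℝ)) ^ 2 + (q.1 2 - (j : ℝ)) ^ 2 < 1 / 4 :=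
      hc.continuousAt.eventually (gt_mem_nhds h0)
    refine (RrS_G d₀ i j).contDiffAt.congr_of_eventuallyEq ?_
    filter_upwards [he] with q hq
    rw [Rr_near q.2 hq, (dl_near hq).2.2.2]
  · have he : ∀ᶠ q : E3 × ℝ in 𝓝 (x₀, a₀), (9 / 64 : ℝ) < dl q.1 :=
      (dl_continuous.comp continuous_fst).continuousAt.eventually (lt_mem_nhds (by
        show (9 / 64 : ℝ) < dl x₀
        linarith))
    refine contDiffAt_fst.congr_of_eventuallyEq ?_
    filter_upwards [he] with q hq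
    refine Rr_off hd q.2 ?_
    nlinarith

end Pool.Agent.CHO
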