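import Pool.Agent.CHO.ThD
import Pool.Agent.CHO.E12t
import Pool.Agent.CHO.RrS

/-!
# CHO/ThL: `Th` is a local diffeomorphism   (difficulty 3)

* `Thu_lo`, `Thu_hi`: definition.  `Thu_half'`: `W_half_zone` and `E2t_zone`.
* `WE_ld`: `(x, t) ↦ (W (x 1, x 2, t), x 0)`, `E3 × ℝ → F3 × ℝ`, is a local diffeomorphism at `Gd` points: linear isomorphism
  `(x, t) ↦ ((x 1, x 2, t), x 0)` and `W × id` (field `loc`, `RSG.ld_prodMap`).  Also composed with `mir × id` (`mir` is a linear isomorphism).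
* `Thu_ld` at `(x, t)`: `t < 1/2`: near it `Thu = E1t ∘ WE` (`E1t_ld`, `W_dm`).  `t > 1/2`: `Thu = E2t ∘ (mir × id) ∘ WE` (`E2t_ld`, `W_dm'`).
  `t = 1/2`: `W (x 1, x 2, 1/2)` is in an open zone (`W_half_zone`, `zone_isOpen`, `x₁ ≤ 1`), so near `(x, 1/2)` the point `W (..)` is in the zone
  (continuity: `CSG.ld_continuousAt` of `WE_ld`) and `Thu = E1t ∘ WE` there in both cases (`E2t_zone`); `CSG.ld_congr`.
* `Gt_ld`: `(x, t) ↦ (Gt P t x, t)`: smooth (`Rr_smooth`) with smooth inverse `(x, t) ↦ (Rr d₀ (k (t - 1/2)) x, t)` (`Rr_add`, `Rr_zero`): `CSG.ld_of_perm` or `RSG.ld_two`.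
* `Gt_offax`: `Rr_offax`.  `Gt_onCT`: if `t = 1/2` then `Gt = id` (`Rr_zero`).
* `Th_ld`: composition.
-/

open scoped Manifold ContDiff Topology
open Complex (I normSq)

namespace Pool.Agent.CHO

open Pool.Agent.CSG (vec pt act stp)
open Pool.Agent.TS (OffAx)
open Pool.Agent.RSG (ex)
open Pool.Agent.PTH (SP ISP gact)
open Pool.Agent.CSP (OnCT)
open Pool.Agent.CHW (F3 q2 rr mir cyl zone WD Gd OnB OnK)

variable {P : Pm} {ε : ℝ} (D : WD P.d₀ P.x₁ ε)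

theorem Thu_lo (x : E3) {t : ℝ} (h : t ≤ 1 / 2) : Thu D (x, t) = E1t P (D.W (x 1, x 2, t), x 0) := by
  unfold Thu
  simp only
  rw [if_pos h]

theorem Thu_hi (x : E3) {t : ℝ} (h : 1 / 2 < t) : Thu D (x, t) = E2t P (mir (D.W (x 1, x 2, t)), x 0) := by
  unfold Thu
  simp only
  rw [if_neg (not_le.2 h)]

theorem Thu_half' (hP : P.Ok) {x : E3} (h : Gd (x 1, x 2, 1 / 2)) :
    Thu D (x, 1 / 2) = E2t P (mir (D.W (x 1, x 2, 1 / 2)), x 0) := by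
  rw [Thu_lo D x le_rfl]
  obtain ⟨n, hn⟩ := W_half_zone D h
  exact (E2t_zone hP hn _).symm

/-- reordering of the coordinates -/
noncomputable def ThLp : (E3 × ℝ) ≃ ((ℝ × ℝ × ℝ) × ℝ) where
  toFun q := ((q.1 1, q.1 2, q.2), q.1 0)
  invFun p := (pt p.2 p.1.1 p.1.2.1, p.1.2.2)
  left_inv q := by
    refine Prod.ext ?_ rfl
    exact RrM_pt q.1
  right_inv p := by
    simp [pt]

theorem ThLp_ld (q : E3 × ℝ) :
    IsLocalDiffeomorphAt 𝓘(ℝ, E3 × ℝ) 𝓘(ℝ, (ℝ × ℝ × ℝ) × ℝ) ∞ (fun q : E3 × ℝ => ((q.1 1, q.1 2, q.2), q.1 0)) q := by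
  have h1 : ContDiff ℝ ∞ ThLp :=
    ((RrS_coord 1).prodMk ((RrS_coord 2).prodMk contDiff_snd)).prodMk (RrS_coord 0)
  have h2 : ContDiff ℝ ∞ ThLp.symm := by
    have e : (ThLp.symm : (ℝ × ℝ × ℝ) × ℝ → E3 × ℝ) = fun p => (pt p.2 p.1.1 p.1.2.1, p.1.2.2) := rfl
    rw [e]
    refine ContDiff.prodMk ?_ (contDiff_snd.comp (contDiff_snd.comp contDiff_fst))
    rw [contDiff_euclidean]
    intro i
    fin_cases i
    · simpa [pt] using contDiff_snd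
    · have h3 : ContDiff ℝ ∞ fun p : (ℝ × ℝ × ℝ) × ℝ => p.1.1 := by fun_prop
      simpa [pt] using h3
    · have h3 : ContDiff ℝ ∞ fun p : (ℝ × ℝ × ℝ) × ℝ => p.1.2.1 := by fun_prop
      simpa [pt] using h3
  exact CSG.ld_of_perm h1 h2 q

theorem WE_ld {x : E3} {t : ℝ} (h : Gd (x 1, x 2, t)) :
    IsLocalDiffeomorphAt 𝓘(ℝ, E3 × ℝ) 𝓘(ℝ, F3 × ℝ) ∞ (fun q : E3 × ℝ => (D.W (q.1 1, q.1 2, q.2), q.1 0)) (x, t) := by
  have h1 := RSG.ld_prodMap (D.loc _ h) (CSG.ld_id (I := 𝓘(ℝ, ℝ)) (n := ∞) (x 0))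
  rw [← modelWithCornersSelf_prod, chartedSpaceSelf_prod, ← modelWithCornersSelf_prod, chartedSpaceSelf_prod] at h1
  exact IsLocalDiffeomorphAt.comp (hf := ThLp_ld (x, t)) (g := Prod.map D.W id) (hg := h1) ..

theorem ThL_mir (x : F3 × ℝ) :
    IsLocalDiffeomorphAt 𝓘(ℝ, F3 × ℝ) 𝓘(ℝ, F3 × ℝ) ∞ (fun q : F3 × ℝ => (mir q.1, q.2)) x := by
  have hs : ContDiff ℝ ∞ (fun q : F3 × ℝ => (mir q.1, q.2)) := by
    unfold mir
    fun_prop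
  have h := CSG.ld_of_perm (f := (⟨fun q : F3 × ℝ => (mir q.1, q.2), fun q : F3 × ℝ => (mir q.1, q.2),
    fun q => by simp [mir], fun q => by simp [mir]⟩ : F3 × ℝ ≃ F3 × ℝ)) hs hs x
  exact h

theorem WM_ld {x : E3} {t : ℝ} (h : Gd (x 1, x 2, t)) :
    IsLocalDiffeomorphAt 𝓘(ℝ, E3 × ℝ) 𝓘(ℝ, F3 × ℝ) ∞ (fun q : E3 × ℝ => (mir (D.W (q.1 1, q.1 2, q.2)), q.1 0)) (x, t) :=
  IsLocalDiffeomorphAt.comp (hf := WE_ld D h) (g := fun q : F3 × ℝ => (mir q.1, q.2)) (hg := ThL_mir _) ..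

theorem Thu_ld (hP : P.Ok) {x : E3} {t : ℝ} (h0 : -(1 / 8) < t) (h1 : t < 9 / 8) (h : Gd (x 1, x 2, t)) :
    IsLocalDiffeomorphAt 𝓘(ℝ, E3 × ℝ) ISP ∞ (Thu D) (x, t) := by
  have hE1 : t ≤ 1 / 2 → IsLocalDiffeomorphAt 𝓘(ℝ, E3 × ℝ) ISP ∞
      (fun q : E3 × ℝ => E1t P (D.W (q.1 1, q.1 2, q.2), q.1 0)) (x, t) := fun ht =>
    IsLocalDiffeomorphAt.comp (hf := WE_ld D h) (g := E1t P) (hg := E1t_ld hP (W_dm D h h0.le ht) _) ..
  rcases lt_trichotomy t (1 / 2) with ht | ht | ht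
  · refine CSG.ld_congr (hE1 ht.le) ?_
    have hn : {q : E3 × ℝ | q.2 < 1 / 2} ∈ nhds (x, t) := (isOpen_lt continuous_snd continuous_const).mem_nhds ht
    filter_upwards [hn] with q hq
    exact Thu_lo D q.1 (le_of_lt hq)
  · subst ht
    refine CSG.ld_congr (hE1 le_rfl) ?_
    obtain ⟨n, hn⟩ := W_half_zone D h
    have hx := D.x₁_lt
    have ho : IsOpen (zone (2 * P.d₀) P.x₁ n) := zone_isOpen (by linarith) n
    have hc : ContinuousAt (fun q : E3 × ℝ => D.W (q.1 1, q.1 2, q.2)) (x, 1 / 2) :=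
      continuousAt_fst.comp (CSG.ld_continuousAt (WE_ld D h))
    have hz : ∀ᶠ q : E3 × ℝ in nhds (x, 1 / 2), D.W (q.1 1, q.1 2, q.2) ∈ zone (2 * P.d₀) P.x₁ n :=
      hc.eventually (ho.mem_nhds hn)
    filter_upwards [hz] with q hq
    rcases le_or_gt q.2 (1 / 2) with h2 | h2
    · exact Thu_lo D q.1 h2
    · exact (Thu_hi D q.1 h2).trans (E2t_zone hP hq _)
  · have hE2 : IsLocalDiffeomorphAt 𝓘(ℝ, E3 × ℝ) ISP ∞
        (fun q : E3 × ℝ => E2t P (mir (D.W (q.1 1, q.1 2, q.2)), q.1 0)) (x, t) :=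
      IsLocalDiffeomorphAt.comp (hf := WM_ld D h) (g := E2t P) (hg := E2t_ld hP (W_dm' D h ht.le h1.le) _) ..
    refine CSG.ld_congr hE2 ?_
    have hn : {q : E3 × ℝ | 1 / 2 < q.2} ∈ nhds (x, t) := (isOpen_lt continuous_const continuous_snd).mem_nhds ht
    filter_upwards [hn] with q hq
    exact Thu_hi D q.1 hq

theorem Gt_inv (hP : P.Ok) (t : ℝ) (x : E3) : Gt P t (Rr P.d₀ (P.k * (t - 1 / 2)) x) = x ∧
    Rr P.d₀ (P.k * (t - 1 / 2)) (Gt P t x) = x := by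
  unfold Gt
  constructor
  · rw [Rr_add hP.d₀_pos hP.d₀_lt, neg_add_cancel, Rr_zero]
  · rw [Rr_add hP.d₀_pos hP.d₀_lt, add_neg_cancel, Rr_zero]

theorem Gt_ld (hP : P.Ok) (q : E3 × ℝ) :
    IsLocalDiffeomorphAt 𝓘(ℝ, E3 × ℝ) 𝓘(ℝ, E3 × ℝ) ∞ (fun q : E3 × ℝ => (Gt P q.2 q.1, q.2)) q := by
  have hr := Rr_smooth hP.d₀_pos hP.d₀_lt
  have h1 : ContDiff ℝ ∞ fun q : E3 × ℝ => Gt P q.2 q.1 := by
    unfold Gt
    exact hr.comp (contDiff_fst.prodMk (contDiff_const.mul (contDiff_snd.sub contDiff_const)).neg)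
  have h2 : ContDiff ℝ ∞ fun q : E3 × ℝ => Rr P.d₀ (P.k * (q.2 - 1 / 2)) q.1 :=
    hr.comp (contDiff_fst.prodMk (contDiff_const.mul (contDiff_snd.sub contDiff_const)))
  have h := CSG.ld_of_family (g := fun t => (⟨Gt P t, Rr P.d₀ (P.k * (t - 1 / 2)), fun x => (Gt_inv hP t x).2,
    fun x => (Gt_inv hP t x).1⟩ : E3 ≃ E3)) h1 h2 q.1 q.2
  exact h

theorem Gt_vec (t : ℝ) (x : E3) (m : Fin 3 → ℤ) : Gt P t (x + vec m) = Gt P t x + vec m :=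
  Rr_vec _ _ _

theorem Gt_offax (hP : P.Ok) (t : ℝ) (x : E3) : OffAx (Gt P t x) ↔ OffAx x :=
  Rr_offax hP.d₀_pos hP.d₀_lt _ _

theorem Gt_half (x : E3) : Gt P (1 / 2) x = x := by
  unfold Gt
  rw [sub_self, mul_zero, neg_zero, Rr_zero]

theorem Gt_onCT (hP : P.Ok) (t : ℝ) (x : E3) : OnCT (Gt P t x) t ↔ OnCT x t := by
  unfold OnCT
  constructor
  · rintro ⟨h, h2⟩
    subst h
    rw [Gt_half] at h2
    exact ⟨rfl, h2⟩
  · rintro ⟨h, h2⟩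
    subst h
    rw [Gt_half]
    exact ⟨rfl, h2⟩

theorem Th_ld (hP : P.Ok) {x : E3} {t : ℝ} (h0 : -(1 / 8) < t) (h1 : t < 9 / 8) (h : OffAx x) (h' : ¬ OnCT x t) :
    IsLocalDiffeomorphAt 𝓘(ℝ, E3 × ℝ) ISP ∞ (Th D) (x, t) := by
  have hg : Gd ((Gt P t x) 1, (Gt P t x) 2, t) :=
    gd_of h0 h1 ((Gt_offax hP t x).2 h) (fun h2 => h' ((Gt_onCT hP t x).1 h2))
  exact IsLocalDiffeomorphAt.comp (hf := Gt_ld hP (x, t)) (g := Thu D) (hg := Thu_ld D hP h0 h1 hg) ..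

end Pool.Agent.CHO
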