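import Pool.Agent.CHO.KkD
import Pool.Agent.CHO.ThL
import Pool.Agent.CHO.TbM

/-!
# CHO/DjM: disjointness   (difficulty 2)

Write `Th (x, t) = Thu (x', t)`, `x' = Gt t x`, `Gd (x' 1, x' 2, t)` (`Gt_offax`, `Gt_onCT`, `gd_of`), `0 ≤ t < 1`; prove the statements for `Thu` first.
* `Thu_Tb`: `t ≤ 1/2`: `E1t_inj`: `W q = exp n • Wb (θ, 0)` (`Wb_dm`, `W_dm`): `b_disj`.  `t > 1/2`: `Tb (θ, x₀, 0) = E2t (mir (Wb (θ, 0)), x₀)` (`E2t_zone`, `b_zone`; `zone_mir`, `zone_dm`),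
  `E2t_inj` (`W_dm'`), `mir_smul`, `mir_mir`: again `W q = exp n • Wb (θ, 0)`.
* `Thu_kK`: `a = Int.fract l`.  `a = 0` or `a ≥ 1/2` (`kK_one`), `t ≤ 1/2`: `E1t_inj`, `k_disj`.  `a = 0` or `a ≥ 1/2`, `t > 1/2`: `E12t_ht`: heights `≥ 0` (`Wk_nonneg`) and `> 0` (`neg`): contradiction.
  `0 < a < 1/2` (`kK_two`), `t ≤ 1/2`: `E12t_ht` with heights `≥ 0` (`W_nonneg`) and `> 0` (`Wk_neg`): contradiction.  `0 < a < 1/2`, `t > 1/2`: `E2t_inj`, `k_disj`.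
* `kK_Tb`: `a = 0` or `a ≥ 1/2`: `E1t_inj`, `bk_disj` (`Wb = exp n • Wk`).  `0 < a < 1/2`: `E2t_inj` with `Tb = E2t (mir Wb)`.
-/

open scoped Manifold ContDiff Topology
open Complex (I normSq)

namespace Pool.Agent.CHO

open Pool.Agent.CSG (vec pt act stp)
open Pool.Agent.TS (OffAx)
open Pool.Agent.RSG (ex)
open Pool.Agent.PTH (SP ISP gact)
open Pool.Agent.CSP (OnCT)
open Pool.Agent.CHW (F3 q2 rr mir cyl zone WD Gd OnB OnK)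

variable {P : Pm} {ε : ℝ} (D : WD P.d₀ P.x₁ ε)

theorem DjM_smul {x y : F3} {n : ℤ} (h : mir y = Real.exp n • mir x) : y = Real.exp n • x := by
  have h1 := congrArg mir h
  rw [mir_smul, mir_mir, mir_mir] at h1
  exact h1

theorem DjM_n0 : ‖(0 : ℂ)‖ < 5 := by
  rw [norm_zero]
  norm_num

theorem DjM_n1 : ‖(0 : ℂ)‖ < 1 := by
  rw [norm_zero]
  norm_num

theorem DjM_xle (hP : P.Ok) : P.x₁ ≤ 1 := by
  have := hP.x₁_lt
  linarith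

theorem DjM_Tb (hP : P.Ok) (θ x₀ : ℝ) :
    Tb D (θ, x₀, 0) = E2t P (mir (D.Wb (θ, 0)), x₀) ∧ Dm (mir (D.Wb (θ, 0))) := by
  have hz := D.b_zone θ 0 DjM_n0
  exact ⟨(E2t_zone hP hz x₀).symm, zone_dm (DjM_xle hP) (zone_mir hz)⟩

theorem DjM_mk {l : ℝ} (h : 0 < Int.fract l ∧ Int.fract l < 1 / 2) : Dm (mir (D.Wk (l, 0))) := by
  refine dm_of_nonneg (mir_ne (Wk_ne D l DjM_n1)) ?_
  have h1 := Wk_neg D DjM_n1 h.1 h.2
  show 0 ≤ -(D.Wk (l, 0)).2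
  linarith

theorem DjM_case (l : ℝ) : (1 / 2 ≤ Int.fract l ∨ Int.fract l = 0) ∨ (0 < Int.fract l ∧ Int.fract l < 1 / 2) := by
  rcases (Int.fract_nonneg l).eq_or_lt with h | h
  · exact Or.inl (Or.inr h.symm)
  · rcases le_or_gt (1 / 2) (Int.fract l) with h' | h'
    · exact Or.inl (Or.inl h')
    · exact Or.inr ⟨h, h'⟩

theorem DjM_ok {l : ℝ} (h : 1 / 2 ≤ Int.fract l ∨ Int.fract l = 0) : Dm (D.Wk (l, 0)) :=
  dm_of_nonneg (Wk_ne D l DjM_n1) (Wk_nonneg D DjM_n1 h)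

theorem DjM_Thu_Tb (hP : P.Ok) (θ x₀ : ℝ) {x : E3} {t : ℝ} (hg : Gd (x 1, x 2, t)) (h0 : 0 ≤ t) (h1 : t < 1) :
    Tb D (θ, x₀, 0) ≠ Thu D (x, t) := by
  intro he
  rcases le_or_gt t (1 / 2) with ht | ht
  · rw [Thu_lo D x ht] at he
    obtain ⟨⟨n, hn⟩, -⟩ := E1t_inj hP (Wb_dm D θ DjM_n0) (W_dm D hg (by linarith) ht) he
    exact D.b_disj θ _ n hg hn.symm
  · rw [Thu_hi D x ht, (DjM_Tb D hP θ x₀).1] at he
    obtain ⟨⟨n, hn⟩, -⟩ := E2t_inj hP (DjM_Tb D hP θ x₀).2 (W_dm' D hg ht.le (by linarith)) he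
    exact D.b_disj θ _ n hg (DjM_smul hn).symm

theorem DjM_Thu_kK (hP : P.Ok) (l τ : ℝ) {x : E3} {t : ℝ} (hg : Gd (x 1, x 2, t)) (h0 : 0 ≤ t) (h1 : t < 1) :
    kK D (l, 0, τ) ≠ Thu D (x, t) := by
  intro he
  rcases DjM_case l with hl | hl
  · rw [kK_one D hP hl DjM_n1] at he
    rcases le_or_gt t (1 / 2) with ht | ht
    · rw [Thu_lo D x ht] at he
      obtain ⟨⟨n, hn⟩, -⟩ := E1t_inj hP (DjM_ok D hl) (W_dm D hg (by linarith) ht) he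
      exact D.k_disj l _ n hg hn.symm
    · rw [Thu_hi D x ht] at he
      have hneg := D.neg _ _ _ hg ht h1
      have h4 : 0 ≤ (mir (D.W (x 1, x 2, t))).2 := by
        show 0 ≤ -(D.W (x 1, x 2, t)).2
        linarith
      have h2 := E12t_ht (DjM_ok D hl) (W_dm' D hg ht.le (by linarith)) (Wk_nonneg D DjM_n1 hl) h4 he
      have h3 : -(D.W (x 1, x 2, t)).2 = 0 := h2.2
      linarith
  · rw [kK_two D hP hl.2.le DjM_n1] at he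
    rcases le_or_gt t (1 / 2) with ht | ht
    · rw [Thu_lo D x ht] at he
      have hneg := Wk_neg D DjM_n1 hl.1 hl.2
      have h4 : 0 ≤ (mir (D.Wk (l, 0))).2 := by
        show 0 ≤ -(D.Wk (l, 0)).2
        linarith
      have h2 := E12t_ht (W_dm D hg (by linarith) ht) (DjM_mk D hl) (W_nonneg D hg h0 ht) h4 he.symm
      have h3 : -(D.Wk (l, 0)).2 = 0 := h2.2
      linarith
    · rw [Thu_hi D x ht] at he
      obtain ⟨⟨n, hn⟩, -⟩ := E2t_inj hP (DjM_mk D hl) (W_dm' D hg ht.le (by linarith)) he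
      exact D.k_disj l _ n hg (DjM_smul hn).symm

theorem DjM_gd (hP : P.Ok) {x : E3} {t : ℝ} (h : OffAx x) (h' : ¬ OnCT x t) (h0 : 0 ≤ t) (h1 : t < 1) :
    Gd ((Gt P t x) 1, (Gt P t x) 2, t) :=
  gd_of (by linarith) (by linarith) ((Gt_offax hP t x).2 h) fun hh => h' ((Gt_onCT hP t x).1 hh)

theorem Th_Tb (hP : P.Ok) (θ x₀ : ℝ) {x : E3} {t : ℝ} (h : OffAx x) (h' : ¬ OnCT x t) (h0 : 0 ≤ t) (h1 : t < 1) :
    Tb D (θ, x₀, 0) ≠ Th D (x, t) :=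
  DjM_Thu_Tb D hP θ x₀ (DjM_gd hP h h' h0 h1) h0 h1

theorem Th_kK (hP : P.Ok) (l τ : ℝ) {x : E3} {t : ℝ} (h : OffAx x) (h' : ¬ OnCT x t) (h0 : 0 ≤ t) (h1 : t < 1) :
    kK D (l, 0, τ) ≠ Th D (x, t) :=
  DjM_Thu_kK D hP l τ (DjM_gd hP h h' h0 h1) h0 h1

theorem kK_Tb (hP : P.Ok) (l τ θ x₀ : ℝ) : kK D (l, 0, τ) ≠ Tb D (θ, x₀, 0) := by
  intro he
  rcases DjM_case l with hl | hl
  · rw [kK_one D hP hl DjM_n1] at he
    obtain ⟨⟨n, hn⟩, -⟩ := E1t_inj hP (DjM_ok D hl) (Wb_dm D θ DjM_n0) he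
    exact D.bk_disj l θ n hn.symm
  · rw [kK_two D hP hl.2.le DjM_n1, (DjM_Tb D hP θ x₀).1] at he
    obtain ⟨⟨n, hn⟩, -⟩ := E2t_inj hP (DjM_mk D hl) (DjM_Tb D hP θ x₀).2 he
    exact D.bk_disj l θ n (DjM_smul hn).symm

end Pool.Agent.CHO
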