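import Pool.Agent.CHO.E1L
import Pool.Agent.GLB.GEa

/-!
# CHO/E1I: periodicity, injectivity and equivariance of `E1`   (difficulty 2)

* `E1_smul`: `log (rr (exp n • x)) = log (rr x) + n` (`rr_smul`), the angles change by integers (`ex_add_int`, `circle_exp_add_int`), and
  `exp n > 0` is a common factor (`GLB.pS3_smul`; `0 < ‖w‖² + (r + h)²` since `Dm x`).
* `E1_add_int`: `ex_add_int`, `circle_exp_add_int`.
* `E1_act`: `GLB.gact_pS3` (or `E1_eq` and it), `ex_add`, `Circle.exp_add`.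
* `E1_inj`: `E1_eq` for both, `GLB.Psi_inj`: `(Y' - Y) m₂ + (τ' - τ) v₂ = i`, `(Y' - Y) m₃ + (τ' - τ) v₃ = j`; multiply by the inverse
  matrix: `Y' - Y = e (v₂ j - v₃ i)`, `τ' - τ = e (m₃ i - m₂ j)`, integers `n, l`; then the first coordinates give `σ' = σ`
  (`ex_add_int`), hence `x' = Si (σ, Y + n) = exp n • x` (`Si_Sx`, `Si_add`).
-/

open scoped Manifold ContDiff Topology
open Complex (I normSq)

namespace Pool.Agent.CHO

open Pool.Agent.RSG (pS3 ex)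
open Pool.Agent.PTH (SP ISP gact)
open Pool.Agent.CHW (F3 q2 rr mir cyl zone)

theorem E1I_Psi (a : ℂ) (β γ : ℝ) (j l : ℤ) : GLB.Psi (a, β + j, γ + l) = GLB.Psi (a, β, γ) := by
  unfold GLB.Psi
  simp only
  rw [RSG.ex_add_int, GLB.circle_exp_add_int]

theorem E1_smul (v m : Z3) {x : F3} (h : Dm x) (t : ℝ) (n : ℤ) : E1 v m (Real.exp n • x, t) = E1 v m (x, t) := by
  rw [E1_eq v m h, E1_eq v m ((dm_smul (Real.exp_pos _) x).2 h), Sx_smul h]
  generalize Sx x = q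
  obtain ⟨σ, Y⟩ := q
  unfold Tm
  simp only
  have e1 : (Y + n) * m.1 + t * v.1 = Y * m.1 + t * v.1 + ((n * m.1 : ℤ) : ℝ) := by
    push_cast
    ring
  have e2 : (Y + n) * m.2.1 + t * v.2.1 = Y * m.2.1 + t * v.2.1 + ((n * m.2.1 : ℤ) : ℝ) := by
    push_cast
    ring
  have e3 : (Y + n) * m.2.2 + t * v.2.2 = Y * m.2.2 + t * v.2.2 + ((n * m.2.2 : ℤ) : ℝ) := by
    push_cast
    ring
  rw [e1, e2, e3, E1I_Psi, RSG.ex_add_int]

theorem E1_add_int (v m : Z3) (x : F3) (t : ℝ) (n : ℤ) : E1 v m (x, t + n) = E1 v m (x, t) := by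
  unfold E1
  simp only
  generalize Real.log (rr x) = Y
  have e1 : Y * m.1 + (t + n) * v.1 = Y * m.1 + t * v.1 + ((n * v.1 : ℤ) : ℝ) := by
    push_cast
    ring
  have e2 : Y * m.2.1 + (t + n) * v.2.1 = Y * m.2.1 + t * v.2.1 + ((n * v.2.1 : ℤ) : ℝ) := by
    push_cast
    ring
  have e3 : Y * m.2.2 + (t + n) * v.2.2 = Y * m.2.2 + t * v.2.2 + ((n * v.2.2 : ℤ) : ℝ) := by
    push_cast
    ring
  rw [e1, e2, e3, RSG.ex_add_int, RSG.ex_add_int, GLB.circle_exp_add_int]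

theorem E1I_pos {x : F3} (h : Dm x) (α β : ℝ) :
    0 < ‖x.1 * ex α‖ ^ 2 + ‖((rr x + x.2 : ℝ) : ℂ) * ex β‖ ^ 2 := by
  rw [norm_mul, norm_mul, RSG.ex_norm, RSG.ex_norm, mul_one, mul_one, Complex.norm_real,
    Real.norm_eq_abs, abs_of_pos (show 0 < rr x + x.2 from h)]
  have h1 : 0 < rr x + x.2 := h
  positivity

theorem E1_act (v m : Z3) {x : F3} (h : Dm x) (t s : ℝ) : gact v s (E1 v m (x, t)) = E1 v m (x, t + s) := by
  unfold E1
  simp only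
  rw [GLB.gact_pS3 v s (E1I_pos h _ _)]
  generalize Real.log (rr x) = Y
  have e1 : ex (v.1 * s) * (x.1 * ex (Y * m.1 + t * v.1)) = x.1 * ex (Y * m.1 + (t + s) * v.1) := by
    rw [show Y * m.1 + (t + s) * v.1 = v.1 * s + (Y * m.1 + t * v.1) by ring,
      RSG.ex_add (v.1 * s) (Y * m.1 + t * v.1)]
    ring
  have e2 : ex (v.2.1 * s) * (((rr x + x.2 : ℝ) : ℂ) * ex (Y * m.2.1 + t * v.2.1)) =
      ((rr x + x.2 : ℝ) : ℂ) * ex (Y * m.2.1 + (t + s) * v.2.1) := by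
    rw [show Y * m.2.1 + (t + s) * v.2.1 = v.2.1 * s + (Y * m.2.1 + t * v.2.1) by ring,
      RSG.ex_add (v.2.1 * s) (Y * m.2.1 + t * v.2.1)]
    ring
  have e3 : Circle.exp (2 * Real.pi * (v.2.2 * s)) * Circle.exp (2 * Real.pi * (Y * m.2.2 + t * v.2.2)) =
      Circle.exp (2 * Real.pi * (Y * m.2.2 + (t + s) * v.2.2)) := by
    rw [← Circle.exp_add]
    congr 1
    ring
  rw [e1, e2, e3]

theorem E1I_lin {v2 v3 m2 m3 i j e : ℤ} (he : v2 * m3 - m2 * v3 = e) (hee : e * e = 1)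
    {A B : ℝ} (h2 : A * m2 + B * v2 = i) (h3 : A * m3 + B * v3 = j) :
    A = ((e * (v2 * j - v3 * i) : ℤ) : ℝ) ∧ B = ((e * (m3 * i - m2 * j) : ℤ) : ℝ) := by
  have he' : (v2 : ℝ) * m3 - m2 * v3 = e := by exact_mod_cast he
  have hee' : (e : ℝ) * e = 1 := by exact_mod_cast hee
  push_cast
  rw [← h2, ← h3]
  constructor
  · linear_combination (-A) * hee' - (A * e) * he'
  · linear_combination (-B) * hee' - (B * e) * he'

theorem E1_inj {v m : Z3} (h : v.2.1 * m.2.2 - m.2.1 * v.2.2 = 1 ∨ v.2.1 * m.2.2 - m.2.1 * v.2.2 = -1)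
    {x x' : F3} (hx : Dm x) (hx' : Dm x') {t t' : ℝ} (he : E1 v m (x, t) = E1 v m (x', t')) :
    (∃ n : ℤ, x' = Real.exp n • x) ∧ ∃ j : ℤ, t' = t + j := by
  obtain ⟨e, hd, hee⟩ : ∃ e : ℤ, v.2.1 * m.2.2 - m.2.1 * v.2.2 = e ∧ e * e = 1 := by
    rcases h with h | h
    · exact ⟨1, h, by norm_num⟩
    · exact ⟨-1, h, by norm_num⟩
  rw [E1_eq v m hx, E1_eq v m hx'] at he
  obtain ⟨h1, ⟨i, h2⟩, ⟨j, h3⟩⟩ := GLB.Psi_inj he
  have hS := Si_Sx hx
  have hS' := Si_Sx hx'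
  revert h1 h2 h3 hS hS'
  generalize Sx x = q
  generalize Sx x' = q'
  obtain ⟨σ, Y⟩ := q
  obtain ⟨σ', Y'⟩ := q'
  intro h1 h2 h3 hS hS'
  unfold Tm at h1 h2 h3
  simp only at h1 h2 h3
  obtain ⟨hA, hB⟩ := E1I_lin (A := Y' - Y) (B := t' - t) hd hee (i := i) (j := j)
    (by linear_combination h2) (by linear_combination h3)
  generalize hn : e * (v.2.1 * j - v.2.2 * i) = n at hA
  generalize hl : e * (m.2.2 * i - m.2.1 * j) = l at hB
  have hσ : σ' = σ := by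
    have e1 : Y' * m.1 + t' * v.1 = Y * m.1 + t * v.1 + ((n * m.1 + l * v.1 : ℤ) : ℝ) := by
      push_cast
      rw [← hA, ← hB]
      ring
    rw [e1, RSG.ex_add_int] at h1
    exact mul_right_cancel₀ (RSG.ex_ne _) h1
  refine ⟨⟨n, ?_⟩, ⟨l, by linarith⟩⟩
  rw [← hS, ← hS', hσ, show Y' = Y + n by linarith, Si_add]

end Pool.Agent.CHO
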