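import Pool.Agent.CHO.Ste
import Pool.Agent.GLB.Psi

/-!
# CHO/E1L: the chart `E1` is a local diffeomorphism   (difficulty 2-3)

* `E1_eq`: `(r + h) (w / (r + h)) = w`, `PTH`/`GLB.pS3_smul` with factor `r + h > 0` (`0 < ‖σ‖² + ‖ex β‖²`, `ex_norm`).
* `Tm_ld`: `Tm v m` is a smooth bijection of `(ℂ × ℝ) × ℝ` onto `ℂ × ℝ × ℝ` with smooth inverse: let `e = v₂ m₃ - m₂ v₃ = ±1`;
  `β = Y m₂ + τ v₂`, `γ = Y m₃ + τ v₃`, then `Y = e (v₂ γ - v₃ β)`, `τ = e (m₃ β - m₂ γ)`, `σ = σ' ex (-(Y m₁ + τ v₁))`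
  (`CSG.ld_of_perm`-like; the spaces differ, so use `RSG.ld_two`, or compose with the linear isomorphism `((σ, Y), τ) ↦ (σ, Y, τ)`).
* `E1_ld`: near `(x, τ)` (`dm_isOpen`) `E1 v m = Psi ∘ Tm ∘ (Sx × id)`; `Sx_ld`, `RSG.ld_prodMap` (or `Sx × id` directly with
  `ld_two`), `GLB.Psi_ld`, `IsLocalDiffeomorphAt.comp`, `CSG.ld_congr`.
-/

open scoped Manifold ContDiff Topology
open Complex (I normSq)

namespace Pool.Agent.CHO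

open Pool.Agent.RSG (pS3 ex)
open Pool.Agent.PTH (SP ISP)
open Pool.Agent.CHW (F3 q2 rr mir cyl zone)
open Pool.Agent.GLB (Psi)

noncomputable def Tm (v m : Z3) (q : (ℂ × ℝ) × ℝ) : ℂ × ℝ × ℝ :=
  (q.1.1 * ex (q.1.2 * m.1 + q.2 * v.1), q.1.2 * m.2.1 + q.2 * v.2.1, q.1.2 * m.2.2 + q.2 * v.2.2)

theorem E1_eq (v m : Z3) {x : F3} (h : Dm x) (t : ℝ) : E1 v m (x, t) = Psi (Tm v m (Sx x, t)) := by
  unfold E1 Psi Tm Sx
  refine Prod.ext ?_ rfl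
  simp only
  have hr : 0 < rr x + x.2 := h
  have hC : ((rr x + x.2 : ℝ) : ℂ) ≠ 0 := Complex.ofReal_ne_zero.mpr hr.ne'
  have h2 : x.1 * ex (Real.log (rr x) * m.1 + t * v.1) = ((rr x + x.2 : ℝ) : ℂ) *
      (x.1 / ((rr x + x.2 : ℝ) : ℂ) * ex (Real.log (rr x) * m.1 + t * v.1)) := by
    rw [← mul_assoc, mul_div_cancel₀ _ hC]
  rw [h2]
  refine GLB.pS3_smul hr ?_
  rw [RSG.ex_norm]
  positivity

theorem Tm_ld {v m : Z3} (h : v.2.1 * m.2.2 - m.2.1 * v.2.2 = 1 ∨ v.2.1 * m.2.2 - m.2.1 * v.2.2 = -1)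
    (q : (ℂ × ℝ) × ℝ) : IsLocalDiffeomorphAt 𝓘(ℝ, (ℂ × ℝ) × ℝ) 𝓘(ℝ, ℂ × ℝ × ℝ) ∞ (Tm v m) q := by
  obtain ⟨e, he⟩ : ∃ e : ℝ, e = (v.2.1 * m.2.2 - m.2.1 * v.2.2 : ℝ) := ⟨_, rfl⟩
  have he2 : e * e = 1 := by
    rcases h with h | h
    · have h2 : (v.2.1 * m.2.2 - m.2.1 * v.2.2 : ℝ) = 1 := by exact_mod_cast h
      rw [he, h2]
      norm_num
    · have h2 : (v.2.1 * m.2.2 - m.2.1 * v.2.2 : ℝ) = -1 := by exact_mod_cast h
      rw [he, h2]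
      norm_num
  have e1 : ∀ Y τ : ℝ, e * (v.2.1 * (Y * m.2.2 + τ * v.2.2) - v.2.2 * (Y * m.2.1 + τ * v.2.1)) = Y := by
    intro Y τ
    have : (v.2.1 * (Y * m.2.2 + τ * v.2.2) - v.2.2 * (Y * m.2.1 + τ * v.2.1) : ℝ) = Y * e := by
      rw [he]
      ring
    rw [this]
    linear_combination Y * he2
  have e2 : ∀ Y τ : ℝ, e * (m.2.2 * (Y * m.2.1 + τ * v.2.1) - m.2.1 * (Y * m.2.2 + τ * v.2.2)) = τ := by
    intro Y τ
    have : (m.2.2 * (Y * m.2.1 + τ * v.2.1) - m.2.1 * (Y * m.2.2 + τ * v.2.2) : ℝ) = τ * e := by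
      rw [he]
      ring
    rw [this]
    linear_combination τ * he2
  have e3 : ∀ β γ : ℝ, e * (v.2.1 * γ - v.2.2 * β) * m.2.1 + e * (m.2.2 * β - m.2.1 * γ) * v.2.1 = β := by
    intro β γ
    have : e * (v.2.1 * γ - v.2.2 * β) * m.2.1 + e * (m.2.2 * β - m.2.1 * γ) * v.2.1 = β * (e * e) := by
      nth_rewrite 4 [he]
      ring
    rw [this, he2, mul_one]
  have e4 : ∀ β γ : ℝ, e * (v.2.1 * γ - v.2.2 * β) * m.2.2 + e * (m.2.2 * β - m.2.1 * γ) * v.2.2 = γ := by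
    intro β γ
    have : e * (v.2.1 * γ - v.2.2 * β) * m.2.2 + e * (m.2.2 * β - m.2.1 * γ) * v.2.2 = γ * (e * e) := by
      nth_rewrite 4 [he]
      ring
    rw [this, he2, mul_one]
  have hex : ∀ (z : ℂ) (a : ℝ), z * ex a * ex (-a) = z := by
    intro z a
    rw [mul_assoc, ← RSG.ex_add, add_neg_cancel, RSG.ex_zero, mul_one]
  have hex' : ∀ (z : ℂ) (a : ℝ), z * ex (-a) * ex a = z := by
    intro z a
    rw [mul_assoc, ← RSG.ex_add, neg_add_cancel, RSG.ex_zero, mul_one]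
  let f : ((ℂ × ℝ) × ℝ) ≃ (ℂ × ℝ × ℝ) :=
    { toFun := fun q => (q.1.1 * ex (q.1.2 * m.1 + q.2 * v.1), q.1.2 * m.2.1 + q.2 * v.2.1,
        q.1.2 * m.2.2 + q.2 * v.2.2)
      invFun := fun p => ((p.1 * ex (-(e * (v.2.1 * p.2.2 - v.2.2 * p.2.1) * m.1 +
          e * (m.2.2 * p.2.1 - m.2.1 * p.2.2) * v.1)), e * (v.2.1 * p.2.2 - v.2.2 * p.2.1)),
          e * (m.2.2 * p.2.1 - m.2.1 * p.2.2))
      left_inv := by
        intro q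
        simp only [e1, e2, hex]
      right_inv := by
        intro p
        simp only [e3, e4, hex'] }
  have hf : ContDiff ℝ ∞ f := by
    have c1 : ContDiff ℝ ∞ fun q : (ℂ × ℝ) × ℝ => q.1.2 := contDiff_fst.snd
    have c2 : ContDiff ℝ ∞ fun q : (ℂ × ℝ) × ℝ => q.2 := contDiff_snd
    exact (contDiff_fst.fst.mul (RSG.ex_smooth.comp ((c1.mul contDiff_const).add (c2.mul contDiff_const)))).prodMk
      (((c1.mul contDiff_const).add (c2.mul contDiff_const)).prodMk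
        ((c1.mul contDiff_const).add (c2.mul contDiff_const)))
  have hf' : ContDiff ℝ ∞ f.symm := by
    have c1 : ContDiff ℝ ∞ fun q : ℂ × ℝ × ℝ => q.2.1 := contDiff_snd.fst
    have c2 : ContDiff ℝ ∞ fun q : ℂ × ℝ × ℝ => q.2.2 := contDiff_snd.snd
    have d1 : ContDiff ℝ ∞ fun p : ℂ × ℝ × ℝ => e * (v.2.1 * p.2.2 - v.2.2 * p.2.1) :=
      contDiff_const.mul ((contDiff_const.mul c2).sub (contDiff_const.mul c1))
    have d2 : ContDiff ℝ ∞ fun p : ℂ × ℝ × ℝ => e * (m.2.2 * p.2.1 - m.2.1 * p.2.2) :=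
      contDiff_const.mul ((contDiff_const.mul c1).sub (contDiff_const.mul c2))
    exact ((contDiff_fst.mul (RSG.ex_smooth.comp
      ((d1.mul contDiff_const).add (d2.mul contDiff_const)).neg)).prodMk d1).prodMk d2
  exact CSG.ld_of_perm (f := f) hf hf' q

theorem E1L_prod {x : F3} (hx : Dm x) (t : ℝ) :
    IsLocalDiffeomorphAt 𝓘(ℝ, F3 × ℝ) 𝓘(ℝ, (ℂ × ℝ) × ℝ) ∞ (fun q : F3 × ℝ => (Sx q.1, q.2)) (x, t) := by
  have h := RSG.ld_prodMap (Sx_ld hx) (CSG.ld_id (I := 𝓘(ℝ, ℝ)) (n := ∞) t)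
  rw [← modelWithCornersSelf_prod, chartedSpaceSelf_prod] at h
  exact h

theorem E1_ld {v m : Z3} (h : v.2.1 * m.2.2 - m.2.1 * v.2.2 = 1 ∨ v.2.1 * m.2.2 - m.2.1 * v.2.2 = -1)
    {x : F3} (hx : Dm x) (t : ℝ) : IsLocalDiffeomorphAt 𝓘(ℝ, F3 × ℝ) ISP ∞ (E1 v m) (x, t) := by
  have h1 := E1L_prod hx t
  have h2 : IsLocalDiffeomorphAt 𝓘(ℝ, F3 × ℝ) 𝓘(ℝ, ℂ × ℝ × ℝ) ∞ (Tm v m ∘ fun q : F3 × ℝ => (Sx q.1, q.2)) (x, t) :=
    IsLocalDiffeomorphAt.comp (hf := h1) (g := Tm v m) (hg := Tm_ld h _)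
  have h3 : IsLocalDiffeomorphAt 𝓘(ℝ, F3 × ℝ) ISP ∞ (Psi ∘ (Tm v m ∘ fun q : F3 × ℝ => (Sx q.1, q.2))) (x, t) :=
    IsLocalDiffeomorphAt.comp (hf := h2) (g := Psi) (hg := GLB.Psi_ld _)
  refine CSG.ld_congr h3 ?_
  have ho : IsOpen {q : F3 × ℝ | Dm q.1} := dm_isOpen.preimage continuous_fst
  filter_upwards [ho.mem_nhds (show (x, t) ∈ {q : F3 × ℝ | Dm q.1} from hx)] with q hq
  exact E1_eq v m hq q.2

end Pool.Agent.CHO
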