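import Pool.Agent.CHO.E1I
import Pool.Agent.GLB.Swp

/-!
# CHO/E2M: the chart `E2`   (difficulty 1-2)

`E2 v m = Ssw ∘ E1 (swv v) (swv m)` (`GLB/Swp`: `Ssw (y, c) = (pS3 (z2 y) (z1 y), c)`): by `GLB.z_pS3` the point
`Ssw (pS3 a b, c)` is `(pS3 (s b) (s a), c)`, `s > 0`, `GLB.pS3_smul`; `a = w ex .., b = (r + h) ex ..`, not both zero since `Dm x`.
Everything else is transported: `Ssw_ld`, `Ssw_Ssw` (injectivity), `Ssw_act`, `E1_*`; the determinant changes as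
`(swv v).2.1 * (swv m).2.2 - (swv m).2.1 * (swv v).2.2 = v.1 * m.2.2 - m.1 * v.2.2`.
-/

open scoped Manifold ContDiff Topology
open Complex (I normSq)

namespace Pool.Agent.CHO

open Pool.Agent.RSG (pS3 ex)
open Pool.Agent.PTH (SP ISP gact)
open Pool.Agent.CHW (F3 q2 rr mir cyl zone)
open Pool.Agent.GLB (Ssw swv)

theorem E2M_pos {x : F3} (h : Dm x) (α β : ℝ) :
    0 < ‖x.1 * ex α‖ ^ 2 + ‖((rr x + x.2 : ℝ) : ℂ) * ex β‖ ^ 2 := by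
  rw [norm_mul, norm_mul, RSG.ex_norm, RSG.ex_norm, mul_one, mul_one, Complex.norm_real,
    Real.norm_eq_abs, abs_of_pos (show 0 < rr x + x.2 from h)]
  have h1 : 0 < rr x + x.2 := h
  positivity

theorem E2M_Ssw {a b : ℂ} (h : 0 < ‖a‖ ^ 2 + ‖b‖ ^ 2) (c : Circle) :
    Ssw (pS3 a b, c) = (pS3 b a, c) := by
  obtain ⟨h1, h2⟩ := GLB.z_pS3 h
  have h3 : 0 < (Real.sqrt (‖a‖ ^ 2 + ‖b‖ ^ 2))⁻¹ := inv_pos.2 (Real.sqrt_pos.2 h)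
  refine Prod.ext ?_ rfl
  show pS3 (PTH.z2 (pS3 a b)) (PTH.z1 (pS3 a b)) = pS3 b a
  rw [h1, h2]
  exact GLB.pS3_smul h3 (by rw [add_comm]; exact h)

theorem E2_eq (v m : Z3) {x : F3} (h : Dm x) (t : ℝ) : E2 v m (x, t) = Ssw (E1 (swv v) (swv m) (x, t)) := by
  unfold E1
  rw [E2M_Ssw (E2M_pos h _ _)]
  rfl

theorem E2M_det {v m : Z3} (h : v.1 * m.2.2 - m.1 * v.2.2 = 1 ∨ v.1 * m.2.2 - m.1 * v.2.2 = -1) :
    (swv v).2.1 * (swv m).2.2 - (swv m).2.1 * (swv v).2.2 = 1 ∨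
      (swv v).2.1 * (swv m).2.2 - (swv m).2.1 * (swv v).2.2 = -1 := h

theorem E2_ld {v m : Z3} (h : v.1 * m.2.2 - m.1 * v.2.2 = 1 ∨ v.1 * m.2.2 - m.1 * v.2.2 = -1)
    {x : F3} (hx : Dm x) (t : ℝ) : IsLocalDiffeomorphAt 𝓘(ℝ, F3 × ℝ) ISP ∞ (E2 v m) (x, t) := by
  have h1 := E1_ld (E2M_det h) hx t
  have h2 := GLB.Ssw_ld (E1 (swv v) (swv m) (x, t))
  have h3 := IsLocalDiffeomorphAt.comp (hf := h1) (g := Ssw) (hg := h2)
  refine CSG.ld_congr h3 ?_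
  have hop : ∀ᶠ p : F3 × ℝ in nhds (x, t), Dm p.1 :=
    (continuous_fst.continuousAt (x := (x, t))).eventually (dm_isOpen.mem_nhds hx)
  filter_upwards [hop] with p hp
  exact E2_eq v m hp p.2

theorem E2_smul (v m : Z3) {x : F3} (h : Dm x) (t : ℝ) (n : ℤ) : E2 v m (Real.exp n • x, t) = E2 v m (x, t) := by
  rw [E2_eq v m h, E2_eq v m ((dm_smul (Real.exp_pos _) x).2 h), E1_smul _ _ h]

theorem E2_add_int (v m : Z3) {x : F3} (h : Dm x) (t : ℝ) (n : ℤ) : E2 v m (x, t + n) = E2 v m (x, t) := by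
  rw [E2_eq v m h, E2_eq v m h, E1_add_int]

theorem E2_act (v m : Z3) {x : F3} (h : Dm x) (t s : ℝ) : gact v s (E2 v m (x, t)) = E2 v m (x, t + s) := by
  rw [E2_eq v m h, E2_eq v m h, ← E1_act (swv v) (swv m) h t s, GLB.Ssw_act, GLB.swv_swv]

theorem E2_inj {v m : Z3} (h : v.1 * m.2.2 - m.1 * v.2.2 = 1 ∨ v.1 * m.2.2 - m.1 * v.2.2 = -1)
    {x x' : F3} (hx : Dm x) (hx' : Dm x') {t t' : ℝ} (he : E2 v m (x, t) = E2 v m (x', t')) :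
    (∃ n : ℤ, x' = Real.exp n • x) ∧ ∃ j : ℤ, t' = t + j := by
  rw [E2_eq v m hx, E2_eq v m hx'] at he
  have h1 := congrArg Ssw he
  rw [GLB.Ssw_Ssw, GLB.Ssw_Ssw] at h1
  exact E1_inj (E2M_det h) hx hx' h1

end Pool.Agent.CHO
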