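import Pool.Agent.CHO.GaM
import Pool.Agent.CHO.E2M

/-!
# CHO/E2tM: the charts `E1t` and `E2t`, basic properties   (difficulty 1-2)

`E1t P = E1 P.v P.m`, `E2t P = E2 P.v P.m' ∘ Ga P`; the hypotheses on the determinants are `hP.alg.uni`, `hP.alg.uni'`.
* `E1t_*`: from `E1_*`.  `E2t_ld`: `Ga_ld`, `Ga_dm`, `E2_ld`, `IsLocalDiffeomorphAt.comp`.
* `E2t_inj`: `E2_inj` gives `(Ga p').1 = exp n • (Ga p).1` and `(Ga p').2 = (Ga p).2 + j`; `Ga_inj`.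
* `E2t_smul`: `Ga_smul`, `E2_smul` (`Ga_dm`).  `E2t_add_int`, `E2t_act`: `Ga_add`, `E2_add_int`, `E2_act`.
-/

open scoped Manifold ContDiff Topology
open Complex (I normSq)

namespace Pool.Agent.CHO

open Pool.Agent.RSG (pS3 ex)
open Pool.Agent.PTH (SP ISP gact)
open Pool.Agent.CHW (F3 q2 rr mir cyl zone)

variable {P : Pm}

theorem E2tM_u (hP : P.Ok) : P.v.2.1 * P.m.2.2 - P.m.2.1 * P.v.2.2 = 1 ∨ P.v.2.1 * P.m.2.2 - P.m.2.1 * P.v.2.2 = -1 :=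
  Or.inl hP.alg.uni

theorem E2tM_u' (hP : P.Ok) : P.v.1 * P.m'.2.2 - P.m'.1 * P.v.2.2 = 1 ∨ P.v.1 * P.m'.2.2 - P.m'.1 * P.v.2.2 = -1 :=
  Or.inr hP.alg.uni'

theorem E1t_ld (hP : P.Ok) {x : F3} (hx : Dm x) (t : ℝ) : IsLocalDiffeomorphAt 𝓘(ℝ, F3 × ℝ) ISP ∞ (E1t P) (x, t) :=
  E1_ld (E2tM_u hP) hx t

theorem E1t_smul (P : Pm) {x : F3} (h : Dm x) (t : ℝ) (n : ℤ) : E1t P (Real.exp n • x, t) = E1t P (x, t) :=
  E1_smul P.v P.m h t n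

theorem E1t_add_int (P : Pm) (x : F3) (t : ℝ) (n : ℤ) : E1t P (x, t + n) = E1t P (x, t) :=
  E1_add_int P.v P.m x t n

theorem E1t_act (P : Pm) {x : F3} (h : Dm x) (t s : ℝ) : gact P.v s (E1t P (x, t)) = E1t P (x, t + s) :=
  E1_act P.v P.m h t s

theorem E1t_inj (hP : P.Ok) {x x' : F3} (hx : Dm x) (hx' : Dm x') {t t' : ℝ} (he : E1t P (x, t) = E1t P (x', t')) :
    (∃ n : ℤ, x' = Real.exp n • x) ∧ ∃ j : ℤ, t' = t + j :=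
  E1_inj (E2tM_u hP) hx hx' he

theorem E2t_ld (hP : P.Ok) {x : F3} (hx : Dm x) (t : ℝ) : IsLocalDiffeomorphAt 𝓘(ℝ, F3 × ℝ) ISP ∞ (E2t P) (x, t) := by
  have h1 : IsLocalDiffeomorphAt 𝓘(ℝ, F3 × ℝ) 𝓘(ℝ, F3 × ℝ) ∞ (Ga P) (x, t) := Ga_ld hP hx
  have h2 : Dm (Ga P (x, t)).1 := Ga_dm (p := (x, t)) hx
  have h3 : IsLocalDiffeomorphAt 𝓘(ℝ, F3 × ℝ) ISP ∞ (E2 P.v P.m') (Ga P (x, t)) :=
    E2_ld (E2tM_u' hP) h2 (Ga P (x, t)).2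
  exact IsLocalDiffeomorphAt.comp (hf := h1) (hg := h3) ..

theorem E2t_smul (hP : P.Ok) {x : F3} (h : Dm x) (t : ℝ) (n : ℤ) : E2t P (Real.exp n • x, t) = E2t P (x, t) := by
  show E2 P.v P.m' (Ga P (Real.exp n • x, t)) = E2 P.v P.m' (Ga P (x, t))
  rw [Ga_smul hP (dm_ne h) t n]
  exact E2_smul P.v P.m' (Ga_dm (p := (x, t)) h) _ n

theorem E2t_add_int (hP : P.Ok) {x : F3} (h : Dm x) (t : ℝ) (n : ℤ) : E2t P (x, t + n) = E2t P (x, t) := by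
  show E2 P.v P.m' (Ga P (x, t + n)) = E2 P.v P.m' (Ga P (x, t))
  rw [Ga_add hP x t n]
  exact E2_add_int P.v P.m' (Ga_dm (p := (x, t)) h) _ n

theorem E2t_act (hP : P.Ok) {x : F3} (h : Dm x) (t s : ℝ) : gact P.v s (E2t P (x, t)) = E2t P (x, t + s) := by
  show gact P.v s (E2 P.v P.m' (Ga P (x, t))) = E2 P.v P.m' (Ga P (x, t + s))
  rw [Ga_add hP x t s]
  exact E2_act P.v P.m' (Ga_dm (p := (x, t)) h) _ s

theorem E2t_inj (hP : P.Ok) {x x' : F3} (hx : Dm x) (hx' : Dm x') {t t' : ℝ} (he : E2t P (x, t) = E2t P (x', t')) :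
    (∃ n : ℤ, x' = Real.exp n • x) ∧ ∃ j : ℤ, t' = t + j := by
  have h1 : Dm (Ga P (x, t)).1 := Ga_dm (p := (x, t)) hx
  have h2 : Dm (Ga P (x', t')).1 := Ga_dm (p := (x', t')) hx'
  have he' : E2 P.v P.m' ((Ga P (x, t)).1, (Ga P (x, t)).2) = E2 P.v P.m' ((Ga P (x', t')).1, (Ga P (x', t')).2) := he
  obtain ⟨⟨n, hn⟩, j, hj⟩ := E2_inj (E2tM_u' hP) h1 h2 he'
  exact Ga_inj hP (p := (x, t)) (p' := (x', t')) hx hx' hn hj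

end Pool.Agent.CHO
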