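import Pool.Agent.CHO.GmM
import Pool.Agent.CHO.CylL

/-!
# CHO/GaM: the map `Ga`   (difficulty 2-3)

`Ga P p = cE (Gam P X (toE p)) X`, `X = cX p.1`.
* `Ga_cE`: `cX (cE x X).1 = X` (`cX_cyl`), `toE (cE x X) = x + vec ![0, j, 0]` (`toE_cE`), `Gam_vec`, `cE_add_vec` (`exp 0 • = id`, `+ 0`).
* `Ga_far`: `Gam_far`, `cE_toE`.
* `Ga_cX`, `Ga_dm`: `cX_cyl` (`|cX| ≤ 1`), `dm_iff`, `cyl_ne`.
* `Ga_smul_add`: `toE_smul`, `toE (x, t + s) = toE (x, t) + pt s 0 0`, `Gam_vec`, `Gam_tr`, `cE_add_vec`, and `cE (y + pt s 0 0) X = ((cE y X).1, (cE y X).2 + s)`.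
* `Ga_ld` at `p`, `Dm p.1`, `X₀ = cX p.1 > -1`: if `X₀ > 2 x₁` then `Ga = id` near `p` (`Ga_far`; `cX` is continuous at `p.1 ≠ 0`).
  Otherwise `|X₀| < 1` and `p = cE (toE p) X₀` (`cE_toE`); the map `Ga ∘ c = c ∘ G`, `c (x, X) = cE x X`, `G (x, X) = (Gam X x, X)`, holds near
  `(toE p, X₀)` (`Ga_cE`, `|X| < 1` is open); `Gam_ld`, `cE_ld`, `IsLocalDiffeomorphAt.comp`, and `CSG.ld_of_comp_left` (see its statement) remove the `c` on the right.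
* `Ga_inj`: let `X = cX p.1`, `X' = cX p'.1`; by `Ga_cX` and `cX_smul`, `X = X'`.  If `X ≥ 2 x₁`: `Ga_far`.  Otherwise `|X| < 1`:
  `p = cE x X`, `p' = cE x' X` (`cE_toE`), `cE (Gam X x') X = cE (Gam X x + vec ![j, 0, n]) X` (`Ga_cE`, `cE_add_vec`), so by `cE_inj`
  `Gam X x + vec ![j, 0, n] = Gam X x' + vec ![0, i, 0]`; `Gam_vec`, `Gami_Gam` give `x' = x + vec ![j, -i, n]`; `cE_add_vec`.
* `Ga_surj`: `X ≥ 2 x₁`: `p' = p`.  Otherwise `p = cE x X`, `p' = cE (Gami X x) X`.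
-/

open scoped Manifold ContDiff Topology
open Complex (I normSq)

namespace Pool.Agent.CHO

open Pool.Agent.CSG (vec pt act stp)
open Pool.Agent.RSG (ex)
open Pool.Agent.CHW (F3 q2 rr mir cyl zone)

variable {P : Pm}

theorem GaM_v (y : E3) (X : ℝ) (j : ℤ) : cE (y + vec ![0, j, 0]) X = cE y X := by
  rw [cE_add_vec]
  have h2 : (![0, j, 0] : Fin 3 → ℤ) 2 = 0 := rfl
  have h0 : (![0, j, 0] : Fin 3 → ℤ) 0 = 0 := rfl
  rw [h2, h0, Int.cast_zero, Real.exp_zero, one_smul, add_zero]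

theorem GaM_w (y : E3) (X : ℝ) (j n : ℤ) :
    cE (y + vec ![j, 0, n]) X = (Real.exp n • (cE y X).1, (cE y X).2 + j) := by
  rw [cE_add_vec]
  rfl

theorem GaM_abs {p : F3 × ℝ} (h : Dm p.1) (hP : P.Ok) (hX : ¬ 2 * P.x₁ ≤ cX p.1) : |cX p.1| < 1 := by
  have h1 := ((dm_iff p.1).1 h).2
  have h2 := hP.x₁_lt
  rw [abs_lt]
  constructor
  · exact h1
  · linarith [not_le.1 hX]

theorem Ga_cE (hP : P.Ok) (x : E3) {X : ℝ} (h : |X| < 1) : Ga P (cE x X) = cE (Gam P X x) X := by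
  have h1 : cX (cE x X).1 = X := cX_cyl h.le
  obtain ⟨j, hj⟩ := toE_cE x h
  unfold Ga
  rw [h1, hj, Gam_vec hP, GaM_v]

theorem Ga_far (hP : P.Ok) {p : F3 × ℝ} (h : p.1 ≠ 0) (hX : 2 * P.x₁ ≤ cX p.1) : Ga P p = p := by
  unfold Ga
  rw [Gam_far hP hX, cE_toE h]

theorem Ga_cX {p : F3 × ℝ} : cX (Ga P p).1 = cX p.1 := cX_cyl (abs_cX_le p.1)

theorem Ga_dm {p : F3 × ℝ} (h : Dm p.1) : Dm (Ga P p).1 := by
  rw [dm_iff]
  refine ⟨cyl_ne (abs_cX_le p.1), ?_⟩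
  rw [Ga_cX]
  exact ((dm_iff p.1).1 h).2

theorem Ga_smul (hP : P.Ok) {x : F3} (h : x ≠ 0) (t : ℝ) (n : ℤ) :
    Ga P (Real.exp n • x, t) = (Real.exp n • (Ga P (x, t)).1, (Ga P (x, t)).2) := by
  have h1 : cX (Real.exp n • x) = cX x := cX_smul (Real.exp_pos _) x
  have h2 : toE (Real.exp n • x, t) = toE (x, t) + vec ![0, 0, n] := toE_smul (p := (x, t)) h n
  show cE (Gam P (cX (Real.exp n • x)) (toE (Real.exp n • x, t))) (cX (Real.exp n • x)) = _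
  rw [h1, h2, Gam_vec hP, GaM_w, Int.cast_zero, add_zero]
  rfl

theorem GaM_pt (y : E3) (X s : ℝ) : cE (y + pt s 0 0) X = ((cE y X).1, (cE y X).2 + s) := by
  have h0 : (y + pt s 0 0) 0 = y 0 + s := by simp
  have h1 : (y + pt s 0 0) 1 = y 1 := by simp
  have h2 : (y + pt s 0 0) 2 = y 2 := by simp
  unfold cE
  rw [h0, h1, h2]

theorem Ga_add (hP : P.Ok) (x : F3) (t s : ℝ) : Ga P (x, t + s) = ((Ga P (x, t)).1, (Ga P (x, t)).2 + s) := by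
  have h2 : toE (x, t + s) = toE (x, t) + pt s 0 0 := by
    unfold toE
    ext i
    fin_cases i <;> simp
  show cE (Gam P (cX x) (toE (x, t + s))) (cX x) = _
  rw [h2, Gam_tr hP, GaM_pt]
  rfl

theorem Ga_ld (hP : P.Ok) {p : F3 × ℝ} (h : Dm p.1) :
    IsLocalDiffeomorphAt 𝓘(ℝ, F3 × ℝ) 𝓘(ℝ, F3 × ℝ) ∞ (Ga P) p := by
  have hne : p.1 ≠ 0 := dm_ne h
  by_cases hX : 2 * P.x₁ < cX p.1
  · have hc : ContinuousAt (fun q : F3 × ℝ => cX q.1) p := by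
      have h1 : ContinuousAt cX p.1 := (cX_smooth hne).continuousAt
      exact ContinuousAt.comp (f := Prod.fst) h1 continuousAt_fst
    have hid : IsLocalDiffeomorphAt 𝓘(ℝ, F3 × ℝ) 𝓘(ℝ, F3 × ℝ) ∞ (id : F3 × ℝ → F3 × ℝ) p :=
      (Diffeomorph.refl 𝓘(ℝ, F3 × ℝ) (F3 × ℝ) ∞).isLocalDiffeomorph p
    refine Pool.Agent.CSG.ld_congr hid ?_
    have h2 : ∀ᶠ q : F3 × ℝ in nhds p, 2 * P.x₁ < cX q.1 := hc.eventually (lt_mem_nhds hX)
    have h3 : ∀ᶠ q : F3 × ℝ in nhds p, Dm q.1 := by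
      have : IsOpen {q : F3 × ℝ | Dm q.1} := dm_isOpen.preimage continuous_fst
      exact this.mem_nhds h
    filter_upwards [h2, h3] with q hq hq'
    exact Ga_far hP (dm_ne hq') hq.le
  · have hX' : |cX p.1| < 1 := by
      have h1 := ((dm_iff p.1).1 h).2
      have h2 := hP.x₁_lt
      rw [abs_lt]
      exact ⟨h1, by linarith [not_lt.1 hX]⟩
    have hp : cE (toE p) (cX p.1) = p := cE_toE hne
    have hc := cE_ld (toE p) hX'
    have hG := Gam_ld hP (toE p, cX p.1)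
    have hc' := cE_ld (Gam P (cX p.1) (toE p)) hX'
    have h1 : IsLocalDiffeomorphAt 𝓘(ℝ, E3 × ℝ) 𝓘(ℝ, F3 × ℝ) ∞
        ((fun q : E3 × ℝ => cE q.1 q.2) ∘ fun q : E3 × ℝ => (Gam P q.2 q.1, q.2)) (toE p, cX p.1) :=
      IsLocalDiffeomorphAt.comp (hf := hG) (hg := hc') ..
    have h2 : IsLocalDiffeomorphAt 𝓘(ℝ, E3 × ℝ) 𝓘(ℝ, F3 × ℝ) ∞
        (Ga P ∘ fun q : E3 × ℝ => cE q.1 q.2) (toE p, cX p.1) := by
      refine Pool.Agent.CSG.ld_congr h1 ?_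
      have h3 : ∀ᶠ q : E3 × ℝ in nhds (toE p, cX p.1), |q.2| < 1 := by
        have : IsOpen {q : E3 × ℝ | |q.2| < 1} := isOpen_lt (continuous_snd.abs) continuous_const
        exact this.mem_nhds hX'
      filter_upwards [h3] with q hq
      exact Ga_cE hP q.1 hq
    have h4 := Pool.Agent.CSG.ld_of_comp_left h2 hc
    have h5 : cE (toE p, cX p.1).1 (toE p, cX p.1).2 = p := hp
    rw [h5] at h4
    exact h4

theorem Ga_inj (hP : P.Ok) {p p' : F3 × ℝ} (h : Dm p.1) (h' : Dm p'.1) {n j : ℤ}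
    (he : (Ga P p').1 = Real.exp n • (Ga P p).1) (he' : (Ga P p').2 = (Ga P p).2 + j) :
    (∃ n : ℤ, p'.1 = Real.exp n • p.1) ∧ ∃ j : ℤ, p'.2 = p.2 + j := by
  have hX : cX p'.1 = cX p.1 := by
    have h1 := congrArg cX he
    rw [Ga_cX, cX_smul (Real.exp_pos _), Ga_cX] at h1
    exact h1
  by_cases hb : 2 * P.x₁ ≤ cX p.1
  · rw [Ga_far hP (dm_ne h) hb, Ga_far hP (dm_ne h') (by rw [hX]; exact hb)] at he he'
    exact ⟨⟨n, he⟩, ⟨j, he'⟩⟩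
  · have hb' : |cX p.1| < 1 := GaM_abs h hP hb
    have e1 : cE (Gam P (cX p.1) (toE p) + vec ![j, 0, n]) (cX p.1) = cE (Gam P (cX p.1) (toE p')) (cX p.1) := by
      rw [GaM_w]
      have e2 : Ga P p' = cE (Gam P (cX p.1) (toE p')) (cX p.1) := by
        show cE (Gam P (cX p'.1) (toE p')) (cX p'.1) = _
        rw [hX]
      rw [← e2]
      exact (Prod.ext he he').symm
    obtain ⟨-, i, hi⟩ := cE_inj hb' hb' e1
    rw [← Gam_vec hP, ← Gam_vec hP] at hi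
    have e3 : toE p' = toE p + vec ![j, 0, n] + vec ![0, i, 0] := by
      have := congrArg (Gami P (cX p.1)) hi
      rw [Gami_Gam hP, Gami_Gam hP] at this
      exact this
    have e4 : p' = (Real.exp n • p.1, p.2 + j) := by
      have f1 : cE (toE p') (cX p'.1) = p' := cE_toE (dm_ne h')
      have f2 : cE (toE p) (cX p.1) = p := cE_toE (dm_ne h)
      rw [hX, e3, GaM_v, GaM_w, f2] at f1
      exact f1.symm
    rw [e4]
    exact ⟨⟨n, rfl⟩, ⟨j, rfl⟩⟩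

theorem Ga_surj (hP : P.Ok) {p : F3 × ℝ} (h : Dm p.1) :
    ∃ p' : F3 × ℝ, Dm p'.1 ∧ cX p'.1 = cX p.1 ∧ Ga P p' = p := by
  by_cases hb : 2 * P.x₁ ≤ cX p.1
  · exact ⟨p, h, rfl, Ga_far hP (dm_ne h) hb⟩
  · have hb' : |cX p.1| < 1 := GaM_abs h hP hb
    refine ⟨cE (Gami P (cX p.1) (toE p)) (cX p.1), dm_cyl hb', cX_cyl hb'.le, ?_⟩
    rw [Ga_cE hP _ hb', Gam_Gami hP, cE_toE (dm_ne h)]

end Pool.Agent.CHO
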