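import Pool.Agent.CHO.RrS

/-!
# CHO/GmM: the family `Gam`   (difficulty 2)

`Gam P X x = κ (sg X) (Rr (k sg X) x)`, `Gami P X` is the inverse.
* `sg_near`: `X ≤ x₁`: `stp = 0`; `sg_far`: `stp = 1`.  `sg` is smooth.
* `Gam_far`: `sg = 0`, `KapOK.start`: `κ 0 = 1`, `Rr_zero`.  `Gam_near`: `sg = 1`.
* `Gami_Gam`, `Gam_Gami`: `Rr_add`, `Rr_zero`, `Equiv.symm_apply_apply`.
* `Gam_vec`: `Rr_vec`, `KapOK.lat`.  `Gam_tr`: `Rr_tr`, `KapOK.tr`.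
* `Gam_ld`: `(x, X) ↦ (Gam X x, X)` has the inverse `(x, X) ↦ (Gami X x, X)`; both smooth (`KapOK.smooth`, `smooth_symm`, `Rr_smooth`,
  `stp_smooth`): `CSG.ld_of_perm` or `RSG.ld_two`.
-/

open scoped Manifold ContDiff Topology
open Complex (I normSq)

namespace Pool.Agent.CHO

open Pool.Agent.CSG (vec pt act stp)
open Pool.Agent.RSG (ex)

variable {P : Pm}

theorem Pm.Ok.d₀_lt (hP : P.Ok) : P.d₀ < 1 / 8 := by
  have h1 := hP.hd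
  have h2 := hP.kap.le
  have h3 := hP.d₀_pos
  linarith

theorem sg_near (hP : P.Ok) {X : ℝ} (h : X ≤ P.x₁) : sg P.x₁ X = 1 := by
  unfold sg
  rw [Pool.Agent.CSG.stp_zero (by linarith [hP.x₁_pos]) h, sub_zero]

theorem sg_far (hP : P.Ok) {X : ℝ} (h : 2 * P.x₁ ≤ X) : sg P.x₁ X = 0 := by
  unfold sg
  rw [Pool.Agent.CSG.stp_one (by linarith [hP.x₁_pos]) h, sub_self]

theorem Gam_near (hP : P.Ok) {X : ℝ} (h : X ≤ P.x₁) (x : E3) : Gam P X x = P.κ 1 (Rr P.d₀ P.k x) := by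
  unfold Gam
  rw [sg_near hP h, mul_one]

theorem Gam_far (hP : P.Ok) {X : ℝ} (h : 2 * P.x₁ ≤ X) (x : E3) : Gam P X x = x := by
  unfold Gam
  rw [sg_far hP h, mul_zero, Rr_zero, hP.kap.start 0 (by norm_num)]
  rfl

theorem Gami_Gam (hP : P.Ok) (X : ℝ) (x : E3) : Gami P X (Gam P X x) = x := by
  unfold Gami Gam
  rw [Equiv.symm_apply_apply, Rr_add hP.d₀_pos hP.d₀_lt, neg_add_cancel, Rr_zero]

theorem Gam_Gami (hP : P.Ok) (X : ℝ) (x : E3) : Gam P X (Gami P X x) = x := by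
  unfold Gami Gam
  rw [Rr_add hP.d₀_pos hP.d₀_lt, add_neg_cancel, Rr_zero, Equiv.apply_symm_apply]

theorem Gam_vec (hP : P.Ok) (X : ℝ) (x : E3) (m : Fin 3 → ℤ) : Gam P X (x + vec m) = Gam P X x + vec m := by
  unfold Gam
  rw [Rr_vec, hP.kap.lat]

theorem Gam_tr (hP : P.Ok) (X : ℝ) (x : E3) (c : ℝ) : Gam P X (x + pt c 0 0) = Gam P X x + pt c 0 0 := by
  unfold Gam
  rw [Rr_tr, hP.kap.tr]

theorem GmM_sg (x₁ : ℝ) : ContDiff ℝ ∞ (sg x₁) :=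
  contDiff_const.sub (Pool.Agent.CSG.stp_smooth _ _)

theorem GmM_sg2 (x₁ : ℝ) : ContDiff ℝ ∞ fun q : E3 × ℝ => sg x₁ q.2 :=
  (GmM_sg x₁).comp contDiff_snd

theorem Gam_smooth (hP : P.Ok) : ContDiff ℝ ∞ fun q : E3 × ℝ => Gam P q.2 q.1 := by
  have h1 : ContDiff ℝ ∞ fun q : E3 × ℝ => ((P.k : ℝ) * sg P.x₁ q.2) := contDiff_const.mul (GmM_sg2 P.x₁)
  have h2 : ContDiff ℝ ∞ fun q : E3 × ℝ => Rr P.d₀ (P.k * sg P.x₁ q.2) q.1 :=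
    (Rr_smooth hP.d₀_pos hP.d₀_lt).comp (contDiff_fst.prodMk h1)
  exact hP.kap.smooth.comp (h2.prodMk (GmM_sg2 P.x₁))

theorem Gami_smooth (hP : P.Ok) : ContDiff ℝ ∞ fun q : E3 × ℝ => Gami P q.2 q.1 := by
  have h1 : ContDiff ℝ ∞ fun q : E3 × ℝ => -((P.k : ℝ) * sg P.x₁ q.2) := (contDiff_const.mul (GmM_sg2 P.x₁)).neg
  have h2 : ContDiff ℝ ∞ fun q : E3 × ℝ => (P.κ (sg P.x₁ q.2)).symm q.1 :=
    hP.kap.smooth_symm.comp (contDiff_fst.prodMk (GmM_sg2 P.x₁))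
  exact (Rr_smooth hP.d₀_pos hP.d₀_lt).comp (h2.prodMk h1)

theorem Gam_ld (hP : P.Ok) (q : E3 × ℝ) :
    IsLocalDiffeomorphAt 𝓘(ℝ, E3 × ℝ) 𝓘(ℝ, E3 × ℝ) ∞ (fun q : E3 × ℝ => (Gam P q.2 q.1, q.2)) q := by
  have h := Pool.Agent.CSG.ld_of_perm (f := (⟨fun q : E3 × ℝ => (Gam P q.2 q.1, q.2),
    fun q : E3 × ℝ => (Gami P q.2 q.1, q.2), fun q => by simp [Gami_Gam hP], fun q => by simp [Gam_Gami hP]⟩ :
      E3 × ℝ ≃ E3 × ℝ)) ((Gam_smooth hP).prodMk contDiff_snd) ((Gami_smooth hP).prodMk contDiff_snd) q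
  exact h

end Pool.Agent.CHO
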