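import Pool.Agent.CHO.ThD
import Pool.Agent.CHO.E12t
import Pool.Agent.GLB.ActG

/-!
# CHO/KkD: signs of `Wk`, the two formulas for `kK`   (difficulty 2)

`Wk (l, s ex u) = W (u, 1/2 + ε s cos 2πl, 1/2 + ε s sin 2πl)`, `0 < s < 1` (`k_glue`), `ε ≤ 1/16`.
* `Wk_gd`: the point `(u, 1/2 + ε s cos, 1/2 + ε s sin)` is `Gd`: `y` is not an integer (`|y - 1/2| ≤ 1/16`), and `(y, t) = (1/2 + m, 1/2 + n)` would give
  `ε s cos = m`, `ε s sin = n`, so both `0` (`< 1`), but `cos² + sin² = 1`.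
* `Wk_fract`: `Wk (l, v) = Wk (Int.fract l, v)` (`k_per`, induction on the integer; `l = ⌊l⌋ + fract l`).
* signs, `a = Int.fract l`: `v = s ex u` with `s = ‖v‖` (`RSG.ex_arg`); `v ≠ 0`: `0 < a < 1/2`: `sin 2πa > 0`, `t ∈ (1/2, 1)`, field `neg`; `a > 1/2`: `pos`; `a = 0, 1/2`: `page1`.
  `v = 0`: `core_neg`, `core_pos`, `core_half`, `core_one` (`Wk (0, 0) = Wk (1, 0)`).
* `Wk_ne`: `v ≠ 0`: field `ne`; `v = 0`: height `≠ 0`, or `core_half`, `core_one` (`cyl_ne`).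
* `Wk_zone` (`a = 0` or `a = 1/2`): `v ≠ 0`: `W (u, 1/2 ± ε s, 1/2)`, `near1` with `n = 1` resp. `0`; `v = 0`: `core_half` (`n = 0`), `core_one` (`n = 1`): `(0, Y, 0)`.
* `gact_ok`: `GLB.gact_act`; `IsCoprime P.v.2.1 P.v.2.2` from `uni`, `IsCoprime P.v.1 P.v.2.2` from `uni'`.
* `kK_one`, `kK_two`: definition, `E1t_act`, `E2t_act` (`Dm` by `dm_of_nonneg`, `Wk_ne`, `Wk_nonneg`, `Wk_neg`), and `E2t_zone` at `a = 0, 1/2`.
* `kK_perl`: `k_per`, `Int.fract_add_one` (definition, all `v`).  `kK_act`, `kK_pert`: definition and `Act.add`, `Act.per` (all `v`).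
-/

open scoped Manifold ContDiff Topology
open Complex (I normSq)

namespace Pool.Agent.CHO

open Pool.Agent.CSG (vec pt act stp)
open Pool.Agent.RSG (ex)
open Pool.Agent.PTH (SP ISP gact Act)
open Pool.Agent.CHW (F3 q2 rr mir cyl zone WD Gd OnB OnK)

variable {P : Pm} {ε : ℝ} (D : WD P.d₀ P.x₁ ε)

theorem KkD_bd {d₀ x₁ : ℝ} (D : WD d₀ x₁ ε) {s c : ℝ} (hs : 0 < s) (hs' : s < 1) (hc : |c| ≤ 1) :
    |ε * s * c| ≤ 1 / 16 := by
  have h1 := D.ε_pos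
  have h2 := D.ε_le'
  have h3 : 0 ≤ ε * s := mul_nonneg h1.le hs.le
  rw [abs_mul, abs_of_nonneg h3]
  have h4 : ε * s ≤ 1 / 16 * 1 := mul_le_mul h2 hs'.le hs.le (by norm_num)
  have h5 : ε * s * |c| ≤ 1 / 16 * 1 * 1 := mul_le_mul h4 hc (abs_nonneg _) (by norm_num)
  linarith

theorem KkD_small {x : ℝ} {m : ℤ} (h : |x| ≤ 1 / 16) (e : x = m) : x = 0 := by
  rw [abs_le] at h
  rw [e] at h ⊢
  have h1 : (m : ℝ) < 1 := by linarith [h.2]
  have h2 : (-1 : ℝ) < m := by linarith [h.1]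
  have h3 : m < 1 := by exact_mod_cast h1
  have h4 : -1 < m := by exact_mod_cast h2
  have h5 : m = 0 := by omega
  rw [h5, Int.cast_zero]

theorem Wk_gd {d₀ x₁ : ℝ} (D : WD d₀ x₁ ε) (l u : ℝ) {s : ℝ} (hs : 0 < s) (hs' : s < 1) :
    Gd (u, 1 / 2 + ε * s * Real.cos (2 * Real.pi * l), 1 / 2 + ε * s * Real.sin (2 * Real.pi * l)) := by
  have hc := KkD_bd D hs hs' (Real.abs_cos_le_one (2 * Real.pi * l))
  have hsn := KkD_bd D hs hs' (Real.abs_sin_le_one (2 * Real.pi * l))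
  have h3 : 0 < ε * s := mul_pos D.ε_pos hs
  constructor
  · rintro ⟨m, n, -, h⟩
    have h : 1 / 2 + ε * s * Real.cos (2 * Real.pi * l) = n := h
    rw [abs_le] at hc
    have h1 : (n : ℝ) < 1 := by linarith [hc.2]
    have h2 : (0 : ℝ) < n := by linarith [hc.1]
    have h4 : n < 1 := by exact_mod_cast h1
    have h5 : 0 < n := by exact_mod_cast h2
    omega
  · rintro ⟨m, n, h, h'⟩
    have h : 1 / 2 + ε * s * Real.cos (2 * Real.pi * l) = m + 1 / 2 := h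
    have h' : 1 / 2 + ε * s * Real.sin (2 * Real.pi * l) = n + 1 / 2 := h'
    have e1 := KkD_small hc (m := m) (by linarith)
    have e2 := KkD_small hsn (m := n) (by linarith)
    have c0 : Real.cos (2 * Real.pi * l) = 0 := (mul_eq_zero.1 e1).resolve_left h3.ne'
    have s0 : Real.sin (2 * Real.pi * l) = 0 := (mul_eq_zero.1 e2).resolve_left h3.ne'
    have := Real.sin_sq_add_cos_sq (2 * Real.pi * l)
    rw [c0, s0] at this
    norm_num at this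

theorem Wk_int {d₀ x₁ : ℝ} (D : WD d₀ x₁ ε) (l : ℝ) (v : ℂ) (m : ℤ) : D.Wk (l + m, v) = D.Wk (l, v) := by
  have h : Function.Periodic (fun l : ℝ => D.Wk (l, v)) 1 := fun l => D.k_per l v
  have h1 := h.int_mul m l
  rw [mul_one] at h1
  exact h1

theorem KkD_fract {d₀ x₁ : ℝ} (D : WD d₀ x₁ ε) (l : ℝ) (v : ℂ) : D.Wk (l, v) = D.Wk (Int.fract l, v) := by
  have h := Wk_int D (Int.fract l) v ⌊l⌋
  rw [Int.fract_add_floor] at h
  exact h

theorem KkD_W {d₀ x₁ : ℝ} (D : WD d₀ x₁ ε) (l : ℝ) {v : ℂ} (h0 : v ≠ 0) (hv : ‖v‖ < 1) :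
    D.Wk (l, v) = D.W (Complex.arg v / (2 * Real.pi), 1 / 2 + ε * ‖v‖ * Real.cos (2 * Real.pi * l),
      1 / 2 + ε * ‖v‖ * Real.sin (2 * Real.pi * l)) := by
  have h1 := D.k_glue l ‖v‖ (Complex.arg v / (2 * Real.pi)) (norm_pos_iff.2 h0) hv
  rw [Pool.Agent.RSG.ex_arg] at h1
  exact h1

theorem KkD_one {d₀ x₁ : ℝ} (D : WD d₀ x₁ ε) : ∃ Y, 0 < Y ∧ Y < 2 * d₀ ∧ D.Wk (0, 0) = cyl (0, 1 - Y, 0) := by
  obtain ⟨Y, h1, h2, h3⟩ := D.core_one
  refine ⟨Y, h1, h2, ?_⟩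
  have h4 := D.k_per 0 0
  rw [zero_add] at h4
  rw [← h4]
  exact h3

theorem KkD_cyl2 (u Y : ℝ) : (cyl (u, Y, 0)).2 = 0 := by
  show Real.exp Y * 0 = 0
  rw [mul_zero]

theorem KkD_sin_pos {a : ℝ} (h0 : 0 < a) (h1 : a < 1 / 2) : 0 < Real.sin (2 * Real.pi * a) := by
  have hp := Real.pi_pos
  refine Real.sin_pos_of_pos_of_lt_pi (by positivity) ?_
  nlinarith

theorem KkD_sin_neg {a : ℝ} (h0 : 1 / 2 < a) (h1 : a < 1) : Real.sin (2 * Real.pi * a) < 0 := by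
  have hp := Real.pi_pos
  have h2 : Real.sin (2 * Real.pi * a) = -Real.sin (2 * Real.pi * (a - 1 / 2)) := by
    rw [show 2 * Real.pi * (a - 1 / 2) = 2 * Real.pi * a - Real.pi by ring, Real.sin_sub_pi, neg_neg]
  rw [h2, neg_lt_zero]
  exact KkD_sin_pos (by linarith) (by linarith)

theorem KkD_sin_half : Real.sin (2 * Real.pi * (1 / 2)) = 0 := by
  rw [show 2 * Real.pi * (1 / 2) = Real.pi by ring, Real.sin_pi]

theorem KkD_cos_half : Real.cos (2 * Real.pi * (1 / 2)) = -1 := by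
  rw [show 2 * Real.pi * (1 / 2) = Real.pi by ring, Real.cos_pi]

/-- height on `0 < a < 1/2` -/
theorem KkD_neg {d₀ x₁ : ℝ} (D : WD d₀ x₁ ε) {a : ℝ} {v : ℂ} (hv : ‖v‖ < 1) (h0 : 0 < a) (h1 : a < 1 / 2) :
    (D.Wk (a, v)).2 < 0 := by
  by_cases h : v = 0
  · rw [h]
    exact D.core_neg a h0 h1
  · have hn := norm_pos_iff.2 h
    rw [KkD_W D a h hv]
    have hs := KkD_sin_pos h0 h1
    have hb := KkD_bd D hn hv (Real.abs_sin_le_one (2 * Real.pi * a))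
    rw [abs_le] at hb
    have hp : 0 < ε * ‖v‖ * Real.sin (2 * Real.pi * a) := mul_pos (mul_pos D.ε_pos hn) hs
    exact D.neg _ _ _ (Wk_gd D a _ hn hv) (by linarith) (by linarith [hb.2])

theorem KkD_pos {d₀ x₁ : ℝ} (D : WD d₀ x₁ ε) {a : ℝ} {v : ℂ} (hv : ‖v‖ < 1) (h0 : 1 / 2 < a) (h1 : a < 1) :
    0 < (D.Wk (a, v)).2 := by
  by_cases h : v = 0
  · rw [h]
    exact D.core_pos a h0 h1
  · have hn := norm_pos_iff.2 h
    rw [KkD_W D a h hv]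
    have hs := KkD_sin_neg h0 h1
    have hb := KkD_bd D hn hv (Real.abs_sin_le_one (2 * Real.pi * a))
    rw [abs_le] at hb
    have hp : ε * ‖v‖ * Real.sin (2 * Real.pi * a) < 0 :=
      mul_neg_of_pos_of_neg (mul_pos D.ε_pos hn) hs
    exact D.pos _ _ _ (Wk_gd D a _ hn hv) (by linarith [hb.1]) (by linarith)

/-- the point at `a = 0, 1/2` -/
theorem KkD_zone {d₀ x₁ : ℝ} (D : WD d₀ x₁ ε) {a : ℝ} {v : ℂ} (hv : ‖v‖ < 1) (h : a = 0 ∨ a = 1 / 2) :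
    (D.Wk (a, v)).2 = 0 ∧ ∃ n : ℤ, D.Wk (a, v) ∈ zone (2 * d₀) x₁ n := by
  have hx := D.x₁_pos
  by_cases h0 : v = 0
  · rcases h with rfl | rfl
    · obtain ⟨Y, h1, h2, h3⟩ := KkD_one D
      rw [h0, h3]
      refine ⟨KkD_cyl2 _ _, 1, 0, 1 - Y, 0, ?_, ?_, rfl⟩
      · push_cast
        nlinarith
      · rw [abs_zero]
        exact hx
    · obtain ⟨Y, h1, h2, h3⟩ := D.core_half
      rw [h0, h3]
      refine ⟨KkD_cyl2 _ _, 0, 0, Y, 0, ?_, ?_, rfl⟩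
      · push_cast
        nlinarith
      · rw [abs_zero]
        exact hx
  · have hn := norm_pos_iff.2 h0
    have hp : 0 < ε * ‖v‖ := mul_pos D.ε_pos hn
    have hb := KkD_bd D hn hv (c := 1) (by rw [abs_one])
    rw [mul_one, abs_of_pos hp] at hb
    have hg := Wk_gd D a (Complex.arg v / (2 * Real.pi)) hn hv
    rw [KkD_W D a h0 hv]
    rcases h with rfl | rfl
    · rw [mul_zero, Real.cos_zero, Real.sin_zero, mul_one, mul_zero, add_zero] at hg ⊢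
      refine ⟨D.page1 _ _ hg, 1, D.near1 _ _ 1 hg ?_⟩
      push_cast
      rw [abs_lt]
      constructor <;> linarith
    · rw [KkD_cos_half, KkD_sin_half, mul_zero, add_zero, mul_neg, mul_one] at hg ⊢
      refine ⟨D.page1 _ _ hg, 0, D.near1 _ _ 0 hg ?_⟩
      push_cast
      rw [abs_lt]
      constructor <;> linarith

theorem KkD_cases (l : ℝ) : (Int.fract l = 0 ∨ Int.fract l = 1 / 2) ∨ (0 < Int.fract l ∧ Int.fract l < 1 / 2) ∨
    (1 / 2 < Int.fract l ∧ Int.fract l < 1) := by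
  have h0 := Int.fract_nonneg l
  have h1 := Int.fract_lt_one l
  rcases h0.eq_or_lt with h | h
  · exact Or.inl (Or.inl h.symm)
  · rcases lt_trichotomy (Int.fract l) (1 / 2) with h2 | h2 | h2
    · exact Or.inr (Or.inl ⟨h, h2⟩)
    · exact Or.inl (Or.inr h2)
    · exact Or.inr (Or.inr ⟨h2, h1⟩)

theorem Wk_ne {d₀ x₁ : ℝ} (D : WD d₀ x₁ ε) (l : ℝ) {v : ℂ} (hv : ‖v‖ < 1) : D.Wk (l, v) ≠ 0 := by
  rw [KkD_fract D l v]
  rcases KkD_cases l with h | ⟨h, h'⟩ | ⟨h, h'⟩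
  · obtain ⟨-, n, hn⟩ := KkD_zone D hv h
    exact zone_ne (by linarith [D.x₁_lt]) hn
  · intro he
    have h1 := KkD_neg D hv h h'
    rw [he] at h1
    exact lt_irrefl _ h1
  · intro he
    have h1 := KkD_pos D hv h h'
    rw [he] at h1
    exact lt_irrefl _ h1

theorem Wk_nonneg {d₀ x₁ : ℝ} (D : WD d₀ x₁ ε) {l : ℝ} {v : ℂ} (hv : ‖v‖ < 1) (h : 1 / 2 ≤ Int.fract l ∨ Int.fract l = 0) :
    0 ≤ (D.Wk (l, v)).2 := by
  rw [KkD_fract D l v]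
  rcases h with h | h
  · rcases h.eq_or_lt with h1 | h1
    · exact (KkD_zone D hv (Or.inr h1.symm)).1.ge
    · exact (KkD_pos D hv h1 (Int.fract_lt_one l)).le
  · exact (KkD_zone D hv (Or.inl h)).1.ge

theorem Wk_neg {d₀ x₁ : ℝ} (D : WD d₀ x₁ ε) {l : ℝ} {v : ℂ} (hv : ‖v‖ < 1) (h0 : 0 < Int.fract l) (h1 : Int.fract l < 1 / 2) :
    (D.Wk (l, v)).2 < 0 := by
  rw [KkD_fract D l v]
  exact KkD_neg D hv h0 h1

theorem Wk_pos {d₀ x₁ : ℝ} (D : WD d₀ x₁ ε) {l : ℝ} {v : ℂ} (hv : ‖v‖ < 1) (h1 : 1 / 2 < Int.fract l) :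
    0 < (D.Wk (l, v)).2 := by
  rw [KkD_fract D l v]
  exact KkD_pos D hv h1 (Int.fract_lt_one l)

theorem Wk_zone {d₀ x₁ : ℝ} (D : WD d₀ x₁ ε) {l : ℝ} {v : ℂ} (hv : ‖v‖ < 1) (h : Int.fract l = 0 ∨ Int.fract l = 1 / 2) :
    ∃ n : ℤ, D.Wk (l, v) ∈ zone (2 * d₀) x₁ n := by
  rw [KkD_fract D l v]
  exact (KkD_zone D hv h).2

theorem gact_ok (hP : P.Ok) : Act ISP (gact P.v) := by
  refine Pool.Agent.GLB.gact_act ⟨-P.m'.2.2, P.m'.1, ?_⟩ ⟨P.m.2.2, -P.m.2.1, ?_⟩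
  · have := hP.alg.uni'
    linarith
  · have := hP.alg.uni
    linarith

theorem kK_one (hP : P.Ok) {l : ℝ} (h : 1 / 2 ≤ Int.fract l ∨ Int.fract l = 0) {v : ℂ} (hv : ‖v‖ < 1) (t : ℝ) :
    kK D (l, v, t) = E1t P (D.Wk (l, v), t) := by
  have hc : ¬ (0 < Int.fract l ∧ Int.fract l < 1 / 2) := by
    rintro ⟨h1, h2⟩
    rcases h with h | h
    · linarith
    · linarith
  have h1 : kK D (l, v, t) = gact P.v t (E1t P (D.Wk (l, v), 0)) := by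
    unfold kK
    simp only
    rw [if_neg hc]
  rw [h1, E1t_act P (dm_of_nonneg (Wk_ne D l hv) (Wk_nonneg D hv h)), zero_add]

theorem kK_two (hP : P.Ok) {l : ℝ} (h : Int.fract l ≤ 1 / 2) {v : ℂ} (hv : ‖v‖ < 1) (t : ℝ) :
    kK D (l, v, t) = E2t P (mir (D.Wk (l, v)), t) := by
  rcases KkD_cases l with h1 | ⟨h1, h2⟩ | ⟨h1, h2⟩
  · obtain ⟨n, hn⟩ := Wk_zone D hv h1
    rw [E2t_zone hP hn t]
    refine kK_one D hP ?_ hv t
    rcases h1 with h1 | h1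
    · exact Or.inr h1
    · exact Or.inl h1.ge
  · have h3 : kK D (l, v, t) = gact P.v t (E2t P (mir (D.Wk (l, v)), 0)) := by
      unfold kK
      simp only
      rw [if_pos ⟨h1, h2⟩]
    have h4 : 0 ≤ (mir (D.Wk (l, v))).2 := by
      show 0 ≤ -(D.Wk (l, v)).2
      linarith [Wk_neg D hv h1 h2]
    rw [h3, E2t_act hP (dm_of_nonneg (mir_ne (Wk_ne D l hv)) h4), zero_add]
  · linarith

theorem kK_perl (l : ℝ) (v : ℂ) (t : ℝ) : kK D (l + 1, v, t) = kK D (l, v, t) := by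
  unfold kK
  simp only [Int.fract_add_one, D.k_per]

theorem KkD_gact (l : ℝ) (v : ℂ) : ∃ X : SP, ∀ t, kK D (l, v, t) = gact P.v t X := by
  by_cases h : 0 < Int.fract l ∧ Int.fract l < 1 / 2
  · refine ⟨E2t P (mir (D.Wk (l, v)), 0), fun t => ?_⟩
    unfold kK
    simp only
    rw [if_pos h]
  · refine ⟨E1t P (D.Wk (l, v), 0), fun t => ?_⟩
    unfold kK
    simp only
    rw [if_neg h]

theorem kK_act (hP : P.Ok) (l : ℝ) (v : ℂ) (t s : ℝ) : gact P.v s (kK D (l, v, t)) = kK D (l, v, t + s) := by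
  obtain ⟨X, hX⟩ := KkD_gact D l v
  rw [hX, hX, add_comm t s, (gact_ok hP).add]

theorem kK_pert (hP : P.Ok) (l : ℝ) (v : ℂ) (t : ℝ) : kK D (l, v, t + 1) = kK D (l, v, t) := by
  obtain ⟨X, hX⟩ := KkD_gact D l v
  rw [hX, hX, (gact_ok hP).add, (gact_ok hP).per]

end Pool.Agent.CHO
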