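import Pool.Agent.CHO.KkD
import Pool.Agent.CHO.ThL

/-!
# CHO/KkG: gluing of `kK` and `Th`   (difficulty 2)

`a = Int.fract l`, `y = 1/2 + (ε s ex l).re = 1/2 + ε s cos 2πl`, `t = 1/2 + (ε s ex l).im = 1/2 + ε s sin 2πl` (`RSG.ex_re`, `ex_im`), `x = pt τ u y`.
* `Gt t x = x` (`Rr_half`, `b = 0`, `|ε s cos| ≤ 1/16`), so `Th (x, t) = Thu (x, t)`; `Wk (l, s ex u) = W (u, y, t)` (`k_glue`).
* `sin 2πl ≤ 0` iff `a = 0` or `a ≥ 1/2` (`sin 2πl = sin 2πa`): `Thu_lo`, `kK_one`.  Otherwise `0 < a < 1/2`, `t > 1/2`: `Thu_hi`, `kK_two`.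
-/

open scoped Manifold ContDiff Topology
open Complex (I normSq)

namespace Pool.Agent.CHO

open Pool.Agent.CSG (vec pt act stp)
open Pool.Agent.RSG (ex)
open Pool.Agent.PTH (SP ISP gact)
open Pool.Agent.CHW (F3 q2 rr mir cyl zone WD Gd OnB OnK)

variable {P : Pm} {ε : ℝ} (D : WD P.d₀ P.x₁ ε)

theorem KkG_sin (l : ℝ) : Real.sin (2 * Real.pi * l) = Real.sin (2 * Real.pi * Int.fract l) := by
  have h := Int.fract_add_floor l
  conv_lhs => rw [← h]
  rw [show 2 * Real.pi * (Int.fract l + ⌊l⌋) = 2 * Real.pi * Int.fract l + ⌊l⌋ * (2 * Real.pi) by ring,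
    Real.sin_add_int_mul_two_pi]

theorem kK_glue (hP : P.Ok) {l s u τ : ℝ} (hs : 0 < s) (hs' : s < 1) :
    kK D (l, s * ex u, τ) = Th D (pt τ u (1 / 2 + (ε * s * ex l).re), 1 / 2 + (ε * s * ex l).im) := by
  have hre : ((ε : ℂ) * s * ex l).re = ε * s * Real.cos (2 * Real.pi * l) := by
    rw [← Complex.ofReal_mul, Complex.re_ofReal_mul, Pool.Agent.RSG.ex_re]
  have him : ((ε : ℂ) * s * ex l).im = ε * s * Real.sin (2 * Real.pi * l) := by
    rw [← Complex.ofReal_mul, Complex.im_ofReal_mul, Pool.Agent.RSG.ex_im]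
  have hn : ‖((s : ℂ) * ex u)‖ < 1 := by
    rw [norm_mul, Pool.Agent.RSG.ex_norm, mul_one, Complex.norm_real, Real.norm_eq_abs, abs_of_pos hs]
    exact hs'
  have hb := KkD_bd D hs hs' (Real.abs_cos_le_one (2 * Real.pi * l))
  have hG : ∀ t, Gt P t (pt τ u (1 / 2 + ε * s * Real.cos (2 * Real.pi * l))) =
      pt τ u (1 / 2 + ε * s * Real.cos (2 * Real.pi * l)) := by
    intro t
    unfold Gt
    refine Rr_half hP.d₀_pos hP.d₀_lt _ (b := 0) ?_
    rw [Pool.Agent.CSG.pt_two', Int.cast_zero]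
    have e : 1 / 2 + ε * s * Real.cos (2 * Real.pi * l) - 0 - 1 / 2 = ε * s * Real.cos (2 * Real.pi * l) := by ring
    rw [e]
    exact hb
  have hTh : ∀ t, Th D (pt τ u (1 / 2 + ε * s * Real.cos (2 * Real.pi * l)), t) =
      Thu D (pt τ u (1 / 2 + ε * s * Real.cos (2 * Real.pi * l)), t) := by
    intro t
    unfold Th
    simp only
    rw [hG]
  rw [hre, him, hTh]
  have hk := D.k_glue l s u hs hs'
  have hp : 0 < ε * s := mul_pos D.ε_pos hs
  have hlo : Real.sin (2 * Real.pi * l) ≤ 0 → (1 / 2 ≤ Int.fract l ∨ Int.fract l = 0) →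
      kK D (l, s * ex u, τ) = Thu D (pt τ u (1 / 2 + ε * s * Real.cos (2 * Real.pi * l)),
        1 / 2 + ε * s * Real.sin (2 * Real.pi * l)) := by
    intro h h'
    have h1 : ε * s * Real.sin (2 * Real.pi * l) ≤ 0 := mul_nonpos_of_nonneg_of_nonpos hp.le h
    rw [Thu_lo D _ (by linarith), Pool.Agent.CSG.pt_one', Pool.Agent.CSG.pt_two', Pool.Agent.CSG.pt_zero',
      kK_one D hP h' hn, hk]
  rcases KkD_cases l with (h | h) | ⟨h, h'⟩ | ⟨h, h'⟩
  · refine hlo ?_ (Or.inr h)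
    rw [KkG_sin, h, mul_zero, Real.sin_zero]
  · refine hlo ?_ (Or.inl h.ge)
    rw [KkG_sin, h, KkD_sin_half]
  · have h1 : 0 < Real.sin (2 * Real.pi * l) := by
      rw [KkG_sin]
      exact KkD_sin_pos h h'
    have h2 : 0 < ε * s * Real.sin (2 * Real.pi * l) := mul_pos hp h1
    rw [Thu_hi D _ (by linarith), Pool.Agent.CSG.pt_one', Pool.Agent.CSG.pt_two', Pool.Agent.CSG.pt_zero',
      kK_two D hP h'.le hn, hk]
  · refine hlo ?_ (Or.inl h.le)
    rw [KkG_sin]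
    exact (KkD_sin_neg h h').le

end Pool.Agent.CHO
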