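import Pool.Agent.CHO.KkD

/-!
# CHO/KkL: `kK` is a thick torus   (difficulty 3)

`a = Int.fract l`; `Dm (Wk (l, v))` for `a = 0` or `a ≥ 1/2` (`dm_of_nonneg`, `Wk_ne`, `Wk_nonneg`), `Dm (mir (Wk (l, v)))` for `a ≤ 1/2`.
* `kK_ld`: `(l, v, t) ↦ ((l, v), t)` linear isomorphism, `Wk × id` (`k_loc`, `RSG.ld_prodMap`) `=: F`, also `(mir × id) ∘ F`.  `a ∈ (0, 1/2)`: near `l` `0 < fract < 1/2`, `kK = E2t ∘ (mir × id) ∘ F`
  (`E2t_ld`).  `a ∈ (1/2, 1)`: `kK = E1t ∘ F`.  `a ∈ {0, 1/2}`: `Wk (l, v)` is in an open zone (`Wk_zone`, `zone_isOpen`), by continuity `Wk (l', v')` is in the zone for `(l', v')` near `(l, v)`,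
  so `kK = E1t ∘ F` there (definition and `E2t_zone`).
* `kK_inj`: both in the first region (`a, a' ∈ {0} ∪ [1/2, 1)`): `E1t_inj`, `k_inj`.  Both in the second region (`a, a' ∈ (0, 1/2)`): `E2t_inj`, `mir_smul`, `mir_mir`, `k_inj`.  Mixed: `E12t_ht`: heights
  `0 ≤`, and `(mir (Wk ..)).2 = -(Wk ..).2 > 0` (`Wk_neg`): contradiction.  (`k_inj` gives `l' = l + m`; the sides: `Wk (l, v) = exp n • Wk (l', v')`.)
-/

open scoped Manifold ContDiff Topology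
open Filter
open Complex (I normSq)

namespace Pool.Agent.CHO

open Pool.Agent.CSG (vec pt act stp)
open Pool.Agent.RSG (ex)
open Pool.Agent.PTH (SP ISP gact)
open Pool.Agent.CHW (F3 q2 rr mir cyl zone WD Gd OnB OnK)

variable {P : Pm} {ε : ℝ} (D : WD P.d₀ P.x₁ ε)

theorem KkL_prodV {E F E' F' : Type*} [NormedAddCommGroup E] [NormedSpace ℝ E] [NormedAddCommGroup F] [NormedSpace ℝ F]
    [NormedAddCommGroup E'] [NormedSpace ℝ E'] [NormedAddCommGroup F'] [NormedSpace ℝ F']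
    {f : E → F} {g : E' → F'} {x : E} {y : E'}
    (hf : IsLocalDiffeomorphAt 𝓘(ℝ, E) 𝓘(ℝ, F) ∞ f x)
    (hg : IsLocalDiffeomorphAt 𝓘(ℝ, E') 𝓘(ℝ, F') ∞ g y) :
    IsLocalDiffeomorphAt 𝓘(ℝ, E × E') 𝓘(ℝ, F × F') ∞ (Prod.map f g) (x, y) := by
  rw [modelWithCornersSelf_prod, modelWithCornersSelf_prod, ← chartedSpaceSelf_prod,
    ← chartedSpaceSelf_prod]
  exact Pool.Agent.RSG.ld_prodMap hf hg

theorem KkL_lin (q : ℝ × ℂ × ℝ) : IsLocalDiffeomorphAt 𝓘(ℝ, ℝ × ℂ × ℝ) 𝓘(ℝ, (ℝ × ℂ) × ℝ) ∞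
    (fun q : ℝ × ℂ × ℝ => ((q.1, q.2.1), q.2.2)) q := by
  refine Pool.Agent.RSG.ld_two (g := fun r : (ℝ × ℂ) × ℝ => (r.1.1, r.1.2, r.2)) ?_ ?_ ?_ ?_
  · refine Filter.Eventually.of_forall fun y => ?_
    have h : ContDiff ℝ ∞ (fun q : ℝ × ℂ × ℝ => ((q.1, q.2.1), q.2.2)) := by fun_prop
    exact h.contDiffAt.contMDiffAt
  · refine Filter.Eventually.of_forall fun y => ?_
    have h : ContDiff ℝ ∞ (fun r : (ℝ × ℂ) × ℝ => (r.1.1, r.1.2, r.2)) := by fun_prop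
    exact h.contDiffAt.contMDiffAt
  · exact Filter.Eventually.of_forall fun y => rfl
  · exact Filter.Eventually.of_forall fun y => rfl

theorem KkL_mir (x : F3) : IsLocalDiffeomorphAt 𝓘(ℝ, F3) 𝓘(ℝ, F3) ∞ mir x := by
  refine Pool.Agent.RSG.ld_two (g := mir) ?_ ?_ ?_ ?_
  · refine Filter.Eventually.of_forall fun y => ?_
    have h : ContDiff ℝ ∞ (fun q : F3 => (q.1, -q.2)) := by fun_prop
    exact h.contDiffAt.contMDiffAt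
  · refine Filter.Eventually.of_forall fun y => ?_
    have h : ContDiff ℝ ∞ (fun q : F3 => (q.1, -q.2)) := by fun_prop
    exact h.contDiffAt.contMDiffAt
  · exact Filter.Eventually.of_forall fun y => mir_mir y
  · exact Filter.Eventually.of_forall fun y => mir_mir y

/-- the chart -/
noncomputable def KkL_F (q : ℝ × ℂ × ℝ) : F3 × ℝ := (D.Wk (q.1, q.2.1), q.2.2)

noncomputable def KkL_G (q : ℝ × ℂ × ℝ) : F3 × ℝ := (mir (D.Wk (q.1, q.2.1)), q.2.2)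

theorem KkL_F_ld (l : ℝ) {v : ℂ} (hv : ‖v‖ < 1) (t : ℝ) :
    IsLocalDiffeomorphAt 𝓘(ℝ, ℝ × ℂ × ℝ) 𝓘(ℝ, F3 × ℝ) ∞ (KkL_F D) (l, v, t) := by
  have h1 := KkL_lin (l, v, t)
  have h2 : IsLocalDiffeomorphAt 𝓘(ℝ, (ℝ × ℂ) × ℝ) 𝓘(ℝ, F3 × ℝ) ∞ (Prod.map D.Wk (id : ℝ → ℝ)) ((l, v), t) :=
    KkL_prodV (D.k_loc l v hv) (Pool.Agent.CSG.ld_id (I := 𝓘(ℝ, ℝ)) (n := ∞) t)
  exact IsLocalDiffeomorphAt.comp (hf := h1) (hg := h2) ..

theorem KkL_G_ld (l : ℝ) {v : ℂ} (hv : ‖v‖ < 1) (t : ℝ) :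
    IsLocalDiffeomorphAt 𝓘(ℝ, ℝ × ℂ × ℝ) 𝓘(ℝ, F3 × ℝ) ∞ (KkL_G D) (l, v, t) := by
  have h1 := KkL_F_ld D l hv t
  have h2 : IsLocalDiffeomorphAt 𝓘(ℝ, F3 × ℝ) 𝓘(ℝ, F3 × ℝ) ∞ (Prod.map mir (id : ℝ → ℝ)) (KkL_F D (l, v, t)) :=
    KkL_prodV (KkL_mir _) (Pool.Agent.CSG.ld_id (I := 𝓘(ℝ, ℝ)) (n := ∞) t)
  exact IsLocalDiffeomorphAt.comp (hf := h1) (hg := h2) ..

theorem KkL_fract {l : ℝ} (h : 0 < Int.fract l) : ContinuousAt (Int.fract : ℝ → ℝ) l := by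
  apply continuousAt_fract
  intro he
  have h1 := Int.fract_add_floor l
  rw [← he] at h1
  linarith

theorem KkL_near {l : ℝ} {v : ℂ} (hv : ‖v‖ < 1) (t : ℝ) : ∀ᶠ q : ℝ × ℂ × ℝ in 𝓝 (l, v, t), ‖q.2.1‖ < 1 := by
  have h1 : Continuous fun q : ℝ × ℂ × ℝ => ‖q.2.1‖ := by fun_prop
  exact h1.continuousAt.eventually_lt continuousAt_const hv

theorem kK_ld (hP : P.Ok) (l : ℝ) {v : ℂ} (hv : ‖v‖ < 1) (t : ℝ) :
    IsLocalDiffeomorphAt 𝓘(ℝ, ℝ × ℂ × ℝ) ISP ∞ (kK D) (l, v, t) := by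
  rcases KkD_cases l with h | ⟨h, h'⟩ | ⟨h, h'⟩
  · obtain ⟨n, hn⟩ := Wk_zone D hv h
    have hx : P.x₁ ≤ 1 := by linarith [D.x₁_lt]
    have h1 : IsLocalDiffeomorphAt 𝓘(ℝ, F3 × ℝ) ISP ∞ (E1t P) (KkL_F D (l, v, t)) :=
      E1t_ld hP (zone_dm hx hn) t
    have h2 : IsLocalDiffeomorphAt 𝓘(ℝ, ℝ × ℂ × ℝ) ISP ∞ (E1t P ∘ KkL_F D) (l, v, t) :=
      IsLocalDiffeomorphAt.comp (hf := KkL_F_ld D l hv t) (hg := h1) ..
    refine Pool.Agent.CSG.ld_congr h2 ?_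
    have hc : ContinuousAt (KkL_F D) (l, v, t) := Pool.Agent.CSG.ld_continuousAt (KkL_F_ld D l hv t)
    have hc1 : ContinuousAt (fun q => (KkL_F D q).1) (l, v, t) := continuousAt_fst.comp hc
    have h3 : ∀ᶠ q in 𝓝 (l, v, t), (KkL_F D q).1 ∈ zone (2 * P.d₀) P.x₁ n :=
      hc1.eventually ((zone_isOpen hx n).mem_nhds hn)
    filter_upwards [h3] with q hq
    obtain ⟨l', v', t'⟩ := q
    have hq : D.Wk (l', v') ∈ zone (2 * P.d₀) P.x₁ n := hq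
    show kK D (l', v', t') = E1t P (D.Wk (l', v'), t')
    have h4 : kK D (l', v', t') = gact P.v t' (E1t P (D.Wk (l', v'), 0)) := by
      unfold kK
      simp only
      split_ifs
      · rw [E2t_zone hP hq]
      · rfl
    rw [h4, E1t_act P (zone_dm hx hq), zero_add]
  · have h4 : 0 ≤ (mir (D.Wk (l, v))).2 := by
      show 0 ≤ -(D.Wk (l, v)).2
      linarith [Wk_neg D hv h h']
    have h1 : IsLocalDiffeomorphAt 𝓘(ℝ, F3 × ℝ) ISP ∞ (E2t P) (KkL_G D (l, v, t)) :=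
      E2t_ld hP (dm_of_nonneg (mir_ne (Wk_ne D l hv)) h4) t
    have h2 : IsLocalDiffeomorphAt 𝓘(ℝ, ℝ × ℂ × ℝ) ISP ∞ (E2t P ∘ KkL_G D) (l, v, t) :=
      IsLocalDiffeomorphAt.comp (hf := KkL_G_ld D l hv t) (hg := h1) ..
    refine Pool.Agent.CSG.ld_congr h2 ?_
    have hc : ContinuousAt (fun q : ℝ × ℂ × ℝ => Int.fract q.1) (l, v, t) :=
      ContinuousAt.comp (g := Int.fract) (f := Prod.fst) (x := (l, v, t)) (KkL_fract h) continuousAt_fst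
    have h3 : ∀ᶠ q : ℝ × ℂ × ℝ in 𝓝 (l, v, t), Int.fract q.1 < 1 / 2 :=
      hc.eventually_lt continuousAt_const h'
    filter_upwards [h3, KkL_near hv t] with q hq hq'
    obtain ⟨l', v', t'⟩ := q
    exact kK_two D hP (le_of_lt hq) hq' t'
  · have h4 : 0 ≤ (D.Wk (l, v)).2 := Wk_nonneg D hv (Or.inl h.le)
    have h1 : IsLocalDiffeomorphAt 𝓘(ℝ, F3 × ℝ) ISP ∞ (E1t P) (KkL_F D (l, v, t)) :=
      E1t_ld hP (dm_of_nonneg (Wk_ne D l hv) h4) t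
    have h2 : IsLocalDiffeomorphAt 𝓘(ℝ, ℝ × ℂ × ℝ) ISP ∞ (E1t P ∘ KkL_F D) (l, v, t) :=
      IsLocalDiffeomorphAt.comp (hf := KkL_F_ld D l hv t) (hg := h1) ..
    refine Pool.Agent.CSG.ld_congr h2 ?_
    have hc : ContinuousAt (fun q : ℝ × ℂ × ℝ => Int.fract q.1) (l, v, t) :=
      ContinuousAt.comp (g := Int.fract) (f := Prod.fst) (x := (l, v, t)) (KkL_fract (by linarith)) continuousAt_fst
    have h3 : ∀ᶠ q : ℝ × ℂ × ℝ in 𝓝 (l, v, t), 1 / 2 < Int.fract q.1 :=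
      continuousAt_const.eventually_lt hc h
    filter_upwards [h3, KkL_near hv t] with q hq hq'
    obtain ⟨l', v', t'⟩ := q
    exact kK_one D hP (Or.inl (le_of_lt hq)) hq' t'

theorem KkL_same {l : ℝ} {v : ℂ} {l' : ℝ} {v' : ℂ} (hv : ‖v‖ < 1) (hv' : ‖v'‖ < 1)
    {n : ℤ} (he : D.Wk (l', v') = Real.exp n • D.Wk (l, v)) : v = v' ∧ ∃ m : ℤ, l' = l + m := by
  obtain ⟨-, h1, m, hm⟩ := D.k_inj l' v' l v n hv' hv he
  refine ⟨h1.symm, -m, ?_⟩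
  rw [hm]
  push_cast
  ring

theorem KkL_reg (l : ℝ) : (1 / 2 ≤ Int.fract l ∨ Int.fract l = 0) ∨ (0 < Int.fract l ∧ Int.fract l < 1 / 2) := by
  rcases KkD_cases l with (h | h) | h | ⟨h, h'⟩
  · exact Or.inl (Or.inr h)
  · exact Or.inl (Or.inl h.ge)
  · exact Or.inr h
  · exact Or.inl (Or.inl h.le)

theorem KkL_mixed (hP : P.Ok) {l : ℝ} {v : ℂ} {t l' : ℝ} {v' : ℂ} {t' : ℝ} (hv : ‖v‖ < 1) (hv' : ‖v'‖ < 1)
    (h : 1 / 2 ≤ Int.fract l ∨ Int.fract l = 0) (h' : 0 < Int.fract l' ∧ Int.fract l' < 1 / 2)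
    (he : kK D (l, v, t) = kK D (l', v', t')) : False := by
  rw [kK_one D hP h hv, kK_two D hP h'.2.le hv'] at he
  have h4 : 0 < (mir (D.Wk (l', v'))).2 := by
    show 0 < -(D.Wk (l', v')).2
    linarith [Wk_neg D hv' h'.1 h'.2]
  have h5 := Wk_nonneg D hv h
  have h6 := E12t_ht (dm_of_nonneg (Wk_ne D l hv) h5) (dm_of_nonneg (mir_ne (Wk_ne D l' hv')) h4.le) h5 h4.le he
  linarith [h6.2]

theorem kK_inj (hP : P.Ok) {l : ℝ} {v : ℂ} {t l' : ℝ} {v' : ℂ} {t' : ℝ} (hv : ‖v‖ < 1) (hv' : ‖v'‖ < 1)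
    (he : kK D (l, v, t) = kK D (l', v', t')) : v = v' ∧ (∃ m : ℤ, l' = l + m) ∧ ∃ m : ℤ, t' = t + m := by
  rcases KkL_reg l with h | h <;> rcases KkL_reg l' with h' | h'
  · rw [kK_one D hP h hv, kK_one D hP h' hv'] at he
    obtain ⟨⟨n, hn⟩, hj⟩ := E1t_inj hP (dm_of_nonneg (Wk_ne D l hv) (Wk_nonneg D hv h))
      (dm_of_nonneg (Wk_ne D l' hv') (Wk_nonneg D hv' h')) he
    obtain ⟨e1, e2⟩ := KkL_same D hv hv' hn
    exact ⟨e1, e2, hj⟩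
  · exact (KkL_mixed D hP hv hv' h h' he).elim
  · exact (KkL_mixed D hP hv' hv h' h he.symm).elim
  · rw [kK_two D hP h.2.le hv, kK_two D hP h'.2.le hv'] at he
    have h4 : 0 ≤ (mir (D.Wk (l, v))).2 := by
      show 0 ≤ -(D.Wk (l, v)).2
      linarith [Wk_neg D hv h.1 h.2]
    have h5 : 0 ≤ (mir (D.Wk (l', v'))).2 := by
      show 0 ≤ -(D.Wk (l', v')).2
      linarith [Wk_neg D hv' h'.1 h'.2]
    obtain ⟨⟨n, hn⟩, hj⟩ := E2t_inj hP (dm_of_nonneg (mir_ne (Wk_ne D l hv)) h4)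
      (dm_of_nonneg (mir_ne (Wk_ne D l' hv')) h5) he
    have hn' : D.Wk (l', v') = Real.exp n • D.Wk (l, v) := by
      rw [← mir_mir (D.Wk (l', v')), hn, mir_smul, mir_mir]
    obtain ⟨e1, e2⟩ := KkL_same D hv hv' hn'
    exact ⟨e1, e2, hj⟩

end Pool.Agent.CHO
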