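import Pool.Agent.CHO.KkD

/-!
# CHO/ShM: smaller `ε`   (difficulty 2)

`D' = D.shrink`: `W`, `th`, all fields of `W` unchanged; with `c = ε' / ε ∈ (0, 1]`:
`Wb' (θ, ζ) = D.Wb (θ, c ζ)`, `Wk' (l, ζ) = D.Wk (l, c ζ)`.
* `b_glue`: `Wb' (θ, s ex (t - 1/2)) = D.Wb (θ, (c s) ex ..) = W (ε (c s) .., ..)`, `ε c = ε'`; `c s < 5`.  `k_glue`: the same (`c s < 1`).
* `b_loc`, `k_loc`: `(θ, ζ) ↦ (θ, c ζ)` is a linear isomorphism.  `b_inj`, `k_inj`: `c ζ = c ζ'` gives `ζ = ζ'`; `‖c ζ‖ ≤ ‖ζ‖`.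
* all fields with `ζ = 0` are unchanged (`c * 0 = 0`; `coX Wk' = coX Wk`, `coY` as functions: `funext`, so that the `deriv`s agree).
* `ε_le : 5 ε' ≤ 5 ε ≤ d₀`.
-/

open scoped Manifold ContDiff Topology
open Complex (I normSq)

namespace Pool.Agent.CHO

open Pool.Agent.CHW (F3 q2 rr mir cyl zone WD Gd OnB OnK)

theorem ShM_ld {c : ℝ} (hc : c ≠ 0) (q : ℝ × ℂ) :
    Pool.Agent.CHW.LD (fun q : ℝ × ℂ => (q.1, (c : ℂ) * q.2)) q := by
  have hc' : (c : ℂ) ≠ 0 := by exact_mod_cast hc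
  let f : ℝ × ℂ ≃ ℝ × ℂ := ⟨fun q => (q.1, (c : ℂ) * q.2), fun q => (q.1, (c : ℂ)⁻¹ * q.2),
    fun q => by simp [hc'], fun q => by simp [hc']⟩
  have h := Pool.Agent.CSG.ld_of_perm (f := f)
    (contDiff_fst.prodMk (contDiff_const.mul contDiff_snd))
    (contDiff_fst.prodMk (contDiff_const.mul contDiff_snd)) q
  exact h

theorem ShM_comp {g : ℝ × ℂ → F3} {c : ℝ} (hc : c ≠ 0) {θ : ℝ} {ζ : ℂ}
    (h : Pool.Agent.CHW.LD g (θ, (c : ℂ) * ζ)) :
    Pool.Agent.CHW.LD (fun q : ℝ × ℂ => g (q.1, (c : ℂ) * q.2)) (θ, ζ) :=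
  (ShM_ld hc (θ, ζ)).comp 𝓘(ℝ, F3) F3 (g := g) h

theorem ShM_norm {c : ℝ} (h0 : 0 < c) (h1 : c ≤ 1) {a : ℝ} {ζ : ℂ} (h : ‖ζ‖ < a) :
    ‖(c : ℂ) * ζ‖ < a := by
  rw [norm_mul, Complex.norm_real, Real.norm_of_nonneg h0.le]
  have := norm_nonneg ζ
  nlinarith

theorem exists_shrink {d₀ x₁ ε ε' : ℝ} (D : WD d₀ x₁ ε) (h0 : 0 < ε') (h : ε' ≤ ε) :
    ∃ D' : WD d₀ x₁ ε', D'.W = D.W ∧ ∀ l, D'.Wk (l, 0) = D.Wk (l, 0) := by
  have hε := D.ε_pos
  obtain ⟨c, hc⟩ : ∃ c : ℝ, c = ε' / ε := ⟨_, rfl⟩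
  have c0 : 0 < c := by rw [hc]; positivity
  have c1 : c ≤ 1 := by rw [hc, div_le_one hε]; exact h
  have cε : ε * c = ε' := by rw [hc]; field_simp
  have hcz : ((c : ℝ) : ℂ) * 0 = 0 := mul_zero _
  have hc' : (c : ℂ) ≠ 0 := by exact_mod_cast c0.ne'
  obtain ⟨Wk', eK⟩ : ∃ f : ℝ × ℂ → F3, f = fun q : ℝ × ℂ => D.Wk (q.1, (c : ℂ) * q.2) := ⟨_, rfl⟩
  obtain ⟨Wb', eB⟩ : ∃ f : ℝ × ℂ → F3, f = fun q : ℝ × ℂ => D.Wb (q.1, (c : ℂ) * q.2) := ⟨_, rfl⟩
  have eK' : ∀ l ζ, Wk' (l, ζ) = D.Wk (l, (c : ℂ) * ζ) := fun l ζ => by rw [eK]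
  have eB' : ∀ l ζ, Wb' (l, ζ) = D.Wb (l, (c : ℂ) * ζ) := fun l ζ => by rw [eB]
  have hk : ∀ l, Wk' (l, 0) = D.Wk (l, 0) := by
    intro l
    rw [eK', hcz]
  have hb : ∀ l, Wb' (l, 0) = D.Wb (l, 0) := by
    intro l
    rw [eB', hcz]
  have hX : Pool.Agent.CHW.coX Wk' = Pool.Agent.CHW.coX D.Wk := by
    funext l
    unfold Pool.Agent.CHW.coX
    rw [hk]
  have hY : Pool.Agent.CHW.coY Wk' = Pool.Agent.CHW.coY D.Wk := by
    funext l
    unfold Pool.Agent.CHW.coY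
    rw [hk]
  refine ⟨{
    W := D.W
    Wb := Wb'
    Wk := Wk'
    th := D.th
    d₀_pos := D.d₀_pos
    x₁_pos := D.x₁_pos
    x₁_lt := D.x₁_lt
    ε_pos := h0
    ε_le := by have := D.ε_le; linarith
    ε_le' := by have := D.ε_le'; linarith
    ne := D.ne
    loc := D.loc
    per_u := D.per_u
    per_t := D.per_t
    per_y := D.per_y
    inj := D.inj
    pos := D.pos
    neg := D.neg
    page0 := D.page0
    page1 := D.page1
    collar := D.collar
    th_lt := D.th_lt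
    near0 := D.near0
    near1 := D.near1
    b_per := fun θ ζ => by rw [eB', eB']; exact D.b_per θ _
    b_loc := fun θ ζ hζ => by
      rw [eB]
      exact ShM_comp c0.ne' (D.b_loc θ _ (ShM_norm c0 c1 hζ))
    b_glue := by
      intro θ s t hs hs'
      have h1 := D.b_glue θ (c * s) t (mul_pos c0 hs) (by nlinarith)
      rw [eB', ← mul_assoc, ← Complex.ofReal_mul, h1]
      congr 1
      rw [← cε]
      refine Prod.ext ?_ (Prod.ext ?_ rfl)
      · change ε * (c * s) * _ = ε * c * s * _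
        ring
      · change ε * (c * s) * _ = ε * c * s * _
        ring
    b_inj := by
      intro θ ζ θ' ζ' n hζ hζ' he
      rw [eB', eB'] at he
      obtain ⟨e1, e2, e3⟩ := D.b_inj θ _ θ' _ n (ShM_norm c0 c1 hζ) (ShM_norm c0 c1 hζ') he
      exact ⟨e1, mul_left_cancel₀ hc' e2, e3⟩
    b_zone := fun θ ζ hζ => by rw [eB']; exact D.b_zone θ _ (ShM_norm c0 c1 hζ)
    b_disj := by
      intro θ q n hq
      rw [hb]
      exact D.b_disj θ q n hq
    k_per := fun l ζ => by rw [eK', eK']; exact D.k_per l _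
    k_loc := fun l ζ hζ => by
      rw [eK]
      exact ShM_comp c0.ne' (D.k_loc l _ (ShM_norm c0 c1 hζ))
    k_glue := by
      intro l s u hs hs'
      have h1 := D.k_glue l (c * s) u (mul_pos c0 hs) (by nlinarith)
      rw [eK', ← mul_assoc, ← Complex.ofReal_mul, h1]
      congr 1
      rw [← cε]
      refine Prod.ext rfl (Prod.ext ?_ ?_)
      · change 1 / 2 + ε * (c * s) * _ = 1 / 2 + ε * c * s * _
        ring
      · change 1 / 2 + ε * (c * s) * _ = 1 / 2 + ε * c * s * _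
        ring
    k_inj := by
      intro l ζ l' ζ' n hζ hζ' he
      rw [eK', eK'] at he
      obtain ⟨e1, e2, e3⟩ := D.k_inj l _ l' _ n (ShM_norm c0 c1 hζ) (ShM_norm c0 c1 hζ') he
      exact ⟨e1, mul_left_cancel₀ hc' e2, e3⟩
    k_disj := by
      intro l q n hq
      rw [hk]
      exact D.k_disj l q n hq
    bk_disj := by
      intro l θ n
      rw [hk, hb]
      exact D.bk_disj l θ n
    cover := by
      intro x hx
      rcases D.cover x hx with ⟨θ, n, e⟩ | ⟨l, n, e⟩ | h3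
      · left
        refine ⟨θ, n, ?_⟩
        rw [hb]
        exact e
      · right
        left
        refine ⟨l, n, ?_⟩
        rw [hk]
        exact e
      · exact Or.inr (Or.inr h3)
    core_im := by
      intro l
      rw [hk]
      exact D.core_im l
    core_re := by
      intro l
      rw [hk]
      exact D.core_re l
    core_pos := by
      intro l h1 h2
      rw [hk]
      exact D.core_pos l h1 h2
    core_neg := by
      intro l h1 h2
      rw [hk]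
      exact D.core_neg l h1 h2
    core_Y1 := by
      rw [hY]
      exact D.core_Y1
    core_Y0 := by
      rw [hY]
      exact D.core_Y0
    core_X0 := by
      rw [hX]
      exact D.core_X0
    core_X1 := by
      rw [hX]
      exact D.core_X1
    core_near0 := by
      intro l h1 h2
      rw [hX] at h2
      rw [hk]
      exact D.core_near0 l h1 h2
    core_near1 := by
      intro l h1 h2
      rw [hX] at h2
      rw [hk]
      exact D.core_near1 l h1 h2
    core_mid := by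
      rw [hX]
      exact D.core_mid
    core_half := by
      obtain ⟨Y, h1, h2, h3⟩ := D.core_half
      refine ⟨Y, h1, h2, ?_⟩
      rw [hk]
      exact h3
    core_one := by
      obtain ⟨Y, h1, h2, h3⟩ := D.core_one
      refine ⟨Y, h1, h2, ?_⟩
      rw [hk]
      exact h3 }, rfl, hk⟩

end Pool.Agent.CHO
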