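import Pool.Agent.CHO.ThL

/-!
# CHO/ThI: injectivity of `Th`   (difficulty 2)

`Thu_inj`, `0 ≤ s, t < 1`:
* `s, t ≤ 1/2`: `E1t_inj` (`W_dm`): `W (y 1, y 2, t) = exp n • W (x 1, x 2, s) = W (x 1, x 2 + n, s)` (`W_int`), `y 0 = x 0 + j`; field `inj`: `y 1 = x 1 + a`,
  `y 2 = x 2 + n`, `t = s + b`, `b = 0` (`|t - s| < 1`).  So `y = x + vec ![j, a, n]` (compare coordinates).
* `s, t > 1/2`: `E2t_inj` (`W_dm'`): `mir W' = exp n • mir W`, so `W' = exp n • W` (`mir_smul`, `mir_mir`); the same.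
* `s ≤ 1/2 < t`: `E12t_ht`: heights `(W (.., s)).2 ≥ 0` and `(mir (W (.., t))).2 > 0` (field `neg`, `1/2 < t < 1`), but both are `0`: contradiction.  The other case by symmetry.
`Th_inj`: apply `Thu_inj` to `Gt s x`, `Gt t y` (`Gt_offax`, `Gt_onCT`, `gd_of`): `s = t` and `Gt s y = Gt s x + vec m = Gt s (x + vec m)` (`Gt_vec`); `Gt_inv` gives `y = x + vec m`.
-/

open scoped Manifold ContDiff Topology
open Complex (I normSq)

namespace Pool.Agent.CHO

open Pool.Agent.CSG (vec pt act stp)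
open Pool.Agent.TS (OffAx)
open Pool.Agent.RSG (ex)
open Pool.Agent.PTH (SP ISP gact)
open Pool.Agent.CSP (OnCT)
open Pool.Agent.CHW (F3 q2 rr mir cyl zone WD Gd OnB OnK)

variable {P : Pm} {ε : ℝ} (D : WD P.d₀ P.x₁ ε)

theorem ThI_mir_mir (x : F3) : mir (mir x) = x := by
  simp [mir]

theorem ThI_mir_smul (r : ℝ) (x : F3) : mir (r • x) = r • mir x := by
  simp [mir, Prod.ext_iff]

theorem ThI_core {d₀ x₁ ε : ℝ} (D : WD d₀ x₁ ε) {x y : E3} {s t : ℝ} (hx : Gd (x 1, x 2, s)) (hy : Gd (y 1, y 2, t))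
    (hs : 0 ≤ s) (hs' : s < 1) (ht : 0 ≤ t) (ht' : t < 1) {n j : ℤ}
    (he : D.W (y 1, y 2, t) = Real.exp n • D.W (x 1, x 2, s)) (h0 : y 0 = x 0 + j) :
    s = t ∧ ∃ m : Fin 3 → ℤ, y = x + vec m := by
  have h1 : D.W (x 1, x 2 + n, s) = Real.exp n • D.W (x 1, x 2, s) := by
    have := W_int D hx 0 n 0
    simpa using this
  have hg : Gd (x 1, x 2 + n, s) := by
    have := (gd_int 0 n 0).2 hx
    simpa using this
  obtain ⟨a, b, h2, h3, h4⟩ := D.inj _ _ hg hy (h1.trans he.symm)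
  simp only at h2 h3 h4
  have hb : b = 0 := by
    have e1 : ((b : ℤ) : ℝ) < 1 := by linarith
    have e2 : (-1 : ℝ) < ((b : ℤ) : ℝ) := by linarith
    have e3 : b < 1 := by exact_mod_cast e1
    have e4 : -1 < b := by exact_mod_cast e2
    omega
  subst hb
  refine ⟨by simpa using h4.symm, ![j, a, n], ?_⟩
  ext i
  fin_cases i
  · simp [vec, h0]
  · simp [vec, h2]
  · simp [vec, h3]

theorem ThI_swap {x y : E3} {s t : ℝ} (h : t = s ∧ ∃ m : Fin 3 → ℤ, x = y + vec m) :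
    s = t ∧ ∃ m : Fin 3 → ℤ, y = x + vec m := by
  obtain ⟨h1, m, h2⟩ := h
  refine ⟨h1.symm, -m, ?_⟩
  rw [h2]
  ext i
  simp [vec]

theorem Thu_inj (hP : P.Ok) {x y : E3} {s t : ℝ} (hx : Gd (x 1, x 2, s)) (hy : Gd (y 1, y 2, t)) (hs : 0 ≤ s) (hs' : s < 1)
    (ht : 0 ≤ t) (ht' : t < 1) (he : Thu D (x, s) = Thu D (y, t)) : s = t ∧ ∃ m : Fin 3 → ℤ, y = x + vec m := by
  rcases le_or_gt s (1 / 2) with h | h <;> rcases le_or_gt t (1 / 2) with h' | h'
  · rw [Thu_lo D x h, Thu_lo D y h'] at he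
    obtain ⟨⟨n, h1⟩, j, h2⟩ := E1t_inj hP (W_dm D hx (by linarith) h) (W_dm D hy (by linarith) h') he
    exact ThI_core D hx hy hs hs' ht ht' h1 h2
  · rw [Thu_lo D x h, Thu_hi D y h'] at he
    have h3 := W_nonneg D hx hs h
    have h4 := D.neg _ _ _ hy h' ht'
    have h5 := E12t_ht (W_dm D hx (by linarith) h) (W_dm' D hy h'.le (by linarith)) h3
      (by simp only [mir]; linarith) he
    have h6 := h5.2
    simp only [mir] at h6
    linarith
  · rw [Thu_hi D x h, Thu_lo D y h'] at he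
    have h3 := W_nonneg D hy ht h'
    have h4 := D.neg _ _ _ hx h hs'
    have h5 := E12t_ht (W_dm D hy (by linarith) h') (W_dm' D hx h.le (by linarith)) h3
      (by simp only [mir]; linarith) he.symm
    have h6 := h5.2
    simp only [mir] at h6
    linarith
  · rw [Thu_hi D x h, Thu_hi D y h'] at he
    obtain ⟨⟨n, h1⟩, j, h2⟩ := E2t_inj hP (W_dm' D hx h.le (by linarith)) (W_dm' D hy h'.le (by linarith)) he
    refine ThI_core D hx hy hs hs' ht ht' (n := n) ?_ h2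
    have h3 := congrArg mir h1
    rwa [ThI_mir_mir, ThI_mir_smul, ThI_mir_mir] at h3

theorem Th_inj (hP : P.Ok) {x y : E3} {s t : ℝ} (hx : OffAx x) (hx' : ¬ OnCT x s) (hy : OffAx y) (hy' : ¬ OnCT y t)
    (hs : 0 ≤ s) (hs' : s < 1) (ht : 0 ≤ t) (ht' : t < 1) (he : Th D (x, s) = Th D (y, t)) :
    s = t ∧ ∃ m : Fin 3 → ℤ, y = x + vec m := by
  have g1 : Gd (Gt P s x 1, Gt P s x 2, s) :=
    gd_of (by linarith) (by linarith) ((Gt_offax hP s x).2 hx) (fun h => hx' ((Gt_onCT hP s x).1 h))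
  have g2 : Gd (Gt P t y 1, Gt P t y 2, t) :=
    gd_of (by linarith) (by linarith) ((Gt_offax hP t y).2 hy) (fun h => hy' ((Gt_onCT hP t y).1 h))
  have he' : Thu D (Gt P s x, s) = Thu D (Gt P t y, t) := he
  obtain ⟨h1, m, h2⟩ := Thu_inj D hP g1 g2 hs hs' ht ht' he'
  refine ⟨h1, m, ?_⟩
  subst h1
  rw [← Gt_vec] at h2
  have h3 := (Gt_inv hP s y).2
  rw [h2, (Gt_inv hP s (x + vec m)).2] at h3
  exact h3.symm

end Pool.Agent.CHO
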