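import Pool.Agent.CHO.KkL
import Pool.Agent.CHO.KkG
import Pool.Agent.CHO.DjM
import Pool.Agent.CHO.CovM
import Pool.Agent.CHO.ThI
import Pool.Agent.CHO.ShM
import Pool.Agent.CHO.AlM

/-!
# CHO/ObM: the open book structure (assembly)
-/

open scoped Manifold ContDiff Topology
open Complex (I normSq)

namespace Pool.Agent.CHO

open Pool.Agent.CSG (vec pt act stp)
open Pool.Agent.TS (OffAx)
open Pool.Agent.RSG (ex)
open Pool.Agent.RBM (ThickT)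
open Pool.Agent.PTH (SP ISP gact Act)
open Pool.Agent.CSP (OnCT OB)
open Pool.Agent.CHW (F3 q2 rr mir cyl zone WD Gd OnB OnK)

variable {P : Pm} {ε : ℝ} (D : WD P.d₀ P.x₁ ε) {κ₀ : Equiv.Perm E3}

theorem kK_thick (hP : P.Ok) : ThickT ISP (kK D) where
  perl := kK_perl D
  pert := kK_pert D hP
  loc := fun l _ t hv => kK_ld D hP l hv t
  inj := fun _ _ _ _ _ _ hv hv' he => kK_inj D hP hv hv' he

/-- the open book -/
noncomputable def theOB (hP : P.Ok) (h₀ : ∀ x, κ₀ x = act P.C (P.κ 1 x)) : OB ISP κ₀ ε P.k SP where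
  Th := Th D
  Tb := Tb D
  kK := kK D
  T_loc := fun _ _ h0 h1 h h' => Th_ld D hP h0 h1 h h'
  T_per := fun _ _ m h0 h1 h h' => Th_per D hP h0 h1 h h' m
  T_mon := fun _ _ h0 h1 h => Th_mon D hP h₀ h0 h1 h
  T_inj := fun _ _ _ _ hx hx' hy hy' hs hs' ht ht' he => Th_inj D hP hx hx' hy hy' hs hs' ht ht' he
  b_per := Tb_per D
  b_loc := fun θ x _ h => Tb_ld D hP θ x h
  b_inj := fun _ _ _ _ _ _ h h' he => Tb_inj D hP h h' he
  thick := kK_thick D hP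
  glueb := fun _ _ _ _ h0 h1 hs hs' => Tb_glue D hP h0 h1 hs hs'
  glueK := fun _ _ _ _ hs hs' => kK_glue D hP hs hs'
  disjb := fun θ x₀ _ _ h h' h0 h1 => Th_Tb D hP θ x₀ h h' h0 h1
  disjK := fun l τ _ _ h h' h0 h1 => Th_kK D hP l τ h h' h0 h1
  disjbK := kK_Tb D hP
  cover := Th_cover D hP h₀

theorem theOB_kK (hP : P.Ok) (h₀ : ∀ x, κ₀ x = act P.C (P.κ 1 x)) : (theOB D hP h₀).kK = kK D := rfl

theorem theOB_act (hP : P.Ok) (h₀ : ∀ x, κ₀ x = act P.C (P.κ 1 x)) (l : ℝ) (z : ℂ) (τ : ℝ) :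
    (theOB D hP h₀).kK (l, z, τ) = gact P.v τ ((theOB D hP h₀).kK (l, z, 0)) := by
  rw [theOB_kK, kK_act D hP, zero_add]

/-- the core, upper half -/
theorem core_one (hP : P.Ok) {l : ℝ} (h0 : 1 / 2 ≤ l) (h1 : l ≤ 1) (t : ℝ) :
    kK D (l, 0, t) = E1t P (D.Wk (l, 0), t) := by
  refine kK_one D hP ?_ (by simp) t
  rcases h1.eq_or_lt with h | h
  · right
    rw [h]
    exact Int.fract_one
  · left
    rw [Int.fract_eq_self.2 ⟨by linarith, h⟩]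
    exact h0

/-- the core, lower half -/
theorem core_two (hP : P.Ok) {l : ℝ} (h0 : 0 ≤ l) (h1 : l ≤ 1 / 2) (t : ℝ) :
    kK D (l, 0, t) = E2t P (mir (D.Wk (l, 0)), t) := by
  refine kK_two D hP ?_ (by simp) t
  rw [Int.fract_eq_self.2 ⟨h0, by linarith⟩]
  exact h1

/-- Parameters: `C`, `κ`, `δ` as in `CSP.pd_normal`, `v`, `m`, `m'` from `alg_of_M`; `d₀`, `x₁` from `WD d₀ x₁ ε`, `4 d₀ < δ`. -/
def mkPm (C : Matrix (Fin 3) (Fin 3) ℤ) (κ : ℝ → Equiv.Perm E3) (δ d₀ x₁ : ℝ) (k : ℤ) (v m m' : Z3) : Pm :=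
  ⟨C, κ, δ, d₀, x₁, k, v, m, m'⟩

theorem mkPm_ok {C : Matrix (Fin 3) (Fin 3) ℤ} {κ : ℝ → Equiv.Perm E3} {δ d₀ x₁ : ℝ} {v m m' : Z3}
    (hA : Alg C v m m') (hκ : Pool.Agent.CSP.KapOK C κ δ) (hd : 4 * d₀ < δ) (k : ℤ) (D : WD d₀ x₁ ε) :
    (mkPm C κ δ d₀ x₁ k v m m').Ok := ⟨hA, hκ, D.d₀_pos, hd, D.x₁_pos, D.x₁_lt⟩

end Pool.Agent.CHO
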