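import Pool.Agent.CHO.Defs
import Pool.Agent.CSG.FunBasic
import Pool.Agent.CSG.HHb
import Pool.Agent.RSG.ExM

/-!
# CHO/RrM: the rotation of the discs, algebra   (difficulty 2)

`dz x = (x 2 - n) + i (x 1 - m)`, `m = round (x 1)`, `n = round (x 2)`; `dl x = normSq (dz x) ≤ 1/2`.
* `dz_vec`: `round_add_intCast`.
* `dl_le`: `|x - round x| ≤ |x - a|` (`round_le`).
* `dl_near`: `(x 1 - a)² + (x 2 - b)² < 1/4` gives `|x 1 - a| < 1/2`, so `round (x 1) = a` (`round_eq` / `abs_sub_round`), etc.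
* `Rr_near`: if `(x 1 - a)² + (x 2 - b)² < 1/4`, `Rr d₀ t x = pt (x 0) (a + (ex (t chi) z).im) (b + (ex (t chi) z).re)`,
  `z = ⟨x 2 - b, x 1 - a⟩` (`dl_near`).
* `Rr_off`: `chi = 0` (`stp_one`), `ex 0 = 1`, so `Rr x = pt (x 0) (x 1) (x 2) = x`.
* `Rr_dl`: if `(3 d₀)² ≤ dl x` use `Rr_off`; otherwise `y = Rr x` has `(y 1 - m)² + (y 2 - n)² = |ex (..)|² dl x = dl x < (3d₀)² < 1/4`
  (`d₀ < 1/8`), so `round (y 1) = m`, `round (y 2) = n` (`dl_near`), and `dz y = ex (t chi (dl x)) * dz x`.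
* `Rr_add`: with the last formula, `ex_add`.  `Rr_zero`: `ex 0 = 1`.
* `Rr_int`: `chi = 1` (`stp_zero`), `ex k = 1` (`ex_int`).
* `Rr_vec`, `Rr_tr`: `dz_vec`; `Rr` does not use `x 0`.
* `Rr_offax`: `OffAx x ↔ dl x ≠ 0` (`dl x = 0` iff `x 1 = round (x 1)` and `x 2 = round (x 2)`), `Rr_dl`.
* `Rr_half`: `|x 2 - b - 1/2| ≤ 1/16`: `|x 2 - n| ≥ 7/16 ≥ 3 d₀` for every integer `n`.
-/

open scoped Manifold ContDiff Topology
open Complex (I normSq)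

namespace Pool.Agent.CHO

open Pool.Agent.CSG (vec pt act stp)
open Pool.Agent.TS (OffAx)
open Pool.Agent.RSG (ex)

theorem RrM_pt (x : E3) : pt (x 0) (x 1) (x 2) = x := by
  ext i
  fin_cases i <;> simp [pt]

theorem RrM_vec (x : E3) (m : Fin 3 → ℤ) (i : Fin 3) : (x + vec m) i = x i + m i := by
  simp [vec]

theorem RrM_round {r : ℝ} {a : ℤ} (h : |r - a| < 1 / 2) : round r = a := by
  rw [abs_lt] at h
  rw [round_eq, Int.floor_eq_iff]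
  constructor <;> linarith [h.1, h.2]

theorem dz_vec (x : E3) (m : Fin 3 → ℤ) : dz (x + vec m) = dz x := by
  unfold dz
  rw [RrM_vec, RrM_vec, round_add_intCast, round_add_intCast]
  push_cast
  congr 1 <;> ring

theorem dl_vec (x : E3) (m : Fin 3 → ℤ) : dl (x + vec m) = dl x := by
  unfold dl
  rw [dz_vec]

theorem dl_nonneg (x : E3) : 0 ≤ dl x := Complex.normSq_nonneg _

theorem dl_round (x : E3) : dl x = (x 1 - round (x 1)) ^ 2 + (x 2 - round (x 2)) ^ 2 := by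
  unfold dl dz
  rw [Complex.normSq_mk]
  ring

theorem dl_le (x : E3) (a b : ℤ) : dl x ≤ (x 1 - a) ^ 2 + (x 2 - b) ^ 2 := by
  rw [dl_round]
  have h1 := sq_le_sq.2 (round_le (x 1) a)
  have h2 := sq_le_sq.2 (round_le (x 2) b)
  linarith

theorem dl_near {x : E3} {a b : ℤ} (h : (x 1 - a) ^ 2 + (x 2 - b) ^ 2 < 1 / 4) :
    round (x 1) = a ∧ round (x 2) = b ∧ dz x = ⟨x 2 - b, x 1 - a⟩ ∧ dl x = (x 1 - a) ^ 2 + (x 2 - b) ^ 2 := by
  have h1 : |x 1 - a| < 1 / 2 := by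
    apply abs_lt_of_sq_lt_sq _ (by norm_num)
    nlinarith [sq_nonneg (x 2 - b)]
  have h2 : |x 2 - b| < 1 / 2 := by
    apply abs_lt_of_sq_lt_sq _ (by norm_num)
    nlinarith [sq_nonneg (x 1 - a)]
  have r1 := RrM_round h1
  have r2 := RrM_round h2
  refine ⟨r1, r2, ?_, ?_⟩
  · unfold dz
    rw [r1, r2]
  · rw [dl_round, r1, r2]

theorem offax_iff (x : E3) : OffAx x ↔ dl x ≠ 0 := by
  unfold OffAx
  rw [not_iff_not]
  constructor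
  · rintro ⟨⟨a, ha⟩, b, hb⟩
    have h := dl_le x a b
    rw [ha, hb] at h
    have h0 := dl_nonneg x
    nlinarith
  · intro h
    rw [dl_round] at h
    refine ⟨⟨round (x 1), ?_⟩, round (x 2), ?_⟩
    · nlinarith [sq_nonneg (x 1 - round (x 1)), sq_nonneg (x 2 - round (x 2))]
    · nlinarith [sq_nonneg (x 1 - round (x 1)), sq_nonneg (x 2 - round (x 2))]

variable {d₀ : ℝ}

theorem Rr_near (a : ℝ) {x : E3} {i j : ℤ} (h : (x 1 - i) ^ 2 + (x 2 - j) ^ 2 < 1 / 4) :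
    Rr d₀ a x = pt (x 0) (i + (ex (a * chi d₀ (dl x)) * ⟨x 2 - j, x 1 - i⟩).im)
      (j + (ex (a * chi d₀ (dl x)) * ⟨x 2 - j, x 1 - i⟩).re) := by
  obtain ⟨h1, h2, h3, h4⟩ := dl_near h
  unfold Rr
  rw [h1, h2, h3]

theorem RrM_lt (hd : 0 < d₀) : (2 * d₀) ^ 2 < (3 * d₀) ^ 2 := by nlinarith [pow_pos hd 2]

theorem RrM_chi0 (hd : 0 < d₀) {s : ℝ} (h : (3 * d₀) ^ 2 ≤ s) : chi d₀ s = 0 := by
  unfold chi
  rw [CSG.stp_one (RrM_lt hd) h, sub_self]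

theorem RrM_chi1 (hd : 0 < d₀) {s : ℝ} (h : s ≤ (2 * d₀) ^ 2) : chi d₀ s = 1 := by
  unfold chi
  rw [CSG.stp_zero (RrM_lt hd) h, sub_zero]

theorem RrM_one {a : ℝ} {x : E3} (h : ex (a * chi d₀ (dl x)) = 1) : Rr d₀ a x = x := by
  unfold Rr
  rw [h, one_mul]
  have e : pt (x 0) (round (x 1) + (dz x).im) (round (x 2) + (dz x).re) = pt (x 0) (x 1) (x 2) := by
    congr 1
    · change (round (x 1) : ℝ) + (x 1 - round (x 1)) = x 1
      ring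
    · change (round (x 2) : ℝ) + (x 2 - round (x 2)) = x 2
      ring
  rw [e, RrM_pt]

theorem Rr_off (hd : 0 < d₀) (a : ℝ) {x : E3} (h : (3 * d₀) ^ 2 ≤ dl x) : Rr d₀ a x = x := by
  apply RrM_one
  rw [RrM_chi0 hd h, mul_zero, RSG.ex_zero]

theorem RrM_ns (t : ℝ) (z : ℂ) : normSq (ex t * z) = normSq z := by
  rw [Complex.normSq_mul, Complex.normSq_eq_norm_sq, RSG.ex_norm]
  ring

/-- the case of a point of the big disc -/
theorem RrM_in (hd : 0 < d₀) (hd' : d₀ < 1 / 8) (a : ℝ) {x : E3} (h : dl x < (3 * d₀) ^ 2) :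
    round ((Rr d₀ a x) 1) = round (x 1) ∧ round ((Rr d₀ a x) 2) = round (x 2) ∧
      dz (Rr d₀ a x) = ex (a * chi d₀ (dl x)) * dz x := by
  set w := ex (a * chi d₀ (dl x)) * dz x with hw
  have hy1 : (Rr d₀ a x) 1 = round (x 1) + w.im := by
    unfold Rr
    rw [CSG.pt_one']
  have hy2 : (Rr d₀ a x) 2 = round (x 2) + w.re := by
    unfold Rr
    rw [CSG.pt_two']
  have hn : w.re * w.re + w.im * w.im = dl x := by
    rw [← Complex.normSq_apply, hw, RrM_ns]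
    rfl
  have hs : ((Rr d₀ a x) 1 - (round (x 1) : ℤ)) ^ 2 + ((Rr d₀ a x) 2 - (round (x 2) : ℤ)) ^ 2 < 1 / 4 := by
    rw [hy1, hy2]
    have e : ((round (x 1) : ℝ) + w.im - round (x 1)) ^ 2 + ((round (x 2) : ℝ) + w.re - round (x 2)) ^ 2 =
        w.re * w.re + w.im * w.im := by ring
    rw [e, hn]
    nlinarith
  obtain ⟨h1, h2, h3, h4⟩ := dl_near hs
  refine ⟨h1, h2, ?_⟩
  rw [h3, hy1, hy2]
  apply Complex.ext
  · simp only
    ring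
  · simp only
    ring

theorem Rr_dz (hd : 0 < d₀) (hd' : d₀ < 1 / 8) (a : ℝ) (x : E3) :
    dz (Rr d₀ a x) = ex (a * chi d₀ (dl x)) * dz x := by
  rcases le_or_gt ((3 * d₀) ^ 2) (dl x) with h | h
  · rw [Rr_off hd a h, RrM_chi0 hd h, mul_zero, RSG.ex_zero, one_mul]
  · exact (RrM_in hd hd' a h).2.2

theorem Rr_dl (hd : 0 < d₀) (hd' : d₀ < 1 / 8) (a : ℝ) (x : E3) : dl (Rr d₀ a x) = dl x := by
  unfold dl
  rw [Rr_dz hd hd', RrM_ns]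

theorem Rr_zero (x : E3) : Rr d₀ 0 x = x := by
  apply RrM_one
  rw [zero_mul, RSG.ex_zero]

theorem Rr_x0 (a : ℝ) (x : E3) : (Rr d₀ a x) 0 = x 0 := by
  unfold Rr
  rw [CSG.pt_zero']

theorem Rr_add (hd : 0 < d₀) (hd' : d₀ < 1 / 8) (a b : ℝ) (x : E3) : Rr d₀ a (Rr d₀ b x) = Rr d₀ (a + b) x := by
  rcases le_or_gt ((3 * d₀) ^ 2) (dl x) with h | h
  · rw [Rr_off hd b h, Rr_off hd a h, Rr_off hd (a + b) h]
  · obtain ⟨h1, h2, h3⟩ := RrM_in hd hd' b h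
    have h4 := Rr_dl hd hd' b x
    have h5 := Rr_x0 (d₀ := d₀) b x
    have e : Rr d₀ a (Rr d₀ b x) = pt ((Rr d₀ b x) 0)
        (round ((Rr d₀ b x) 1) + (ex (a * chi d₀ (dl (Rr d₀ b x))) * dz (Rr d₀ b x)).im)
        (round ((Rr d₀ b x) 2) + (ex (a * chi d₀ (dl (Rr d₀ b x))) * dz (Rr d₀ b x)).re) := rfl
    rw [e, h1, h2, h3, h4, h5, ← mul_assoc, ← RSG.ex_add, ← add_mul]
    rfl

theorem Rr_int (hd : 0 < d₀) (k : ℤ) {x : E3} (h : dl x ≤ (2 * d₀) ^ 2) : Rr d₀ k x = x := by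
  apply RrM_one
  rw [RrM_chi1 hd h, mul_one, RSG.ex_int]

theorem Rr_disc (hd : 0 < d₀) (hd' : d₀ < 1 / 8) (a : ℝ) {x : E3} {i j : ℤ}
    (h : (x 1 - i) ^ 2 + (x 2 - j) ^ 2 ≤ (2 * d₀) ^ 2) :
    Rr d₀ a x = pt (x 0) (i + (ex a * ⟨x 2 - j, x 1 - i⟩).im) (j + (ex a * ⟨x 2 - j, x 1 - i⟩).re) := by
  have h1 : (x 1 - i) ^ 2 + (x 2 - j) ^ 2 < 1 / 4 := by nlinarith
  have h2 := (dl_near h1).2.2.2
  rw [Rr_near a h1, RrM_chi1 hd (by rw [h2]; exact h), mul_one]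

theorem Rr_vec (a : ℝ) (x : E3) (m : Fin 3 → ℤ) : Rr d₀ a (x + vec m) = Rr d₀ a x + vec m := by
  unfold Rr
  rw [dl_vec, dz_vec, CSG.pt_add_vec, RrM_vec, RrM_vec, RrM_vec, round_add_intCast, round_add_intCast]
  push_cast
  congr 1 <;> ring

theorem RrM_tr (x : E3) (c : ℝ) : (x + pt c 0 0) 0 = x 0 + c ∧ (x + pt c 0 0) 1 = x 1 ∧ (x + pt c 0 0) 2 = x 2 := by
  refine ⟨?_, ?_, ?_⟩ <;> simp

theorem Rr_tr (a : ℝ) (x : E3) (c : ℝ) : Rr d₀ a (x + pt c 0 0) = Rr d₀ a x + pt c 0 0 := by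
  obtain ⟨h0, h1, h2⟩ := RrM_tr x c
  have hz : dz (x + pt c 0 0) = dz x := by
    unfold dz
    rw [h1, h2]
  have hl : dl (x + pt c 0 0) = dl x := by
    unfold dl
    rw [hz]
  unfold Rr
  rw [hl, hz, h0, h1, h2]
  ext i
  fin_cases i <;> simp [pt]

theorem Rr_offax (hd : 0 < d₀) (hd' : d₀ < 1 / 8) (a : ℝ) (x : E3) : OffAx (Rr d₀ a x) ↔ OffAx x := by
  rw [offax_iff, offax_iff, Rr_dl hd hd']

theorem Rr_half (hd : 0 < d₀) (hd' : d₀ < 1 / 8) (a : ℝ) {x : E3} {b : ℤ} (h : |x 2 - b - 1 / 2| ≤ 1 / 16) :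
    Rr d₀ a x = x := by
  apply Rr_off hd
  rw [dl_round]
  rw [abs_le] at h
  have h1 : (7 / 16 : ℝ) ^ 2 ≤ (x 2 - round (x 2)) ^ 2 := by
    rcases le_or_gt (round (x 2)) b with h2 | h2
    · have h3 : ((round (x 2) : ℤ) : ℝ) ≤ (b : ℝ) := by exact_mod_cast h2
      have h4 : 7 / 16 ≤ x 2 - round (x 2) := by linarith [h.1]
      nlinarith
    · have h3 : (b : ℝ) + 1 ≤ ((round (x 2) : ℤ) : ℝ) := by exact_mod_cast h2
      have h4 : 7 / 16 ≤ round (x 2) - x 2 := by linarith [h.2]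
      nlinarith
  nlinarith [sq_nonneg (x 1 - round (x 1))]

end Pool.Agent.CHO
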