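import Pool.Agent.CHO.CylM
import Pool.Agent.CSG.LDa
import Pool.Agent.CSG.LDb
import Pool.Agent.RSG.LDc

/-!
# CHO/Ste: stereographic coordinates   (difficulty 2)

`Sx x = (w / (r + h), log r)`, inverse `Si (σ, Y) = exp Y • (2σ, 1 - |σ|²) / (1 + |σ|²)`.
* `|σ|² = (r² - h²) / (r + h)² = (r - h) / (r + h)`, so `1 + |σ|² = 2r / (r + h)`, `(1 - |σ|²) / (1 + |σ|²) = h / r`,
  `2σ / (1 + |σ|²) = w / r`.
* `Si_dm`: `rr (Si (σ, Y)) = exp Y`, `rr + h = exp Y * 2 / (1 + |σ|²) > 0`.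
* `Sx_ld`: `RSG.ld_two` (both maps are smooth: `rr x ≠ 0`, `r + h ≠ 0`, `Real.log`; `CylM.dm_isOpen`), `Sx_Si`, `Si_Sx`.
-/

open scoped Manifold ContDiff Topology
open Complex (I normSq)

namespace Pool.Agent.CHO

open Pool.Agent.CHW (F3 q2 rr mir cyl zone)

noncomputable def Sx (x : F3) : ℂ × ℝ := (x.1 / ((rr x + x.2 : ℝ) : ℂ), Real.log (rr x))

noncomputable def Si (q : ℂ × ℝ) : F3 :=
  Real.exp q.2 • (2 * q.1 / ((1 + normSq q.1 : ℝ) : ℂ), (1 - normSq q.1) / (1 + normSq q.1))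

theorem Ste_n (z : ℂ) : 0 < 1 + normSq z := by
  have := Complex.normSq_nonneg z
  linarith

theorem Ste_rr (q : ℂ × ℝ) : rr (Si q) = Real.exp q.2 := by
  have hn := Ste_n q.1
  unfold Si
  rw [rr_smul (Real.exp_pos _).le]
  have h2 : rr ((2 * q.1 / ((1 + normSq q.1 : ℝ) : ℂ), (1 - normSq q.1) / (1 + normSq q.1)) : F3) = 1 := by
    show Real.sqrt (normSq (2 * q.1 / ((1 + normSq q.1 : ℝ) : ℂ)) +
      ((1 - normSq q.1) / (1 + normSq q.1)) ^ 2) = 1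
    have h3 : normSq (2 * q.1 / ((1 + normSq q.1 : ℝ) : ℂ)) +
        ((1 - normSq q.1) / (1 + normSq q.1)) ^ 2 = 1 := by
      rw [map_div₀, Complex.normSq_mul, Complex.normSq_ofReal]
      have h4 : normSq (2 : ℂ) = 4 := by
        rw [Complex.normSq_apply]
        norm_num
      rw [h4]
      field_simp
      ring
    rw [h3, Real.sqrt_one]
  rw [h2, mul_one]

theorem Ste_sum (q : ℂ × ℝ) : rr (Si q) + (Si q).2 = Real.exp q.2 * (2 / (1 + normSq q.1)) := by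
  have hn := Ste_n q.1
  rw [Ste_rr]
  show Real.exp q.2 + Real.exp q.2 * ((1 - normSq q.1) / (1 + normSq q.1)) = _
  field_simp
  ring

theorem Si_dm (q : ℂ × ℝ) : Dm (Si q) := by
  have hn := Ste_n q.1
  show 0 < rr (Si q) + (Si q).2
  rw [Ste_sum]
  positivity

theorem Ste_sq (x : F3) : rr x ^ 2 = normSq x.1 + x.2 ^ 2 := Real.sq_sqrt (CylM_q2_nn x)

theorem Si_Sx {x : F3} (h : Dm x) : Si (Sx x) = x := by
  have hr : 0 < rr x := rr_pos.2 (dm_ne h)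
  have hs : 0 < rr x + x.2 := h
  have hsq := Ste_sq x
  have hn : normSq (x.1 / ((rr x + x.2 : ℝ) : ℂ)) = (rr x - x.2) / (rr x + x.2) := by
    rw [map_div₀, Complex.normSq_ofReal, div_eq_div_iff (by positivity) hs.ne']
    have h1 : normSq x.1 = rr x ^ 2 - x.2 ^ 2 := by linarith
    rw [h1]
    ring
  have h1n : 1 + (rr x - x.2) / (rr x + x.2) = 2 * rr x / (rr x + x.2) := by
    field_simp
    ring
  have h2n : 1 - (rr x - x.2) / (rr x + x.2) = 2 * x.2 / (rr x + x.2) := by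
    field_simp
    ring
  have hc : ((rr x + x.2 : ℝ) : ℂ) ≠ 0 := Complex.ofReal_ne_zero.2 hs.ne'
  have hrc : ((rr x : ℝ) : ℂ) ≠ 0 := Complex.ofReal_ne_zero.2 hr.ne'
  refine Prod.ext ?_ ?_
  · show ((Real.exp (Real.log (rr x)) : ℝ)) • (2 * (x.1 / ((rr x + x.2 : ℝ) : ℂ)) /
      ((1 + normSq (x.1 / ((rr x + x.2 : ℝ) : ℂ)) : ℝ) : ℂ)) = x.1
    rw [hn, h1n, Real.exp_log hr, Complex.real_smul]
    have e1 : ((2 * rr x / (rr x + x.2) : ℝ) : ℂ) = 2 * (rr x : ℂ) / ((rr x + x.2 : ℝ) : ℂ) := by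
      push_cast
      ring
    rw [e1]
    field_simp
  · show Real.exp (Real.log (rr x)) * ((1 - normSq (x.1 / ((rr x + x.2 : ℝ) : ℂ))) /
      (1 + normSq (x.1 / ((rr x + x.2 : ℝ) : ℂ)))) = x.2
    rw [hn, h1n, h2n, Real.exp_log hr]
    field_simp

theorem Sx_Si (q : ℂ × ℝ) : Sx (Si q) = q := by
  have hn := Ste_n q.1
  have he := Real.exp_pos q.2
  refine Prod.ext ?_ ?_
  · show (Si q).1 / ((rr (Si q) + (Si q).2 : ℝ) : ℂ) = q.1
    rw [Ste_sum]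
    show (Real.exp q.2 • (2 * q.1 / ((1 + normSq q.1 : ℝ) : ℂ))) /
      ((Real.exp q.2 * (2 / (1 + normSq q.1)) : ℝ) : ℂ) = q.1
    have hc : ((1 + normSq q.1 : ℝ) : ℂ) ≠ 0 := Complex.ofReal_ne_zero.2 hn.ne'
    have hec : ((Real.exp q.2 : ℝ) : ℂ) ≠ 0 := Complex.ofReal_ne_zero.2 he.ne'
    have e1 : ((Real.exp q.2 * (2 / (1 + normSq q.1)) : ℝ) : ℂ) =
        ((Real.exp q.2 : ℝ) : ℂ) * (2 / ((1 + normSq q.1 : ℝ) : ℂ)) := by
      rw [Complex.ofReal_mul, Complex.ofReal_div]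
      norm_num
    rw [e1, Complex.real_smul]
    field_simp
  · show Real.log (rr (Si q)) = q.2
    rw [Ste_rr, Real.log_exp]

theorem Si_add (σ : ℂ) (Y b : ℝ) : Si (σ, Y + b) = Real.exp b • Si (σ, Y) := by
  unfold Si
  simp only
  rw [smul_smul, ← Real.exp_add, add_comm b Y]

theorem Sx_smul {b : ℝ} {x : F3} (h : Dm x) : Sx (Real.exp b • x) = ((Sx x).1, (Sx x).2 + b) := by
  rw [← Si_Sx h, ← Si_add, Sx_Si, Sx_Si]

theorem Ste_q2_smooth : ContDiff ℝ ∞ (q2 : F3 → ℝ) := by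
  have hre : ContDiff ℝ ∞ fun x : F3 => x.1.re := Complex.reCLM.contDiff.comp contDiff_fst
  have him : ContDiff ℝ ∞ fun x : F3 => x.1.im := Complex.imCLM.contDiff.comp contDiff_fst
  exact ((hre.mul hre).add (him.mul him)).add (contDiff_snd.pow 2)

theorem Ste_rr_smooth {x : F3} (h : x ≠ 0) : ContDiffAt ℝ ∞ rr x := by
  refine Ste_q2_smooth.contDiffAt.sqrt ?_
  intro h1
  exact h (CylM_q2 h1)

theorem Ste_Sx_smooth {x : F3} (h : Dm x) : ContDiffAt ℝ ∞ Sx x := by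
  have h0 := dm_ne h
  have h1 := Ste_rr_smooth h0
  have hs : rr x + x.2 ≠ 0 := (show 0 < rr x + x.2 from h).ne'
  have h2 : ContDiffAt ℝ ∞ (fun y : F3 => (rr y + y.2)⁻¹) x := (h1.add contDiffAt_snd).inv hs
  have h3 : ContDiffAt ℝ ∞ (fun y : F3 => (((rr y + y.2)⁻¹ : ℝ) : ℂ) * y.1) x :=
    (Complex.ofRealCLM.contDiff.contDiffAt.comp x h2).mul contDiffAt_fst
  have h4 : (fun y : F3 => y.1 / ((rr y + y.2 : ℝ) : ℂ)) =
      fun y : F3 => (((rr y + y.2)⁻¹ : ℝ) : ℂ) * y.1 := by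
    funext y
    rw [Complex.ofReal_inv, div_eq_mul_inv, mul_comm]
  have h5 : ContDiffAt ℝ ∞ (fun y : F3 => Real.log (rr y)) x := h1.log (rr_pos.2 h0).ne'
  unfold Sx
  rw [← h4] at h3
  exact h3.prodMk h5

theorem Ste_Si_smooth : ContDiff ℝ ∞ Si := by
  have hre : ContDiff ℝ ∞ fun q : ℂ × ℝ => q.1.re := Complex.reCLM.contDiff.comp contDiff_fst
  have him : ContDiff ℝ ∞ fun q : ℂ × ℝ => q.1.im := Complex.imCLM.contDiff.comp contDiff_fst
  have hn : ContDiff ℝ ∞ fun q : ℂ × ℝ => normSq q.1 := (hre.mul hre).add (him.mul him)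
  have h1 : ContDiff ℝ ∞ fun q : ℂ × ℝ => (1 + normSq q.1)⁻¹ :=
    (contDiff_const.add hn).inv fun q => (Ste_n q.1).ne'
  have h2 : ContDiff ℝ ∞ fun q : ℂ × ℝ => (((1 + normSq q.1)⁻¹ : ℝ) : ℂ) * (2 * q.1) :=
    (Complex.ofRealCLM.contDiff.comp h1).mul (contDiff_const.mul contDiff_fst)
  have h3 : ContDiff ℝ ∞ fun q : ℂ × ℝ => (1 - normSq q.1) * (1 + normSq q.1)⁻¹ :=
    (contDiff_const.sub hn).mul h1
  have h4 : Si = fun q : ℂ × ℝ => Real.exp q.2 •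
      (((((1 + normSq q.1)⁻¹ : ℝ) : ℂ) * (2 * q.1), (1 - normSq q.1) * (1 + normSq q.1)⁻¹) : F3) := by
    funext q
    unfold Si
    rw [Complex.ofReal_inv, div_eq_mul_inv, div_eq_mul_inv, mul_comm (2 * q.1)]
  rw [h4]
  exact (Real.contDiff_exp.comp contDiff_snd).smul (h2.prodMk h3)

theorem Sx_ld {x : F3} (h : Dm x) : IsLocalDiffeomorphAt 𝓘(ℝ, F3) 𝓘(ℝ, ℂ × ℝ) ∞ Sx x := by
  have hev : ∀ᶠ y in 𝓝 x, Dm y := dm_isOpen.mem_nhds h
  refine Pool.Agent.RSG.ld_two (g := Si) ?_ ?_ ?_ ?_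
  · filter_upwards [hev] with y hy
    exact (Ste_Sx_smooth hy).contMDiffAt
  · exact Filter.Eventually.of_forall fun y => Ste_Si_smooth.contDiffAt.contMDiffAt
  · filter_upwards [hev] with y hy
    exact Si_Sx hy
  · exact Filter.Eventually.of_forall Sx_Si

end Pool.Agent.CHO
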