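import Pool.Agent.CHO.RrM
import Pool.Agent.CHO.CylL

/-!
# CHO/ThD: domains and signs of the chart `W`   (difficulty 2)

`D : WD P.d₀ P.x₁ ε`.
* `gd_of`: `OnB (u, y, t)`: `u, y` integers, excluded by `OffAx`; `OnK (u, y, t)`: `y = m + 1/2`, `t = n + 1/2`, and `-1/8 < t < 9/8` gives `n = 0`.
* `gd_int`: shift the integers.  `W_int`: `per_u`, `per_y`, `per_t` for natural steps in both directions (use the fields at shifted points, `gd_int`), induction
  (`Int.induction_on`) one coordinate after the other.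
* `dl_pt`: `dl` does not depend on the coordinate `x 0`.
* `W_colz`: if `d₀² ≤ dl (pt 0 u y)` then `d₀² ≤ (u - m)² + (y - n)²` for all `m, n` (`dl_le`), field `collar`; otherwise `near0` with the rounds.
* `W_half_zone`: `n = round y`; `|y - n| ≤ 1/2` (`abs_sub_round`) and `≠ 1/2` (not `OnK`); `near1`.
* `W_nonneg`: `pos`, `page0`, `page1`.  `W_nonpos`: `neg`, `page1`, and at `t = 1` `W_int` and `page0`.
* `W_dm`: `0 ≤ t ≤ 1/2`: `dm_of_nonneg`, field `ne`.  `t < 0`: `|t| ≤ 1/8`, `W_colz`: `zone_dm` or `dm_cyl` (`th_lt`).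
* `W_dm'`: `1/2 ≤ t ≤ 1`: `mir` has height `≥ 0`.  `1 < t ≤ 9/8`: `W (u, y, t) = W (u, y, t - 1)`, `W_colz` for `t - 1`, `zone_mir`, `mir_cyl`.
-/

open scoped Manifold ContDiff Topology
open Complex (I normSq)

namespace Pool.Agent.CHO

open Pool.Agent.CSG (vec pt act stp)
open Pool.Agent.TS (OffAx)
open Pool.Agent.RSG (ex)
open Pool.Agent.CSP (OnCT)
open Pool.Agent.CHW (F3 q2 rr mir cyl zone WD Gd OnB OnK)

variable {d₀ x₁ ε : ℝ} (D : WD d₀ x₁ ε)

theorem ThD_onB (u y t : ℝ) (a b c : ℤ) : OnB (u + a, y + b, t + c) ↔ OnB (u, y, t) := by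
  constructor
  · rintro ⟨m, n, h1, h2⟩
    refine ⟨m - a, n - b, ?_, ?_⟩
    · have h1' : u + a = m := h1
      show u = ((m - a : ℤ) : ℝ)
      push_cast
      linarith
    · have h2' : y + b = n := h2
      show y = ((n - b : ℤ) : ℝ)
      push_cast
      linarith
  · rintro ⟨m, n, h1, h2⟩
    refine ⟨m + a, n + b, ?_, ?_⟩
    · have h1' : u = m := h1
      show u + a = ((m + a : ℤ) : ℝ)
      push_cast
      linarith
    · have h2' : y = n := h2
      show y + b = ((n + b : ℤ) : ℝ)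
      push_cast
      linarith

theorem ThD_onK (u y t : ℝ) (a b c : ℤ) : OnK (u + a, y + b, t + c) ↔ OnK (u, y, t) := by
  constructor
  · rintro ⟨m, n, h1, h2⟩
    refine ⟨m - b, n - c, ?_, ?_⟩
    · have h1' : y + b = m + 1 / 2 := h1
      show y = ((m - b : ℤ) : ℝ) + 1 / 2
      push_cast
      linarith
    · have h2' : t + c = n + 1 / 2 := h2
      show t = ((n - c : ℤ) : ℝ) + 1 / 2
      push_cast
      linarith
  · rintro ⟨m, n, h1, h2⟩
    refine ⟨m + b, n + c, ?_, ?_⟩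
    · have h1' : y = m + 1 / 2 := h1
      show y + b = ((m + b : ℤ) : ℝ) + 1 / 2
      push_cast
      linarith
    · have h2' : t = n + 1 / 2 := h2
      show t + c = ((n + c : ℤ) : ℝ) + 1 / 2
      push_cast
      linarith

theorem gd_of {x : E3} {t : ℝ} (h0 : -(1 / 8) < t) (h1 : t < 9 / 8) (h : OffAx x) (h' : ¬ OnCT x t) : Gd (x 1, x 2, t) := by
  refine ⟨?_, ?_⟩
  · rintro ⟨m, n, h2, h3⟩
    exact h ⟨⟨m, h2⟩, n, h3⟩
  · rintro ⟨m, n, h2, h3⟩
    have h2' : x 2 = m + 1 / 2 := h2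
    have h3' : t = n + 1 / 2 := h3
    have h4 : n = 0 := by
      have h5 : (-1 : ℝ) < n := by linarith
      have h6 : (n : ℝ) < 1 := by linarith
      have h7 : (-1 : ℤ) < n := by exact_mod_cast h5
      have h8 : n < (1 : ℤ) := by exact_mod_cast h6
      omega
    refine h' ⟨?_, m, h2'⟩
    rw [h3', h4]
    norm_num

theorem gd_int {u y t : ℝ} (a b c : ℤ) : Gd (u + a, y + b, t + c) ↔ Gd (u, y, t) := by
  unfold Gd
  rw [ThD_onB, ThD_onK]

theorem ThD_u {u y t : ℝ} (h : Gd (u, y, t)) (a : ℤ) : D.W (u + a, y, t) = D.W (u, y, t) := by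
  induction a using Int.induction_on with
  | zero => simp
  | succ k ih =>
    have hg : Gd (u + ((k : ℤ) : ℝ), y, t) := by
      have h1 := (gd_int (u := u) (y := y) (t := t) (k : ℤ) 0 0).2 h
      simpa using h1
    have h2 := D.per_u (u + ((k : ℤ) : ℝ)) y t hg
    rw [← ih, ← h2]
    congr 2
    push_cast
    ring
  | pred k ih =>
    have hg : Gd (u + ((-(k : ℤ) - 1 : ℤ) : ℝ), y, t) := by
      have h1 := (gd_int (u := u) (y := y) (t := t) (-(k : ℤ) - 1) 0 0).2 h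
      rw [Int.cast_zero, add_zero, add_zero] at h1
      exact h1
    have h2 := D.per_u (u + ((-(k : ℤ) - 1 : ℤ) : ℝ)) y t hg
    rw [← ih, ← h2]
    congr 2
    push_cast
    ring

theorem ThD_t {u y t : ℝ} (h : Gd (u, y, t)) (a : ℤ) : D.W (u, y, t + a) = D.W (u, y, t) := by
  induction a using Int.induction_on with
  | zero => simp
  | succ k ih =>
    have hg : Gd (u, y, t + ((k : ℤ) : ℝ)) := by
      have h1 := (gd_int (u := u) (y := y) (t := t) 0 0 (k : ℤ)).2 h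
      rw [Int.cast_zero, add_zero, add_zero] at h1
      exact h1
    have h2 := D.per_t u y (t + ((k : ℤ) : ℝ)) hg
    rw [← ih, ← h2]
    congr 3
    push_cast
    ring
  | pred k ih =>
    have hg : Gd (u, y, t + ((-(k : ℤ) - 1 : ℤ) : ℝ)) := by
      have h1 := (gd_int (u := u) (y := y) (t := t) 0 0 (-(k : ℤ) - 1)).2 h
      rw [Int.cast_zero, add_zero, add_zero] at h1
      exact h1
    have h2 := D.per_t u y (t + ((-(k : ℤ) - 1 : ℤ) : ℝ)) hg
    rw [← ih, ← h2]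
    congr 3
    push_cast
    ring

theorem ThD_y {u y t : ℝ} (h : Gd (u, y, t)) (a : ℤ) : D.W (u, y + a, t) = Real.exp a • D.W (u, y, t) := by
  induction a using Int.induction_on with
  | zero => simp
  | succ k ih =>
    have hg : Gd (u, y + ((k : ℤ) : ℝ), t) := by
      have h1 := (gd_int (u := u) (y := y) (t := t) 0 (k : ℤ) 0).2 h
      rw [Int.cast_zero, add_zero, add_zero] at h1
      exact h1
    have h2 := D.per_y u (y + ((k : ℤ) : ℝ)) t hg
    have h3 : y + (((k : ℤ) + 1 : ℤ) : ℝ) = y + ((k : ℤ) : ℝ) + 1 := by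
      push_cast
      ring
    have h4 : Real.exp (((k : ℤ) + 1 : ℤ) : ℝ) = Real.exp 1 * Real.exp ((k : ℤ) : ℝ) := by
      rw [← Real.exp_add]
      congr 1
      push_cast
      ring
    rw [h3, h2, ih, h4, smul_smul]
  | pred k ih =>
    have hg : Gd (u, y + ((-(k : ℤ) - 1 : ℤ) : ℝ), t) := by
      have h1 := (gd_int (u := u) (y := y) (t := t) 0 (-(k : ℤ) - 1) 0).2 h
      rw [Int.cast_zero, add_zero, add_zero] at h1
      exact h1
    have h2 := D.per_y u (y + ((-(k : ℤ) - 1 : ℤ) : ℝ)) t hg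
    have h3 : y + ((-(k : ℤ) - 1 : ℤ) : ℝ) + 1 = y + ((-(k : ℤ) : ℤ) : ℝ) := by
      push_cast
      ring
    rw [h3, ih] at h2
    have h4 : Real.exp ((-(k : ℤ) - 1 : ℤ) : ℝ) = Real.exp (-1) * Real.exp ((-(k : ℤ) : ℤ) : ℝ) := by
      rw [← Real.exp_add]
      congr 1
      push_cast
      ring
    rw [h4, ← smul_smul, h2, smul_smul, ← Real.exp_add]
    norm_num

theorem W_int {u y t : ℝ} (h : Gd (u, y, t)) (a b c : ℤ) : D.W (u + a, y + b, t + c) = Real.exp b • D.W (u, y, t) := by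
  have h1 : Gd (u, y + b, t + c) := by
    have h2 := (gd_int (u := u) (y := y) (t := t) 0 b c).2 h
    rw [Int.cast_zero, add_zero] at h2
    exact h2
  have h2 : Gd (u, y, t + c) := by
    have h2 := (gd_int (u := u) (y := y) (t := t) 0 0 c).2 h
    rw [Int.cast_zero, add_zero, add_zero] at h2
    exact h2
  rw [ThD_u D h1 a, ThD_y D h2 b, ThD_t D h c]

theorem dl_pt (τ u y : ℝ) : dl (pt τ u y) = dl (pt 0 u y) := rfl

theorem dl_eta (x : E3) : dl (pt 0 (x 1) (x 2)) = dl x := rfl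

theorem W_colz {u y t : ℝ} (h : Gd (u, y, t)) (ht : |t| ≤ 1 / 8) :
    (dl (pt 0 u y) < d₀ ^ 2 ∧ ∃ n : ℤ, D.W (u, y, t) ∈ zone (2 * d₀) x₁ n) ∨
      (d₀ ^ 2 ≤ dl (pt 0 u y) ∧ D.W (u, y, t) = cyl (u, y, D.th t)) := by
  rcases lt_or_ge (dl (pt 0 u y)) (d₀ ^ 2) with hd | hd
  · left
    refine ⟨hd, round y, ?_⟩
    rw [dl_round] at hd
    exact D.near0 u y t (round u) (round y) h ht hd
  · right
    refine ⟨hd, ?_⟩
    refine D.collar u y t ht ?_
    intro m n
    exact hd.trans (dl_le (pt 0 u y) m n)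

theorem W_half_zone {u y : ℝ} (h : Gd (u, y, 1 / 2)) : ∃ n : ℤ, D.W (u, y, 1 / 2) ∈ zone (2 * d₀) x₁ n := by
  refine ⟨round y, D.near1 u y (round y) h ?_⟩
  have h1 := abs_sub_round y
  refine lt_of_le_of_ne h1 ?_
  intro h2
  refine h.2 ?_
  rcases abs_eq (by norm_num : (0 : ℝ) ≤ 1 / 2) |>.1 h2 with h3 | h3
  · refine ⟨round y, 0, ?_, ?_⟩
    · show y = (round y : ℝ) + 1 / 2
      linarith
    · show (1 / 2 : ℝ) = ((0 : ℤ) : ℝ) + 1 / 2
      norm_num
  · refine ⟨round y - 1, 0, ?_, ?_⟩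
    · show y = ((round y - 1 : ℤ) : ℝ) + 1 / 2
      push_cast
      linarith
    · show (1 / 2 : ℝ) = ((0 : ℤ) : ℝ) + 1 / 2
      norm_num

theorem W_nonneg {u y t : ℝ} (h : Gd (u, y, t)) (h0 : 0 ≤ t) (h1 : t ≤ 1 / 2) : 0 ≤ (D.W (u, y, t)).2 := by
  rcases h0.eq_or_lt with h2 | h2
  · subst h2
    exact (D.page0 u y h).ge
  · rcases h1.eq_or_lt with h3 | h3
    · subst h3
      exact (D.page1 u y h).ge
    · exact (D.pos u y t h h2 h3).le

theorem W_nonpos {u y t : ℝ} (h : Gd (u, y, t)) (h0 : 1 / 2 ≤ t) (h1 : t ≤ 1) : (D.W (u, y, t)).2 ≤ 0 := by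
  rcases h0.eq_or_lt with h2 | h2
  · subst h2
    exact (D.page1 u y h).le
  · rcases h1.eq_or_lt with h3 | h3
    · subst h3
      have h4 : Gd (u, y, 0) := by
        have h5 := (gd_int (u := u) (y := y) (t := 0) 0 0 1).1 (by
          rw [Int.cast_zero, add_zero, add_zero, zero_add, Int.cast_one]
          exact h)
        exact h5
      have h6 := ThD_t D h4 1
      rw [zero_add, Int.cast_one] at h6
      rw [h6]
      exact (D.page0 u y h4).le
    · exact (D.neg u y t h h2 h3).le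

theorem W_dm {u y t : ℝ} (h : Gd (u, y, t)) (h0 : -(1 / 8) ≤ t) (h1 : t ≤ 1 / 2) : Dm (D.W (u, y, t)) := by
  rcases le_or_gt 0 t with h2 | h2
  · exact dm_of_nonneg (D.ne _ h) (W_nonneg D h h2 h1)
  · have hx := D.x₁_lt
    have ht : |t| ≤ 1 / 8 := abs_le.2 ⟨h0, by linarith⟩
    rcases W_colz D h ht with ⟨-, n, hn⟩ | ⟨-, hn⟩
    · exact zone_dm (by linarith) hn
    · rw [hn]
      exact dm_cyl ((D.th_lt t ht).trans (by linarith))

theorem W_dm' {u y t : ℝ} (h : Gd (u, y, t)) (h0 : 1 / 2 ≤ t) (h1 : t ≤ 9 / 8) : Dm (mir (D.W (u, y, t))) := by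
  rcases le_or_gt t 1 with h2 | h2
  · refine dm_of_nonneg (mir_ne (D.ne _ h)) ?_
    have h3 := W_nonpos D h h0 h2
    show 0 ≤ -(D.W (u, y, t)).2
    linarith
  · have hx := D.x₁_lt
    have ht : |t - 1| ≤ 1 / 8 := abs_le.2 ⟨by linarith, by linarith⟩
    have h4 : Gd (u, y, t - 1) := by
      have h5 := (gd_int (u := u) (y := y) (t := t - 1) 0 0 1).1 (by
        rw [Int.cast_zero, add_zero, add_zero, Int.cast_one, sub_add_cancel]
        exact h)
      exact h5
    have h6 := ThD_t D h4 1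
    rw [Int.cast_one, sub_add_cancel] at h6
    rw [h6]
    rcases W_colz D h4 ht with ⟨-, n, hn⟩ | ⟨-, hn⟩
    · exact zone_dm (by linarith) (zone_mir hn)
    · rw [hn, mir_cyl]
      refine dm_cyl ?_
      rw [abs_neg]
      exact (D.th_lt _ ht).trans (by linarith)

end Pool.Agent.CHO
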